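import Pool.Agent.P.MP_08fd93_co.FN.N11

/-! Integration: special top edges of a frame with one-vertex stems. -/

set_option autoImplicit false

namespace Pool.Agent.P.MP_08fd93_co.FN

open OV PkPrtP FB FE FZ FU

variable {J : Type} {G : VD J} {j : ℤ} {s s' t t' e g k x : Vx J} {P Vs : Set (Vx J)}
  {pL pR : Prop} {p : PD J} {M : MU J} {d : DD (Vx J)} {u : Un J} {φ : Vx J → Vx J}
  {f f' : Sym2 (Vx J)}

/-- the order of a part of the bottom path -/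
theorem SV.ord_eq (h : SV G) (hs : s ∈ G.L j) (hs' : s' ∈ G.L j) (hN : G.NoV s s')
    (ht : t ∈ G.L j) (ht' : t' ∈ G.L j) (l1 : G.ρ s ≤ G.ρ t) (l : G.ρ t ≤ G.ρ t')
    (l2 : G.ρ t' ≤ G.ρ s') (ne : G.an t ≠ G.an t') (hx : x ∈ G.Bt t t') :
    G.ord s s' x = G.ord t t' x := by
  by_cases c : x ∈ G.K
  swap
  · rw [ord_old c, ord_old c]
  rcases h.bt_k hx c with rfl | rfl
  · have r := (h.kin hs hs' hN ht l1 (l.trans l2) c).resolve_right fun r =>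
      ne (h.vf.btw ht (h.pr _) ht' (h.pr _) hs' (h.pr _) l l2 r c).symm
    rw [ord_lo (t_self c), ord_lo (r ▸ t_self c), r]
  · have n : G.an t' ≠ G.an s := fun r =>
      ne ((h.vf.btw hs (h.pr _) ht (h.pr _) ht' (h.pr _) l1 l r.symm (r ▸ c)).trans r.symm)
    have r := (h.kin hs hs' hN ht' (l1.trans l) l2 c).resolve_left n
    rw [ord_hi (t_self c) fun m => ne (h.t_mem m).symm,
      ord_hi (r ▸ t_self c) fun m => n (h.t_mem m), r]

theorem VC.ord (h : SV G) (hd : VC G M d) (hu : u ∈ M.us) (c : (FL G).Cov u e)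
    (ne : G.an e ≠ G.an (G.nx e)) (hx : x ∈ (Bc G e).X) : d.ρ x = (Bc G e).ρ x := by
  obtain ⟨a, b, r⟩ := hd.rng h hu c
  obtain ⟨n1, n2, -⟩ := h.vf.toRows.nx_mem a
  rw [hd.eρ x (hd.bt h hu c hx)]
  exact h.ord_eq hd.hM.hs hd.hM.hs' hd.nov a n1 b (by omega) (by omega) ne hx

theorem VC.bI (h : SV G) (hd : VC G M d) (hu : u ∈ M.us) (c : (FL G).Cov u e) :
    (Bc G e).I ⊆ d.I := by
  obtain ⟨a, b, r⟩ := hd.rng h hu c
  obtain ⟨n1, n2, -⟩ := h.vf.toRows.nx_mem a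
  rw [h.bc_I (h.vf.toRows.la a), hd.eI]
  refine fun z hz => Or.inr (h.vf.cl_mono hd.hM.hs (h.pr _) hd.hM.hs' (h.pr _) a (h.pr _) n1
    (h.pr _) b (by omega) (h.vf.mono' hd.hM.hs (h.pr _) a (h.pr _) b).2
    (h.vf.mono' n1 (h.pr _) hd.hM.hs' (h.pr _) (by omega)).1 ?_)
  rwa [← show G.f e = (FL G).f M.s from h.vf.uw.lf _ _ a]

theorem VC.bY (h : SV G) (hd : VC G M d) (hu : u ∈ M.us) (c : (FL G).Cov u e)
    (hx : x ∈ (Bc G e).Y) : x ∈ d.I ∨ x ∈ d.Y := by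
  obtain ⟨a, b, r⟩ := hd.rng h hu c
  obtain ⟨n1, n2, -⟩ := h.vf.toRows.nx_mem a
  have : x ∈ (FL G).Top M.s M.s' := by
    rcases (h.bc_Y (h.vf.toRows.la a)).1 hx with rfl | rfl
    exacts [⟨a, b, r.le⟩, ⟨n1, show G.ρ _ ≤ G.ρ _ by omega, show G.ρ _ ≤ G.ρ _ by omega⟩]
  exact (top_mem h.lay hd.hM this).symm.imp (fun m => hd.eI ▸ Or.inl m) fun m => hd.mc.eY ▸ m

/-- One vertex of the basic cell sees the bottom on both sides of the two edges. -/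
def Span (G : VD J) (e : Vx J) (f f' : Sym2 (Vx J)) : Prop :=
  f ∈ PE G.Γ (Bc G e).X ∧ f' ∈ PE G.Γ (Bc G e).X ∧ ∃ w, (w ∈ (Bc G e).I ∨ w ∈ (Bc G e).Y) ∧
    ∃ a ∈ (Bc G e).X, ∃ b ∈ (Bc G e).X, G.Γ.Adj w a ∧ G.Γ.Adj w b ∧
      ∀ x, x ∈ f ∨ x ∈ f' → (Bc G e).ρ a ≤ (Bc G e).ρ x ∧ (Bc G e).ρ x ≤ (Bc G e).ρ b

/-- The edge `f` is straddled under `e`. -/
def Ex (G : VD J) (e : Vx J) (f : Sym2 (Vx J)) : Prop := ∃ z, Bad G.Γ (Bc G e) z f

theorem SV.span (h : SV G) (he : e ∈ G.LA) (m : f ∈ PE G.Γ (Bc G e).X)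
    (m' : f' ∈ PE G.Γ (Bc G e).X) (b : Ex G e f) (b' : Ex G e f') : Span G e f f' := by
  obtain ⟨z, b⟩ := b
  obtain ⟨z', b'⟩ := b'
  have D := h.bc_disc he
  obtain rfl := Bad.uniq h.lay.fine.pl D (h.bc_st he).ne m b b'
  obtain ⟨ql, qj, w, r⟩ := b.hubT D (h.bc_st he) m
  obtain ⟨-, -, -, q, hq, q', hq', a, a', r'⟩ := b'
  exact ⟨m, m', z, Or.inl w.hz, ql, w.hl, qj, w.hj, w.zl, w.zj, fun x k => k.elim (r x) fun k =>
    ⟨(w.ex q hq a).1.trans (r' x k).1, (r' x k).2.trans (w.ex q' hq' a').2⟩⟩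

theorem pe_ne (m : f ∈ PE G.Γ (Bc G e).X) : G.an e ≠ G.an (G.nx e) :=
  let ⟨_, a, _, b, c, _⟩ := m
  bt_ne a b c.ne

/-- the basic cell is the part of the cell under a cap that begins at `e` -/
theorem VC.prt (h : SV G) (hd : VC G M d) (hu : M.us = {u}) (n : u.x ≠ u.s)
    (ne : G.an u.s ≠ G.an (G.nx u.s)) : Prt G.Γ d (Bc G u.s) (G.nx u.s) (G.an (G.nx u.s)) := by
  have mu : u ∈ M.us := hu ▸ rfl
  obtain ⟨vu, e1, e2⟩ := one_ends h.lay hd.hM hu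
  have c := cov_self vu
  have he : u.s ∈ G.LA := vu.hs
  obtain ⟨n1, n2, n3⟩ := h.vf.toRows.nx_mem he
  have cu := cap_of vu n
  have lt : G.ρ u.s + 1 < G.ρ u.s' := cu.lt
  have E := h.bc_disc he
  have D := hd.mc.disc
  have qb : G.an (G.nx u.s) ∈ (Bc G u.s).X := E.px.hb
  have sub := hd.bt h mu c
  obtain ⟨z, hz, -⟩ := D.tz (Or.inl D.px.ha)
  refine ⟨hd.eI ▸ Or.inl ⟨u, mu, (cu.old _ n1).2 ⟨show G.ρ _ < G.ρ _ by omega,
      show G.ρ _ < G.ρ _ by omega⟩⟩, sub qb, (h.vf.aa _ _ n1 (h.pr _)).1,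
    by rw [hd.mc.ea', ← e1]; exact n3.symm, E, fun x => ⟨fun m => ⟨sub m, ?_⟩, fun m => ?_⟩,
    fun x => by rw [hd.mc.ea', ← e1]; exact h.bc_Y he, fun x m => (hd.ord h mu c ne m).symm,
    by rw [hd.ea, ← e1]; rfl, rfl, z, (z_iff E).2 ⟨fun m => D.xz (sub m) hz, fun m =>
      (hd.bY h mu c m).elim (Z_I hz) fun m => D.yz m hz, fun m => Z_I hz (hd.bI h mu c m)⟩, hz⟩
  · rw [hd.ord h mu c ne m, hd.ord h mu c ne qb]
    exact E.px.hi x m
  · obtain ⟨m, l⟩ := m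
    have hs' : M.s' ∈ G.L (G.f u.s) := e2 ▸ vu.hs'
    have le : G.ρ u.s ≤ G.ρ M.s' := by rw [← e2]; omega
    have mb : x ∈ G.Bt u.s M.s' := by rwa [hd.eX, ← e1] at m
    by_cases a : x ∈ G.K
    · rcases h.bt_k mb a with r | r
      · exact Or.inl r
      · rw [D.px.inj x m _ (sub qb) (le_antisymm l (by
          rw [r, ← hd.eb]
          exact D.px.hi _ (sub qb)))]
        exact qb
    obtain ⟨b1, b2, b3⟩ := h.vf.bt_line he (h.pr _) hs' (h.pr _) le mb a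
    refine h.bt_of he ne b1 b2 ?_
    by_cases q : G.an (G.nx u.s) ∈ G.K
    · rwa [(h.kin he hs' (e1 ▸ hd.nov) n1 (by omega) (by rw [← e2]; omega) q).resolve_left ne.symm]
    · rwa [hd.mc.rx x m a, hd.mc.rx _ (sub qb) q, ← (h.vf.xo _ q).1] at l

/-- the basic cell is the part of the cell under a cap that ends at `nx e` -/
theorem VC.prt' (h : SV G) (hd : VC G M d) (hu : M.us = {u}) (n : u.x ≠ u.s) (he : e ∈ G.LA)
    (r : G.nx e = u.s') (ne : G.an e ≠ G.an (G.nx e)) :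
    Prt G.Γ (rvD d) (rvD (Bc G e)) e (G.an e) := by
  have mu : u ∈ M.us := hu ▸ rfl
  obtain ⟨vu, e1, e2⟩ := one_ends h.lay hd.hM hu
  obtain ⟨n1, n2, n3⟩ := h.vf.toRows.nx_mem he
  have cu := cap_of vu n
  have lt : G.ρ u.s + 1 < G.ρ u.s' := cu.lt
  have lv : G.f u.s = G.f e := (h.vf.uw.lf _ _ vu.hs').symm.trans (r ▸ h.vf.uw.lf _ _ n1)
  have he' : e ∈ G.L (G.f u.s) := lv ▸ he
  rw [← r] at lt
  have c : (FL G).Cov u e := ⟨he', show G.ρ _ ≤ G.ρ _ by omega, r ▸ show G.ρ _ < G.ρ _ by omega⟩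
  have E := h.bc_disc he
  have D := hd.mc.disc
  have qb : G.an e ∈ (Bc G e).X := E.px.ha
  have sub := hd.bt h mu c
  have eb : d.b' = G.nx e := hd.mc.eb'.trans (e2.symm.trans r.symm)
  obtain ⟨z, hz, -⟩ := D.tz (Or.inl D.px.ha)
  refine ⟨show e ∈ d.I from hd.eI ▸ Or.inl ⟨u, mu, (cu.old _ he').2
      ⟨show G.ρ _ < G.ρ _ by omega, c.2.2⟩⟩, sub qb, (h.vf.aa _ _ he (h.pr _)).1,
    show G.Γ.Adj e d.b' from eb ▸ n3, disc_rv E, fun x => ⟨fun m => ⟨sub m, ?_⟩, fun m => ?_⟩,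
    fun x => (h.bc_Y he).trans (show _ ↔ x = d.b' ∨ _ from eb ▸ or_comm),
    fun x m => congrArg (0 - ·) (hd.ord h mu c ne m).symm,
    show G.an (G.nx e) = d.b by rw [hd.eb, ← e2, r], rfl, z,
    (z_iff E).2 ⟨fun m => D.xz (sub m) hz, fun m =>
      (hd.bY h mu c m).elim (Z_I hz) fun m => D.yz m hz, fun m => Z_I hz (hd.bI h mu c m)⟩, hz⟩
  · show 0 - d.ρ x ≤ 0 - d.ρ _
    rw [hd.ord h mu c ne m, hd.ord h mu c ne qb]
    exact sub_le_sub_left (E.px.lo x m) 0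
  · obtain ⟨m, l⟩ := m
    have m : x ∈ d.X := m
    have l : d.ρ (G.an e) ≤ d.ρ x := (sub_le_sub_iff_left 0).1 l
    have hs : u.s ∈ G.L (G.f e) := lv ▸ vu.hs
    have mb : x ∈ G.Bt u.s (G.nx e) := by rwa [hd.eX, ← e1, ← e2, ← r] at m
    by_cases a : x ∈ G.K
    · rcases h.bt_k mb a with q | q
      · rw [D.px.inj x m _ (sub qb) (le_antisymm (by
          rw [q, e1, ← hd.ea]
          exact D.px.lo _ (sub qb)) l)]
        exact qb
      · exact q ▸ E.px.hb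
    obtain ⟨b1, b2, b3⟩ := h.vf.bt_line hs (h.pr _) n1 (h.pr _) (by omega) mb a
    refine h.bt_of he ne b1 ?_ b3
    by_cases q : G.an e ∈ G.K
    · rwa [(h.kin hs n1 (by rw [r, e1, e2]; exact hd.nov) he (by omega) (by omega)
        q).resolve_right ne]
    · rwa [hd.mc.rx x m a, hd.mc.rx _ (sub qb) q, ← (h.vf.xo _ q).2] at l

variable (h : SV G) (hp : PS (FL G) (XL G) G.Pr p (PQ1 G P Vs pL pR)) (st : StC G p Vs pL pR)
include h hp st

omit hp st in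
theorem VC.eq_mb (hd : VC G M d) (hu : M.us = {Tv (FL G) e}) : M = Mb G e := by
  obtain ⟨-, e1, e2⟩ := one_ends h.lay hd.hM hu
  exact MU.ext e1.symm e2.symm hu

/-- the basic cell: a solution that keeps the feet -/
theorem SV.csol_b (he : e ∈ G.LA) (k : Sl (FL G) p ((PQ1 G P Vs pL pR).Ok (FL G)) (Mb G e) (Bc G e)
    (SS G P pL pR e) (G.Vis e (G.nx e))) :
    CSol (FL G) (XL G) p ((PQ1 G P Vs pL pR).Ok (FL G)) (Mb G e) :=
  (h.vcb he).csol h hp st (by rintro _ rfl; exact Or.inl (okS_tv e))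
    (((mb_c1 he).su h.lay).symm ▸ k)

theorem SV.csol_b0 (he : e ∈ G.LA) (hv : VisE G P Vs pL pR e)
    (k : Sl (FL G) p ((PQ1 G P Vs pL pR).Ok (FL G)) (Mb G e) (Bc G e) (SS G P pL pR e) ∅) :
    CSol (FL G) (XL G) p ((PQ1 G P Vs pL pR).Ok (FL G)) (Mb G e) :=
  (h.vcb he).csol0 h hp st (by rintro _ rfl; exact Or.inl (okS_tv e))
    (by rintro _ rfl z c; exact h.lay.tv_cov he c ▸ hv) (((mb_c1 he).su h.lay).symm ▸ k)

omit st in
/-- a static edge -/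
theorem SV.spc_stat (s0 : e ∈ (PQ1 G P Vs pL pR).St (FL G))
    (k : CSol (FL G) (XL G) p ((PQ1 G P Vs pL pR).Ok (FL G)) (Mb G e)) :
    Spc G p (PQ1 G P Vs pL pR) e := fun _ _ _ hd hu o c =>
  hd.eq_mb h (hp.stat h.lay (one_ends h.lay hd.hM hu).1 o s0 c ▸ hu) ▸ k

/-- a static edge over a good edge -/
theorem SV.spc_k1 (he : e ∈ G.LA) (s0 : e ∈ (PQ1 G P Vs pL pR).St (FL G))
    (hv : VisE G P Vs pL pR e) (sub : SS G P pL pR e ⊆ {f}) (m : f ∈ PE G.Γ (Bc G e).X)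
    (g : ¬ Ex G e f) : Spc G p (PQ1 G P Vs pL pR) e :=
  h.spc_stat hp s0 (h.csol_b0 hp st he hv ((sl_k1 h.lay (h.mb he) (h.vcb he).mc rfl rfl m
    fun z b => g ⟨z, b⟩).mono sub (Set.empty_subset _)))

/-- a static edge that pays twice -/
theorem SV.spc_t2 (he : e ∈ G.LA) (s0 : e ∈ (PQ1 G P Vs pL pR).St (FL G))
    (hv : VisE G P Vs pL pR e) (sub : SS G P pL pR e ⊆ {f, f'}) (pd : p.c e.1 = p.c (G.nx e).1 ∨
      (p.R (FL G) e ∧ e.1 ∈ p.dn ∧ p.Lt (FL G) (G.nx e) ∧ (G.nx e).1 ∈ p.dn)) :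
    Spc G p (PQ1 G P Vs pL pR) e :=
  h.spc_stat hp s0 (h.csol_b0 hp st he hv ((mb_c1 he).eb h.lay (h.mb he) (h.vcb he).mc
    (fun _ m => m.1) ⟨f, f', sub⟩ pd))

omit hp st in
/-- the payer of two strict edges under `e` -/
theorem SV.eb_ex (he : e ∈ G.LA) (m : f ∈ PE G.Γ (Bc G e).X) (m' : f' ∈ PE G.Γ (Bc G e).X) :
    ∃ X' Q t, (t = e ∨ t = G.nx e) ∧
      OutX G.Γ (Bc G e) {f, f'} X' Q fun c A => c e = c (G.nx e) ∨ t ∈ A :=
  outX_eb h.lay.fine.pl (all_T _ _ h.lay.fine.pl) (h.bc_disc he) (h.bc_st he) m m'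

/-- The end `t` of the edge `e` pays below, or the edge is monochromatic. -/
def PayE (F : FD J) (p : PD J) (e t : Vx J) : Prop :=
  p.c e.1 = p.c (F.nx e).1 ∨ (t = e ∧ p.R F e ∧ e.1 ∈ p.dn) ∨
    (t = F.nx e ∧ p.Lt F (F.nx e) ∧ (F.nx e).1 ∈ p.dn)

theorem SV.csol_eb (he : e ∈ G.LA) (hv : VisE G P Vs pL pR e) (sub : SS G P pL pR e ⊆ {f, f'})
    {X' Q : Set (Vx J)} (O : OutX G.Γ (Bc G e) {f, f'} X' Q fun c A => c e = c (G.nx e) ∨ t ∈ A)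
    (pd : PayE (FL G) p e t) : CSol (FL G) (XL G) p ((PQ1 G P Vs pL pR).Ok (FL G)) (Mb G e) := by
  refine h.csol_b0 hp st he hv ⟨X', Q, _, O.mono sub, Set.empty_subset _, fun _ σ c hc _ => ?_⟩
  obtain ⟨c1, c2, -⟩ := hc _ rfl
  by_cases m : p.c e.1 = p.c (G.nx e).1
  · exact Or.inl (congrArg σ (c1.trans (m.trans c2.symm)))
  rcases pd.resolve_left m with ⟨rfl, a⟩ | ⟨rfl, a⟩
  exacts [Or.inr (Or.inl ⟨_, rfl, rfl, m, Or.inl ⟨rfl, a.1⟩, a.2⟩),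
    Or.inr (Or.inl ⟨_, rfl, rfl, m, Or.inr ⟨rfl, a.1⟩, a.2⟩)]

/-- a static edge whose payer pays -/
theorem SV.spc_eb (he : e ∈ G.LA) (s0 : e ∈ (PQ1 G P Vs pL pR).St (FL G))
    (hv : VisE G P Vs pL pR e) (sub : SS G P pL pR e ⊆ {f, f'}) {X' Q : Set (Vx J)}
    (O : OutX G.Γ (Bc G e) {f, f'} X' Q fun c A => c e = c (G.nx e) ∨ t ∈ A)
    (pd : PayE (FL G) p e t) : Spc G p (PQ1 G P Vs pL pR) e :=
  h.spc_stat hp s0 (h.csol_eb hp st he hv sub O pd)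

omit st in
/-- under a cap over an edge that is paid below there are only the strict edges of this edge -/
theorem VC.cap_su (hd : VC G M d) (hu : M.us = {u}) (o : (PQ1 G P Vs pL pR).Ok0 (FL G) u)
    (n : u.x ≠ u.s) (c : (FL G).Cov u e) (d0 : p.Dn (FL G) e)
    (dn : ∀ y ∈ G.LA, y ∉ (PQ1 G P Vs pL pR).St (FL G) → (SS G P pL pR y).Nonempty →
      p.Dn (FL G) y) : (PQ1 G P Vs pL pR).SU (FL G) M ⊆ SS G P pL pR e ∧ p.R (FL G) u.s ∧
      p.Lt (FL G) u.s' ∧ ∀ y, (FL G).Cov u y → y ∉ (PQ1 G P Vs pL pR).St (FL G) := by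
  have hF := h.lay
  have vu := (one_ends hF hd.hM hu).1
  have os := o.resolve_right fun k => k.2
  have pt := hp.pt hF os n
  have ns : ∀ y, (FL G).Cov u y → y ∉ (PQ1 G P Vs pL pR).St (FL G) := fun y m s =>
    n (by rw [hp.stat hF vu o s m]; rfl)
  have db := fun y (m : (FL G).Cov u y) =>
    hp.pl.up_dn hF (hF.la m.1) (hp.up y (hF.la m.1) (os.2 n y m))
  obtain ⟨r, l⟩ := chain_dbl hF vu pt c (db e c d0)
  refine ⟨?_, r, l, ns⟩
  rintro f ⟨t, ht, y, m, k⟩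
  rw [hu] at ht
  subst ht
  exact chain_uni hF pt m c (db y m (dn y (hF.la m.1) (ns y m) ⟨f, k⟩)) (db e c d0) ▸ k

/-- an edge that is paid below over two edges in the span of one vertex; caps are allowed -/
theorem SV.spc_sp (he : e ∈ G.LA) (hv : VisE G P Vs pL pR e) (sub : SS G P pL pR e ⊆ {f, f'})
    (sp : Span G e f f') (d0 : p.Dn (FL G) e)
    (dn : ∀ y ∈ G.LA, y ∉ (PQ1 G P Vs pL pR).St (FL G) →
      VisE G P Vs pL pR y ∧ ((SS G P pL pR y).Nonempty → p.Dn (FL G) y)) :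
    Spc G p (PQ1 G P Vs pL pR) e := by
  intro M d u hd hu o c
  have hF := h.lay
  have mu : u ∈ M.us := hu ▸ rfl
  have vu := (hd.hM.val u mu).1
  obtain ⟨m, m', w, hw, a, ha, b, hb, wa, wb, r⟩ := sp
  have sb : (Bc G e).X ⊆ d.X := hd.bt h mu c
  have key := fun pd => sl_sp (p := p) (Ok := (PQ1 G P Vs pL pR).Ok (FL G)) hF hd.hM hd.mc hu
    (hw.elim (fun k => Or.inl (hd.bI h mu c k)) (hd.bY h mu c)) (sb ha) (sb hb) wa wb
    (PE.mono sb m) (PE.mono sb m') (fun x k => by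
      rw [hd.ord h mu c (pe_ne m) ha, hd.ord h mu c (pe_ne m) hb,
        hd.ord h mu c (pe_ne m) (k.elim (PE.ends m) (PE.ends m'))]
      exact r x k) pd
  have oo : ∀ t ∈ M.us, (PQ1 G P Vs pL pR).Ok0 (FL G) t := fun t ht => by
    rw [hu] at ht
    exact ht ▸ o
  by_cases n : u.x = u.s
  · have eu := hF.eq_tv vu n
    obtain rfl : e = u.s := hF.tv_cov vu.hs (eu ▸ c)
    obtain rfl := hd.eq_mb h (eu ▸ hu)
    refine hd.csol0 h hp st oo (by rintro _ rfl z c; exact hF.tv_cov he c ▸ hv)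
      ((key fun _ => t1_dn hF vu mu n d0).mono ?_ (Set.empty_subset _))
    rw [(mb_c1 he).su hF]
    exact sub
  · obtain ⟨k1, k2, k3, k4⟩ := hd.cap_su h hp hu o n c d0 fun y a b => (dn y a b).2
    refine hd.csol0 h hp st oo (fun t ht y m => ?_)
      ((key fun ok => t1_cap (hp.plan hF) vu ok mu n k2 k3).mono (k1.trans sub) (Set.empty_subset _))
    rw [hu] at ht
    subst ht
    exact (dn y (hF.la m.1) (k4 y m)).1

/-- an edge with a visible right end over two strict edges -/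
theorem SV.spc_rem' (he : e ∈ G.LA) (v0 : G.nx e ∈ Vs) (hv : VisE G P Vs pL pR e)
    (sub : SS G P pL pR e ⊆ {f, f'}) {X' Q : Set (Vx J)}
    (O : OutX G.Γ (Bc G e) {f, f'} X' Q fun c A => c e = c (G.nx e) ∨ t ∈ A)
    (pd : PayE (FL G) p e t) (tt : t = G.nx e ∨ p.c e.1 = p.c (G.nx e).1)
    (dn : ∀ y ∈ G.LA, y ∉ (PQ1 G P Vs pL pR).St (FL G) →
      VisE G P Vs pL pR y ∧ ((SS G P pL pR y).Nonempty → p.Dn (FL G) y)) :
    Spc G p (PQ1 G P Vs pL pR) e := by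
  intro M d u hd hu o c
  have hF := h.lay
  have mu : u ∈ M.us := hu ▸ rfl
  obtain ⟨vu, -, e2⟩ := one_ends hF hd.hM hu
  by_cases n : u.x = u.s
  · have eu := hF.eq_tv vu n
    obtain rfl : e = u.s := hF.tv_cov vu.hs (eu ▸ c)
    obtain rfl := hd.eq_mb h (eu ▸ hu)
    exact h.csol_eb hp st he hv sub O pd
  have d0 : p.Dn (FL G) e := pd.imp Eq.symm (Or.imp And.right And.right)
  obtain ⟨k1, k2, k3, k4⟩ := hd.cap_su h hp hu o n c d0 fun y a b => (dn y a b).2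
  obtain ⟨a, b, r⟩ := hd.rng h mu c
  obtain ⟨n1, n2, -⟩ := h.vf.toRows.nx_mem a
  have oo : ∀ t ∈ M.us, (PQ1 G P Vs pL pR).Ok0 (FL G) t := fun t ht => by
    rw [hu] at ht
    exact ht ▸ o
  have r' : G.nx e = u.s' := (h.vf.toRows.inj n1 hd.hM.hs' (by
    rcases vis_out hF hd.hM (fun t ht => (oo t ht).nv) n1 v0 (h.pr _) with g | g
    · have g : G.ρ (G.nx e) ≤ G.ρ M.s := g
      omega
    · have g : G.ρ M.s' ≤ G.ρ (G.nx e) := g
      show G.ρ _ = G.ρ _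
      omega)).trans e2.symm
  refine hd.csol0 h hp st oo (fun t ht y m => ?_) ((sl_rem' (t := t) hF hd.hM hd.mc hu n
    (hd.prt' h hu n he r' (pe_ne (O.sub (Or.inl rfl))))
    (O.imp' fun c A _ m => m.imp_left fun m => by rw [r', m]) fun _ => ⟨k2, k3, ?_,
      tt.imp (fun m => m.trans r') fun m => ?_⟩).mono (k1.trans sub) (Set.empty_subset _))
  · rw [hu] at ht
    subst ht
    exact (dn y (hF.la m.1) (k4 y m)).1
  · rw [hp.pl.cx]
    unfold cxS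
    split_ifs with q
    · rw [q]
      exact (by decide : ∀ a : Col, (a.1, !a.2) ≠ a) _
    · exact q
  · by_cases q : p.c u.s.1 = p.c u.s'.1
    · refine Or.inr fun ad => ?_
      have c1 : G.ρ u.s ≤ G.ρ e := c.2.1
      obtain ⟨s1, s2, -⟩ := h.vf.toRows.nx_mem vu.hs
      have ee : G.nx u.s = e := h.vf.toRows.inj s1 c.1 (by
        have := (h.vf.toRows.adj_iff c.1 vu.hs).1 ad
        omega)
      have m1 := (hp.pl.mono u.s vu.hs (by
        rw [show (FL G).nx u.s = e from ee, m, r', q])).2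
      have m2 := (hp.pl.mono e he m.symm).1
      rw [show (FL G).nx u.s = e from ee, m2] at m1
      have := congrArg G.ρ m1
      rw [show G.ρ ((FL G).nx e) = G.ρ e + 1 from n2] at this
      omega
    · left
      rw [hp.pl.cx]
      unfold cxS
      rw [if_neg q, if_pos k2]

end Pool.Agent.P.MP_08fd93_co.FN
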