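import Pool.Agent.P.MP_08fd93_co.FN.N9
import Pool.Agent.P.MP_08fd93_co.FE.KL

/-! Integration: the colouring of a frame with one-vertex stems from a table of its edges. -/

set_option autoImplicit false

namespace Pool.Agent.P.MP_08fd93_co.FN

open OV PkPrtP FB FE FZ

variable {J : Type} {G : VD J} {j : ℤ} {s s' t e y k : Vx J} {P Vs : Set (Vx J)} {pL pR : Prop}
  {p : PD J} {M : MU J} {d : DD (Vx J)} {u : Un J} {φ : Vx J → Vx J}

/-- The strict edges under the top edge `e`: pinned edges of the row, and the edge from a stem to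
its left (right) foot if `pL` (`pR`) holds. -/
def SS (G : VD J) (P : Set (Vx J)) (pL pR : Prop) (e : Vx J) : Set (Sym2 (Vx J)) :=
  {f | f ∈ PE G.Γ (G.Bt e (G.nx e)) ∧ ((∃ g ∈ P, g ∈ G.LA ∧ f = s(g, G.nx g)) ∨
    (pL ∧ G.an (G.nx e) ∈ G.K ∧ f = s(G.an (G.nx e), G.xl (G.an (G.nx e)))) ∨
    (pR ∧ G.an e ∈ G.K ∧ f = s(G.an e, G.xr (G.an e))))}

/-- The system of pins `P` with the visible vertices `Vs`. -/
def PQ1 (G : VD J) (P Vs : Set (Vx J)) (pL pR : Prop) : PQ J :=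
  ⟨P, Vs, SS G P pL pR, fun _ => False, ∅⟩

/-- `e` begins at the last child of a stem. -/
def IsR (G : VD J) (e : Vx J) : Prop := e ∈ G.LA ∧ G.an e ∈ G.K ∧ G.an (G.nx e) ≠ G.an e

/-- `e` ends at the first child of a stem. -/
def IsL (G : VD J) (e : Vx J) : Prop := e ∈ G.LA ∧ G.an (G.nx e) ∈ G.K ∧ G.an e ≠ G.an (G.nx e)

/-- The edge `k x` is monochromatic or paid by a spare token in the cell under `e`. -/
def PayK (p : PD J) (e k x : Vx J) : Prop :=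
  p.c k.1 = p.c x.1 ∨ (p.o k = k ∧ p.kc k = e) ∨ (p.o x = x ∧ p.kc x = e)

/-- The conditions at the stems. -/
structure StC (G : VD J) (p : PD J) (Vs : Set (Vx J)) (pL pR : Prop) : Prop where
  kid : ∀ k ∈ G.K, ∃ t ∈ G.LA, t ∈ Vs ∧ G.an t = k
  kc : ∀ k ∈ G.K, (p.c k.1).1 = p.cls (G.f k - 1)
  payR : ∀ e, IsR G e → pR ∨ PayK p e (G.an e) (G.xr (G.an e))
  payL : ∀ e, IsL G e → pL ∨ PayK p e (G.an (G.nx e)) (G.xl (G.an (G.nx e)))

/-- The feet under the top edge `e` are ends of strict edges or corners. -/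
def VisE (G : VD J) (P Vs : Set (Vx J)) (pL pR : Prop) (e : Vx J) : Prop :=
  (IsR G e → pR ∨ G.xr (G.an e) ∈ P ∨ (G.nx e ∈ Vs ∧ G.an (G.nx e) = G.xr (G.an e))) ∧
    (IsL G e → pL ∨ (∃ g ∈ P, g ∈ G.LA ∧ G.nx g = G.xl (G.an (G.nx e))) ∨
      (e ∈ Vs ∧ G.an e = G.xl (G.an (G.nx e))))

/-- The disc of a macro cell. -/
structure VC (G : VD J) (M : MU J) (d : DD (Vx J)) : Prop where
  hM : MVal (FL G) (XL G) G.Pr M
  mc : MC (FL G) (XL G) M d (G.Vis M.s M.s') (G.R (ftL G) M.s M.s')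
  nov : G.NoV M.s M.s'
  eX : d.X = G.Bt M.s M.s'
  ea : d.a = G.an M.s
  eb : d.b = G.an M.s'
  eI : d.I = M.Pk ∪ G.In M.s M.s'
  eρ : ∀ v ∈ d.X, d.ρ v = G.ord M.s M.s' v

theorem SV.vc (h : SV G) (st : StC G p Vs pL pR) (hM : MVal (FL G) (XL G) G.Pr M)
    (o : ∀ u ∈ M.us, (PQ1 G P Vs pL pR).Nv (FL G) u) : ∃ d, VC G M d := by
  have hN : G.NoV M.s M.s' := h.vf.nov' hM.hs hM.ps hM.hs' hM.ps' fun k hk e => by
    obtain ⟨t, t1, t2, t3⟩ := st.kid k hk.1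
    have : t ∈ G.L (G.f M.s) := by
      have := (h.vf.an_v t1 (h.pr t) (t3 ▸ hk.1)).2
      rwa [← show G.f k = G.f M.s from e, ← t3, this]
    exact ⟨t, this, h.pr t, t3, vis_out h.lay hM o this t2 (h.pr t)⟩
  obtain ⟨d, a, b, c, e, f, g⟩ := h.vf.mc h.fts hM hN
  exact ⟨d, hM, a, hN, b, c, e, f, g⟩

theorem VC.su (hd : VC G M d) (he : e ∈ G.L (G.f M.s)) (l1 : G.ρ M.s ≤ G.ρ e)
    (l2 : G.ρ e < G.ρ M.s') : SS G P pL pR e ⊆ (PQ1 G P Vs pL pR).SU (FL G) M := fun _ k =>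
  let ⟨u, hu, c⟩ := hd.hM.cov e ⟨he, l1, l2.le⟩ l2
  ⟨u, hu, e, c, k⟩

theorem VC.rng (h : SV G) (hd : VC G M d) (hu : u ∈ M.us) (c : (FL G).Cov u e) :
    e ∈ G.L (G.f M.s) ∧ G.ρ M.s ≤ G.ρ e ∧ G.ρ e < G.ρ M.s' :=
  let ⟨_, t1, t2⟩ := hd.hM.val u hu
  ⟨(hd.hM.lev h.lay hu : G.f u.s = G.f M.s) ▸ c.1, t1.2.1.trans c.2.1, c.2.2.trans_le t2.2.2⟩

theorem VC.bt (h : SV G) (hd : VC G M d) (hu : u ∈ M.us) (c : (FL G).Cov u e) :
    G.Bt e (G.nx e) ⊆ d.X := by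
  obtain ⟨a, b, r⟩ := hd.rng h hu c
  obtain ⟨n1, n2, -⟩ := h.vf.toRows.nx_mem a
  rw [hd.eX]
  exact h.bt_sub hd.hM.hs hd.hM.hs' hd.nov a n1 b (by omega) (by omega)

theorem VC.hb (h : SV G) (hd : VC G M d) (h1 : y ∈ d.X) (hk : y ∉ G.K) (h2 : G.nx y ∈ d.X)
    (g : y ∈ P) : s(y, G.nx y) ∈ (PQ1 G P Vs pL pR).SU (FL G) M := by
  rw [hd.eX] at h1 h2
  obtain ⟨e, a, b, c, m1, m2⟩ := h.row_ex hd.hM.hs hd.hM.hs' hd.nov hd.hM.lt h1 hk h2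
  have l := (h.vf.bt_line hd.hM.hs hd.hM.ps hd.hM.hs' hd.hM.ps' hd.hM.lt.le h1 hk).1
  exact hd.su a b c ⟨mem_PE.2 ⟨m1, m2, (h.vf.toRows.nx_mem l).2.2⟩,
    Or.inl ⟨y, g, h.vf.toRows.la l, rfl⟩⟩

theorem SV.ssR (h : SV G) (i : IsR G e) (r : pR) : s(G.an e, G.xr (G.an e)) ∈ SS G P pL pR e := by
  obtain ⟨n1, n2, -⟩ := h.vf.toRows.nx_mem i.1
  exact ⟨mem_PE.2 ⟨Or.inl rfl, (h.feet_bt i.1 n1 (by omega) i.2.2.symm).1, (h.foot i.2.1).2.1.2⟩,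
    Or.inr (Or.inr ⟨r, i.2.1, rfl⟩)⟩

theorem SV.ssL (h : SV G) (i : IsL G e) (r : pL) :
    s(G.an (G.nx e), G.xl (G.an (G.nx e))) ∈ SS G P pL pR e := by
  obtain ⟨n1, n2, -⟩ := h.vf.toRows.nx_mem i.1
  exact ⟨mem_PE.2 ⟨h.bt_b i.1 n1 (by omega), (h.feet_bt i.1 n1 (by omega) i.2.2).2,
    (h.foot i.2.1).1.2⟩, Or.inr (Or.inl ⟨r, i.2.1, rfl⟩)⟩

/-- the conditions of the plan on the bottom of a macro cell -/
theorem VC.cel (h : SV G) (hd : VC G M d) (pl : Plan0 (FL G) (XL G) p) (st : StC G p Vs pL pR) :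
    Cel (FL G) (XL G) p (PQ1 G P Vs pL pR) M d (G.Vis M.s M.s') (G.R (ftL G) M.s M.s')
      (G.Vis M.s M.s') := by
  classical
  have hs : M.s ∈ G.L (G.f M.s) := hd.hM.hs
  have hs' : M.s' ∈ G.L (G.f M.s) := hd.hM.hs'
  have lt : G.ρ M.s < G.ρ M.s' := hd.hM.lt
  have R := h.vf.toRows
  refine ⟨hd.mc, ?_, fun v hv _ => Or.inl hv, fun y a b c g _ => hd.hb h a b c g,
    ⟨fun x => if x ∈ G.K then (if x = G.an M.s then G.xr x else G.xl x) else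
      (if G.an M.s ∈ G.K ∧ x = G.xr (G.an M.s) then G.an M.s else G.an M.s'),
      fun a ha b hb e hk => ?_⟩, fun a ha hk => ?_, fun c c1 c2 => ?_⟩
  · rintro f ⟨u, hu, e, c, k⟩
    exact PE.mono (hd.bt h hu c) k.1
  · rw [hd.eX] at ha hb
    have hk : a ∈ G.K := hk
    have ne := bt_ne ha hb e.ne
    have nb : b ∉ G.K := fun c => e.ne (h.t_mem ⟨hk, c, h.vf.kn a hk b c e⟩)
    obtain ⟨⟨x, x1, x2, x3, x4, x5⟩, z, z1, z2, z3, z4, z5⟩ := h.last hs hs' lt.le ne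
    rcases h.stem hs hs' lt.le ha hb e hk with ⟨rfl, rfl⟩ | ⟨rfl, rfl⟩
    · have i : IsR G x := ⟨R.la x1, x4 ▸ hk, x4 ▸ x5⟩
      have cv := hd.hM.cov x ⟨x1, x2, x3.le⟩ x3
      rcases st.payR x i with m | m | m | m
      · exact Or.inl (hd.su x1 x2 x3 (x4 ▸ h.ssR i m))
      · exact Or.inr (Or.inl (x4 ▸ m))
      · rw [x4] at m
        exact Or.inr (Or.inr (Or.inl ⟨⟨m.1, m.2 ▸ cv⟩, (if_pos hk).trans (if_pos rfl)⟩))
      · rw [x4] at m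
        exact Or.inr (Or.inr (Or.inr ⟨⟨m.1, m.2 ▸ cv⟩, (if_neg nb).trans (if_pos ⟨hk, rfl⟩)⟩))
    · have i : IsL G z := ⟨R.la z1, z5 ▸ hk, z5 ▸ z4⟩
      have cv := hd.hM.cov z ⟨z1, z2, z3.le⟩ z3
      rcases st.payL z i with m | m | m | m
      · exact Or.inl (hd.su z1 z2 z3 (z5 ▸ h.ssL i m))
      · exact Or.inr (Or.inl (z5 ▸ m))
      · rw [z5] at m
        exact Or.inr (Or.inr (Or.inl ⟨⟨m.1, m.2 ▸ cv⟩, (if_pos hk).trans (if_neg ne.symm)⟩))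
      · rw [z5] at m
        refine Or.inr (Or.inr (Or.inr ⟨⟨m.1, m.2 ▸ cv⟩, (if_neg nb).trans
          (if_neg fun c => ne (h.kq _ c.1 _ hk _ ?_ e.symm))⟩))
        rw [c.2]
        exact (h.foot c.1).2.1.2.symm
  · rw [hd.eX] at ha
    have hk : a ∈ G.K := hk
    rw [st.kc a hk]
    rcases h.bt_k ha hk with r | r
    · exact congrArg (fun i => p.cls (i - 1)) (r ▸ (h.vf.an_v hs (h.pr _) (r ▸ hk)).2)
    · exact congrArg (fun i => p.cls (i - 1)) (r ▸ (h.vf.an_v hs' (h.pr _) (r ▸ hk)).2)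
  · rcases h.rest hs hs' (all_T _ _ h.lay.fine.pl) with r | ⟨r1, r2, r3, r4⟩
    · rw [r]
      exact ⟨c, Rec.empty _ _⟩
    obtain ⟨f1, f2, f3⟩ := h.vf.feet hs (h.pr _)
    have m := (h.vf.mono hs (h.pr _) hs' (h.pr _) lt.le).resolve_left r2
    have b := (h.feet_bt hs hs' lt.le r2).1
    have g := h.foot r1
    refine r4 c fun k => r3 ?_
    rw [c1 _ r1, c2 _ ⟨f1, le_rfl, f3.trans m⟩ (Or.inl fun k => r3 (R.inj f1 f2 (le_antisymm f3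
        (h.vf.bt_line hs (h.pr _) hs' (h.pr _) lt.le (hd.eX ▸ k) (h.vf.l_nk f1)).2.1))),
      c2 _ ⟨f2, f3, m⟩ (Or.inr (Or.inl ⟨b, Or.inr (Or.inl ⟨r1, rfl⟩)⟩))] at k
    exact (pl.kmono _ r1 _ (Or.inl (R.la f1)) g.1.2 k.1.symm).1.symm.trans
      (pl.kmono _ r1 _ (Or.inl (R.la f2)) g.2.1.2 (k.1.trans k.2).symm).1

/-- the feet are kept -/
theorem VC.vis (h : SV G) (hd : VC G M d) (o : ∀ u ∈ M.us, (PQ1 G P Vs pL pR).Nv (FL G) u)
    (hv : ∀ u ∈ M.us, ∀ e, (FL G).Cov u e → VisE G P Vs pL pR e) :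
    G.Vis M.s M.s' ⊆ Kp d ((PQ1 G P Vs pL pR).SU (FL G) M) := by
  have hs : M.s ∈ G.L (G.f M.s) := hd.hM.hs
  have hs' : M.s' ∈ G.L (G.f M.s) := hd.hM.hs'
  have lt : G.ρ M.s < G.ρ M.s' := hd.hM.lt
  have R := h.vf.toRows
  have f := h.vf.feet hs (h.pr _)
  have f' := h.vf.feet hs' (h.pr _)
  have both : G.an M.s ≠ G.an M.s' → G.xr (G.an M.s) = G.xl (G.an M.s') → G.an M.s ∈ G.K →
      G.an M.s' ∉ G.K := fun ne e a b =>
    ne (h.kq _ a _ b _ (h.foot a).2.1.2.symm (e ▸ (h.foot b).1.2.symm))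
  rintro v ⟨hb, k | ⟨k, rfl⟩ | ⟨k, rfl⟩⟩
  · exact (h.bt_k hb k).elim (fun r => Or.inl (r.trans hd.ea.symm))
      fun r => Or.inr (Or.inl (r.trans hd.eb.symm))
  · have ne := bt_ne hb (Or.inl rfl) fun r => h.vf.l_nk f.2.1 (by rwa [r])
    have m := (h.vf.mono hs (h.pr _) hs' (h.pr _) lt.le).resolve_left ne
    obtain ⟨⟨x, x1, x2, x3, x4, x5⟩, -⟩ := h.last hs hs' lt.le ne
    have i : IsR G x := ⟨R.la x1, x4 ▸ k, x4 ▸ x5⟩
    obtain ⟨u, hu, c⟩ := hd.hM.cov x ⟨x1, x2, x3.le⟩ x3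
    obtain ⟨n1, n2, -⟩ := R.nx_mem x1
    rcases (hv u hu x c).1 i with r | r | r
    · exact Or.inr (Or.inr ⟨_, hd.su x1 x2 x3 (h.ssR i r), x4 ▸ Sym2.mem_mk_right _ _⟩)
    · rcases eq_or_lt_of_le m with l | l
      · have e := R.inj f.2.1 f'.1 l
        exact Or.inr (Or.inl ((e.trans (h.vf.xo _ (both ne e k)).1).trans hd.eb.symm))
      · obtain ⟨m1, m2, -⟩ := R.nx_mem f.2.1
        exact Or.inr (Or.inr ⟨_, hd.hb h (hd.eX ▸ hb) (h.vf.l_nk f.2.1)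
          (hd.eX ▸ h.bt_of hs ne m1 (by omega) (by omega)) (x4 ▸ r), Sym2.mem_mk_left _ _⟩)
    · have e : G.nx x = M.s' := R.inj n1 hs' (by
        rcases vis_out h.lay hd.hM o n1 r.1 (h.pr _) with g | g
        · have g : G.ρ (G.nx x) ≤ G.ρ M.s := g
          omega
        · have g : G.ρ M.s' ≤ G.ρ (G.nx x) := g
          omega)
      exact Or.inr (Or.inl (by rw [hd.eb, ← e, r.2, x4]))
  · have ne := bt_ne hb (h.bt_b hs hs' lt.le) fun r => h.vf.l_nk f'.1 (by rwa [r])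
    have m := (h.vf.mono hs (h.pr _) hs' (h.pr _) lt.le).resolve_left ne
    obtain ⟨-, x, x1, x2, x3, x4, x5⟩ := h.last hs hs' lt.le ne
    have i : IsL G x := ⟨R.la x1, x5 ▸ k, x5 ▸ x4⟩
    obtain ⟨u, hu, c⟩ := hd.hM.cov x ⟨x1, x2, x3.le⟩ x3
    rcases (hv u hu x c).2 i with r | ⟨g, g1, g2, r⟩ | r
    · exact Or.inr (Or.inr ⟨_, hd.su x1 x2 x3 (h.ssL i r), x5 ▸ Sym2.mem_mk_right _ _⟩)
    · rcases eq_or_lt_of_le m with l | l
      · have e := R.inj f.2.1 f'.1 l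
        exact Or.inl ((e.symm.trans (h.vf.xo _ fun a => both ne e a k).2).trans hd.ea.symm)
      · obtain ⟨m1, m2, -⟩ := R.nx_mem g2
        rw [x5] at r
        rw [r] at m1 m2
        have gl : g ∈ G.L (G.f M.s - 1) := by
          rw [← R.uw.lf _ _ f'.1, R.uw.lf _ _ m1]
          exact g2
        exact Or.inr (Or.inr ⟨_, hd.hb h (hd.eX ▸ h.bt_of hs ne gl (by omega) (by omega))
          (h.vf.l_nk gl) (by rw [r, hd.eX]; exact hb) g1, r ▸ Sym2.mem_mk_right _ _⟩)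
    · have e : x = M.s := R.inj x1 hs (by
        rcases vis_out h.lay hd.hM o x1 r.1 (h.pr _) with g | g
        · have g : G.ρ x ≤ G.ρ M.s := g
          omega
        · have g : G.ρ M.s' ≤ G.ρ x := g
          omega)
      exact Or.inl (by rw [hd.ea, ← e, r.2, x5])

/-- Every macro cell over the top edge `e` has a solution. -/
def Spc (G : VD J) (p : PD J) (q : PQ J) (e : Vx J) : Prop :=
  ∀ M d u, VC G M d → M.us = {u} → q.Ok0 (FL G) u → (FL G).Cov u e →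
    CSol (FL G) (XL G) p (q.Ok (FL G)) M

variable (h : SV G) (hp : PS (FL G) (XL G) G.Pr p (PQ1 G P Vs pL pR)) (st : StC G p Vs pL pR)
include h hp st

/-- a solution of the disc that keeps the feet -/
theorem VC.csol (hd : VC G M d) (o : ∀ u ∈ M.us, (PQ1 G P Vs pL pR).Ok0 (FL G) u)
    (k : Sl (FL G) p ((PQ1 G P Vs pL pR).Ok (FL G)) M d ((PQ1 G P Vs pL pR).SU (FL G) M)
      (G.Vis M.s M.s')) : CSol (FL G) (XL G) p ((PQ1 G P Vs pL pR).Ok (FL G)) M :=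
  hp.csol h.lay hd.hM o (hd.cel h hp.pl st) (fun _ _ m => m) k

theorem VC.csol0 (hd : VC G M d) (o : ∀ u ∈ M.us, (PQ1 G P Vs pL pR).Ok0 (FL G) u)
    (hv : ∀ u ∈ M.us, ∀ e, (FL G).Cov u e → VisE G P Vs pL pR e)
    (k : Sl (FL G) p ((PQ1 G P Vs pL pR).Ok (FL G)) M d ((PQ1 G P Vs pL pR).SU (FL G) M) ∅) :
    CSol (FL G) (XL G) p ((PQ1 G P Vs pL pR).Ok (FL G)) M :=
  hd.csol h hp st o (k.mono subset_rfl fun _ m => Or.inr (hd.vis h (fun u a => (o u a).nv) hv m))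

/-- The colouring: every top edge is ordinary or a translate of it is special. -/
theorem SV.master [Fintype J] (hφ : FK.PH (FL G) G.Pr φ)
    (bar : ∀ y ∈ G.LA, ∃ n, φ^[n] y ∈ (PQ1 G P Vs pL pR).St (FL G))
    (top : ∀ e ∈ G.LA, ((PQ1 G P Vs pL pR).Od (FL G) p e ∧ VisE G P Vs pL pR e) ∨
      ∃ a, Spc G p (PQ1 G P Vs pL pR) (tr a e)) : ∃ c, Col1 G.Γ ∅ c := by
  have hF := h.lay
  refine PS.master (F := FL G) hF hp hφ bar fun M hM o => ?_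
  obtain ⟨u, hu⟩ := one_unit hF hM fun _ _ => h.pr _
  have mu : u ∈ M.us := hu ▸ rfl
  have vu := (hM.val u mu).1
  by_cases c : ∃ e, (FL G).Cov u e ∧ ∃ a, Spc G p (PQ1 G P Vs pL pR) (tr a e)
  · obtain ⟨e, c, a, k⟩ := c
    have hM' := hF.mval_tr a hM
    have us : (M.act a).us = {u.act a} := by rw [MU.act, hu, Set.image_singleton]
    have o' := (hp.act hF a vu).1 (o u mu)
    obtain ⟨d, hd⟩ := h.vc (P := P) st hM' fun t ht => by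
      rw [us] at ht
      exact ht ▸ o'.nv
    have := csol_tr hF (hp.plan hF) (fun a u hu => (hp.act hF a hu).2) (-a) hM'
      (k _ d _ hd us o' ((hF.cov_tr a e vu).2 c))
    rwa [MU.act_act, add_neg_cancel, MU.act_zero] at this
  · have k := fun e (m : (FL G).Cov u e) => (top e (hF.la m.1)).resolve_right fun g => c ⟨e, m, g⟩
    obtain ⟨d, hd⟩ := h.vc (P := P) st hM fun t ht => (o t ht).nv
    refine hd.csol0 h hp st o (fun t ht e m => ?_) (hp.ord hF hM hu (o u mu) hd.mc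
      (hd.cel h hp.pl st).sub fun e m => (k e m).1)
    rw [hu] at ht
    exact (k e (ht ▸ m)).2

end Pool.Agent.P.MP_08fd93_co.FN
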