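import Pool.Agent.P.MP_08fd93_co.FN.N10
import Pool.Agent.P.MP_08fd93_co.FE.KR

/-! Integration: the basic cells of a frame with one-vertex stems and the special top edges. -/

set_option autoImplicit false

namespace Pool.Agent.P.MP_08fd93_co.FN

open OV PkPrtP FB FE FZ FU

variable {J : Type} {G : VD J} {j : ℤ} {s s' t t' e g k x : Vx J} {P Vs : Set (Vx J)}
  {pL pR : Prop} {p : PD J} {M : MU J} {d : DD (Vx J)} {u : Un J} {φ : Vx J → Vx J}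
  {f f' : Sym2 (Vx J)}

theorem sv_of {Γ : SimpleGraph (Vx J)} {η : ℤ × ℤ →+ ℤ} {f : Vx J → ℤ} {v : Vx J}
    {an : Vx J → Vx J} (H : Fr1 Γ η f v an G) (R : FR.RH Γ η v f)
    (E : FR.Spike Γ η v ∨ FR.Ear Γ η v) : SV G :=
  ⟨H.vf, H.pr, H.eT, H.eV, H.eb, fun k hk k' hk' _ a b =>
    k_uniq R ((H.eK k).1 hk) ((H.eK k').1 hk') (H.eΓ ▸ a) (H.eΓ ▸ b), fun k hk => by
      rcases E with E | E
      · rw [H.spike R E hk]
        omega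
      · exact (H.ear R E hk).1.le⟩

theorem z_iff {W : Type} {H : SimpleGraph W} {d : DD W} (D : Disc H d) {z : W} :
    z ∈ d.Z ↔ z ∉ d.X ∧ z ∉ d.Y ∧ z ∉ d.I :=
  ⟨fun k => ⟨fun m => D.xz m k, fun m => D.yz m k, Z_I k⟩, fun k => by
    rcases d.cases z with m | m | m | m
    exacts [m, absurd m k.1, absurd m k.2.1, absurd m k.2.2]⟩

/-- The macro cell under the edge `e`. -/
def Mb (G : VD J) (e : Vx J) : MU J := ⟨e, G.nx e, {Tv (FL G) e}⟩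

/-- The basic disc under the edge `e`. -/
noncomputable def Bc (G : VD J) (e : Vx J) : DD (Vx J) := vcell G e (G.nx e)

theorem mb_c1 (he : e ∈ G.LA) : C1 (FL G) (Mb G e) e := ⟨he, rfl, rfl, rfl⟩

theorem SV.mb (h : SV G) (he : e ∈ G.LA) : MVal (FL G) (XL G) G.Pr (Mb G e) := by
  obtain ⟨n1, n2, -⟩ := h.vf.toRows.nx_mem he
  have l : G.ρ e ≤ G.ρ (G.nx e) := by omega
  refine ⟨he, n1, h.pr _, h.pr _, show G.ρ e < G.ρ (G.nx e) by omega, ?_, fun y hy m => ?_, ?_, ?_,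
    ?_, ?_⟩
  · rintro _ rfl
    exact ⟨h.lay.tv_val he, ⟨he, le_rfl, l⟩, n1, l, le_rfl⟩
  · exact ⟨_, rfl, hy.1, hy.2.1, m⟩
  · rintro _ rfl _ rfl _ _ _
    rfl
  · rintro _ rfl _ rfl n
    exact absurd rfl n
  · rintro _ rfl _
    rfl
  · rintro _ rfl
    exact ⟨fun _ k => k.elim, fun n => absurd rfl n⟩

theorem SV.nov1 (h : SV G) (he : e ∈ G.LA) : G.NoV e (G.nx e) := by
  obtain ⟨n1, n2, -⟩ := h.vf.toRows.nx_mem he
  exact h.vf.nov he n1 fun _ _ _ _ _ _ => by omega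

theorem SV.bc_I (h : SV G) (he : e ∈ G.LA) : (Bc G e).I = G.In e (G.nx e) :=
  h.vf.vcell_I he (h.pr _) (h.vf.toRows.nx_mem he).1 (h.pr _)

theorem SV.bc_Y (h : SV G) (he : e ∈ G.LA) : x ∈ (Bc G e).Y ↔ x = e ∨ x = G.nx e := by
  have R := h.vf.toRows
  obtain ⟨n1, n2, -⟩ := R.nx_mem he
  constructor
  · rintro ⟨a, b, c⟩
    by_cases m : G.ρ x = G.ρ e
    exacts [Or.inl (R.inj a he m), Or.inr (R.inj a n1 (by omega))]
  · rintro (rfl | rfl)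
    exacts [⟨he, le_rfl, by omega⟩, ⟨n1, by omega, le_rfl⟩]

/-- the basic disc is a disc of the basic cell -/
theorem SV.vcb (h : SV G) (he : e ∈ G.LA) : VC G (Mb G e) (Bc G e) := by
  obtain ⟨n1, n2, -⟩ := h.vf.toRows.nx_mem he
  obtain ⟨d, a, b, c, c', r, -⟩ := h.vf.mc h.fts (h.mb he) (h.nov1 he)
  have D := (h.vf.scell he (h.pr _) n1 (h.pr _) (by omega) (h.nov1 he)).disc
  have pk : (Mb G e).Pk = ∅ := Set.eq_empty_of_forall_notMem (by rintro _ ⟨_, rfl, k⟩; exact k)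
  have eI : (Bc G e).I = d.I := by rw [r, pk, Set.empty_union, h.bc_I he]; rfl
  have eY : (Bc G e).Y = (Mb G e).T := by
    ext z
    rw [h.bc_Y he]
    constructor
    · rintro (rfl | rfl)
      exacts [⟨_, rfl, Or.inl rfl⟩, ⟨_, rfl, Or.inr (Or.inr rfl)⟩]
    · rintro ⟨_, rfl, m | m | m⟩
      exacts [Or.inl m, Or.inl m, Or.inr m]
  have eX : (Bc G e).X = d.X := b.symm
  have eZ : (Bc G e).Z = d.Z := by
    ext z
    rw [z_iff a.disc, ← eX, a.eY, ← eY, ← eI]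
    exact z_iff D
  refine ⟨h.mb he, ⟨D, eY, eI ▸ a.eI, eZ ▸ a.rz, eX ▸ a.sub, eX ▸ a.cvx, fun v _ n => ord_old n,
    fun v hv n n1 n2 => eZ ▸ a.hid v (eX ▸ hv) n (c ▸ n1) (c' ▸ n2), rfl, rfl, ?_⟩, h.nov1 he, rfl,
    rfl, rfl, eI.trans r, fun _ _ => rfl⟩
  rintro _ rfl
  exact ⟨ord_old (h.vf.l_nk he), ord_old (h.vf.l_nk n1), fun n => absurd rfl n⟩

theorem SV.bc_disc (h : SV G) (he : e ∈ G.LA) : Disc G.Γ (Bc G e) := (h.vcb he).mc.disc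

theorem SV.bc_st (h : SV G) (he : e ∈ G.LA) : G.Γ.Adj (Bc G e).a' (Bc G e).b' :=
  (h.vf.toRows.nx_mem he).2.2

/-! ### The strict edges in terms of the map `φ` -/

/-- The edge between the two feet of a stem. -/
def Chord (G : VD J) (g : Vx J) : Prop := ∃ k ∈ G.K, g = G.xl k ∧ G.xl k ≠ G.xr k

theorem SV.kid (h : SV G) (hk : k ∈ G.K) : G.ch k ∈ G.L (G.f k) ∧ G.an (G.ch k) = k :=
  ⟨(h.vf.kc k hk).1, h.t_mem (h.vf.kc k hk).2.2⟩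

theorem SV.und_iff (h : SV G) (hφ : FK.PH (FL G) G.Pr φ) (he : e ∈ G.LA) (hg : g ∈ G.LA) :
    s(g, G.nx g) ∈ PE G.Γ (G.Bt e (G.nx e)) ↔ φ g = e ∧ ¬ Chord G g := by
  have R := h.vf.toRows
  obtain ⟨n1, n2, -⟩ := R.nx_mem he
  obtain ⟨m1, m2, m3⟩ := R.nx_mem hg
  have f1 := h.vf.feet he (h.pr _)
  rw [mem_PE]
  constructor
  · rintro ⟨a, b, -⟩
    obtain ⟨a1, a2, -⟩ := h.vf.bt_line he (h.pr _) n1 (h.pr _) (by omega) a (h.vf.l_nk hg)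
    obtain ⟨-, -, b3⟩ := h.vf.bt_line he (h.pr _) n1 (h.pr _) (by omega) b (h.vf.l_nk m1)
    have lv : G.f g + 1 = G.f e := by rw [R.uw.lf _ _ a1, sub_add_cancel]
    refine ⟨(hφ.uni g hg e ⟨?_, h.pr _, f1.2.2.trans a2, fun t ht _ l => ?_⟩).symm, ?_⟩
    · show e ∈ G.L (G.f g + 1)
      rwa [lv]
    · have ht : t ∈ G.L (G.f e) := lv ▸ ht
      have l : G.ρ e < G.ρ t := l
      have := (h.vf.mono' n1 (h.pr _) ht (h.pr _) (by omega)).1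
      show G.ρ g < G.ρ (G.xl (G.an t))
      omega
    · rintro ⟨k, hk, rfl, ne⟩
      obtain ⟨c1, c2⟩ := h.kid hk
      obtain ⟨g1, g2, g3⟩ := h.foot hk
      have fk : G.f k = G.f e := by
        have := R.uw.lf _ _ g1.1
        omega
      rw [fk] at c1 g1 g2 g3
      have l := lt_of_le_of_ne (g3 _ g2.1 g2.2).1 fun c => ne (R.inj g1.1 g2.1 c)
      by_cases c : G.ρ (G.ch k) ≤ G.ρ e
      · have := (h.vf.mono' c1 (h.pr _) he (h.pr _) c).2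
        rw [c2] at this
        omega
      · have := (h.vf.mono' n1 (h.pr _) c1 (h.pr _) (by omega)).1
        rw [c2] at this
        omega
  · rintro ⟨rfl, nc⟩
    obtain ⟨u1, -, u3, u4⟩ := hφ.und g hg
    have lv : G.f (φ g) = G.f g + 1 := R.uw.lf _ _ u1
    have u3 : G.ρ (G.xl (G.an (φ g))) ≤ G.ρ g := u3
    have u5 : G.ρ g < G.ρ (G.xl (G.an (G.nx (φ g)))) :=
      u4 (G.nx (φ g)) (show _ ∈ G.L (G.f g + 1) from lv ▸ n1) (h.pr _)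
        (show G.ρ (φ g) < G.ρ (G.nx (φ g)) by omega)
    have gl : g ∈ G.L (G.f (φ g) - 1) := by rwa [lv, add_sub_cancel_right]
    have ml : G.nx g ∈ G.L (G.f (φ g) - 1) := by rwa [lv, add_sub_cancel_right]
    have ne : G.an (φ g) ≠ G.an (G.nx (φ g)) := fun c => by
      rw [← c] at u5
      omega
    have u6 : G.ρ (G.xr (G.an (φ g))) ≤ G.ρ g := by
      by_cases c : G.an (φ g) ∈ G.K
      · by_contra l
        have := h.sh _ c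
        exact nc ⟨_, c, R.inj gl f1.1 (by omega), fun r => by rw [r] at u3; omega⟩
      · rw [(h.vf.xo _ c).2]
        rwa [(h.vf.xo _ c).1] at u3
    exact ⟨h.bt_of he ne gl u6 u5.le, h.bt_of he ne ml (by omega) (by omega), m3⟩

/-- the strict edges under `e` -/
theorem SV.ss_iff (h : SV G) (hφ : FK.PH (FL G) G.Pr φ) (he : e ∈ G.LA) :
    f ∈ SS G P pL pR e ↔ (∃ g ∈ P, g ∈ G.LA ∧ φ g = e ∧ ¬ Chord G g ∧ f = s(g, G.nx g)) ∨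
      (pL ∧ IsL G e ∧ f = s(G.an (G.nx e), G.xl (G.an (G.nx e)))) ∨
      (pR ∧ IsR G e ∧ f = s(G.an e, G.xr (G.an e))) := by
  constructor
  · rintro ⟨a, ⟨g, g1, g2, rfl⟩ | ⟨r, m, rfl⟩ | ⟨r, m, rfl⟩⟩
    · have := (h.und_iff hφ he g2).1 a
      exact Or.inl ⟨g, g1, g2, this.1, this.2, rfl⟩
    · have := mem_PE.1 a
      exact Or.inr (Or.inl ⟨r, ⟨he, m, bt_ne this.1 this.2.1 this.2.2.ne⟩, rfl⟩)
    · have := mem_PE.1 a
      exact Or.inr (Or.inr ⟨r, ⟨he, m, (bt_ne this.1 this.2.1 this.2.2.ne).symm⟩, rfl⟩)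
  · rintro (⟨g, g1, g2, g3, g4, rfl⟩ | ⟨r, i, rfl⟩ | ⟨r, i, rfl⟩)
    exacts [⟨(h.und_iff hφ he g2).2 ⟨g3, g4⟩, Or.inl ⟨g, g1, g2, rfl⟩⟩, h.ssL i r, h.ssR i r]

theorem SV.ss_sub (h : SV G) (hφ : FK.PH (FL G) G.Pr φ) (he : e ∈ G.LA) {T : Set (Sym2 (Vx J))}
    (h1 : ∀ g ∈ P, g ∈ G.LA → φ g = e → ¬ Chord G g → s(g, G.nx g) ∈ T)
    (h2 : pL → IsL G e → s(G.an (G.nx e), G.xl (G.an (G.nx e))) ∈ T)
    (h3 : pR → IsR G e → s(G.an e, G.xr (G.an e)) ∈ T) : SS G P pL pR e ⊆ T := fun _ m => by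
  rcases (h.ss_iff hφ he).1 m with ⟨g, g1, g2, g3, g4, rfl⟩ | ⟨r, i, rfl⟩ | ⟨r, i, rfl⟩
  exacts [h1 g g1 g2 g3 g4, h2 r i, h3 r i]

theorem od1_none (k : SS G P pL pR e ⊆ ∅) : (PQ1 G P Vs pL pR).Od (FL G) p e :=
  ⟨fun _ m => (k m).elim, fun ⟨_, m⟩ => (k m).elim⟩

theorem od1_one (k : SS G P pL pR e ⊆ {f}) (pd : p.Dn (FL G) e) :
    (PQ1 G P Vs pL pR).Od (FL G) p e :=
  ⟨fun _ a _ b => (k a).trans (k b).symm, fun _ => ⟨pd, fun m => m⟩⟩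

theorem st1 : e ∈ (PQ1 G P Vs pL pR).St (FL G) ↔ e ∈ P ∨ (e ∈ Vs ∧ G.nx e ∈ Vs) :=
  or_congr_left (and_iff_left fun k => k)

theorem SV.ps1 (h : SV G) (pl : Plan0 (FL G) (XL G) p) (gtr : ∀ a x, tr a x ∈ P ↔ x ∈ P)
    (vtr : ∀ a x, tr a x ∈ Vs ↔ x ∈ Vs) (up : ∀ y ∈ G.LA, y ∉ P → p.Up (FL G) y)
    (vis : ∀ v ∈ Vs, v ∈ G.LA → (∃ g ∈ P, g ∈ G.LA ∧ (v = g ∨ v = G.nx g)) ∨
      (∃ t ∈ Vs, t ∈ G.LA ∧ G.xl (G.an t) = v) ∨ ∃ k ∈ G.K, G.f k = G.f v + 1 ∧ G.Γ.Adj v k)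
    (row : ∀ j, ∃ t ∈ G.L j, t ∈ Vs) : PS (FL G) (XL G) G.Pr p (PQ1 G P Vs pL pR) :=
  ⟨pl, gtr, vtr, fun _ _ => Iff.rfl, fun _ _ k => k, up, fun _ _ k => k.elim,
    fun v a b => (vis v a b).imp_right (Or.imp (fun ⟨t, c, d, e⟩ => ⟨t, c, d, h.pr t, e⟩)
      fun ⟨k, c, d, e⟩ => ⟨k, c, (h.vf.k_st c d).1, e⟩),
    fun j => let ⟨t, a, b⟩ := row j; ⟨t, a, h.pr t, b⟩,
    fun _ _ b => b.elim (absurd (h.pr _)) (absurd (h.pr _))⟩

/-! ### The two side edges of a stem -/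

theorem SV.side_ex (h : SV G) (hk : k ∈ G.K) : (∃ e ∈ G.L (G.f k), IsR G e ∧ G.an e = k) ∧
    ∃ e ∈ G.L (G.f k), IsL G e ∧ G.an (G.nx e) = k := by
  obtain ⟨c1, c2⟩ := h.kid hk
  have R := h.vf.toRows
  constructor
  · obtain ⟨t, t1, -, t2, t3⟩ := h.vf.far_hi (G.f k) (max (G.ρ (G.ch k)) (G.ρ (G.xl k)))
    obtain ⟨⟨x, x1, -, -, x4, x5⟩, -⟩ := h.last c1 t1 (by omega) fun r => by
      rw [← r, c2] at t3
      omega
    rw [c2] at x4 x5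
    exact ⟨x, x1, ⟨R.la x1, x4 ▸ hk, x4 ▸ x5⟩, x4⟩
  · obtain ⟨t, t1, -, t2, t3⟩ := h.vf.far_lo (G.f k) (min (G.ρ (G.ch k)) (G.ρ (G.xr k)))
    obtain ⟨-, x, x1, -, -, x4, x5⟩ := h.last t1 c1 (by omega) fun r => by
      rw [r, c2] at t3
      omega
    rw [c2] at x4 x5
    exact ⟨x, x1, ⟨R.la x1, x5 ▸ hk, x5 ▸ x4⟩, x5⟩

/-- children lie before the right side edge -/
theorem SV.isR_ge (h : SV G) (i : IsR G e) (ht : t ∈ G.LA) (r : G.an t = G.an e) :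
    t ∈ G.L (G.f e) ∧ G.ρ t ≤ G.ρ e := by
  obtain ⟨n1, n2, -⟩ := h.vf.toRows.nx_mem i.1
  have l : t ∈ G.L (G.f e) := by
    rwa [← (h.vf.an_v i.1 (h.pr _) i.2.1).2, ← r, (h.vf.an_v ht (h.pr _) (r ▸ i.2.1)).2]
  refine ⟨l, ?_⟩
  by_contra c
  exact i.2.2 (h.vf.btw i.1 (h.pr _) n1 (h.pr _) l (h.pr _) (by omega) (by omega) r.symm i.2.1)

theorem SV.isL_le (h : SV G) (i : IsL G e) (ht : t ∈ G.LA) (r : G.an t = G.an (G.nx e)) :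
    t ∈ G.L (G.f e) ∧ G.ρ e < G.ρ t := by
  obtain ⟨n1, n2, -⟩ := h.vf.toRows.nx_mem i.1
  have l : t ∈ G.L (G.f e) := by
    rwa [← (h.vf.an_v n1 (h.pr _) i.2.1).2, ← r, (h.vf.an_v ht (h.pr _) (r ▸ i.2.1)).2]
  refine ⟨l, ?_⟩
  by_contra c
  exact i.2.2 ((h.vf.btw l (h.pr _) i.1 (h.pr _) n1 (h.pr _) (by omega) (by omega) r
    (r ▸ i.2.1)).trans r)

theorem SV.isR_uni (h : SV G) (i : IsR G e) (i' : IsR G t) (r : G.an t = G.an e) : t = e := by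
  have a := h.isR_ge i i'.1 r
  exact h.vf.toRows.inj a.1 i.1 (le_antisymm a.2 (h.isR_ge i' i.1 r.symm).2)

theorem SV.isL_uni (h : SV G) (i : IsL G e) (i' : IsL G t) (r : G.an (G.nx t) = G.an (G.nx e)) :
    t = e := by
  have R := h.vf.toRows
  obtain ⟨n1, n2, -⟩ := R.nx_mem i.1
  obtain ⟨m1, m2, -⟩ := R.nx_mem i'.1
  have a := h.isL_le i (R.la m1) r
  have b := h.isL_le i' (R.la n1) r.symm
  have l : t ∈ G.L (G.f e) := by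
    rw [← R.uw.lf _ _ a.1, R.uw.lf _ _ m1]
    exact i'.1
  exact R.inj l i.1 (by omega)

theorem SV.isR_tr (h : SV G) (a : ℤ × ℤ) (i : IsR G e) : IsR G (tr a e) := by
  refine ⟨(h.lay.la_tr a e).2 i.1, by rw [h.vf.atr]; exact h.vf.ktr a _ i.2.1, ?_⟩
  rw [show G.nx (tr a e) = tr a (G.nx e) from h.lay.nx_tr a i.1, h.vf.atr, h.vf.atr]
  exact fun c => i.2.2 (tr_inj a c)

theorem SV.isL_tr (h : SV G) (a : ℤ × ℤ) (i : IsL G e) : IsL G (tr a e) := by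
  refine ⟨(h.lay.la_tr a e).2 i.1, ?_⟩
  rw [show G.nx (tr a e) = tr a (G.nx e) from h.lay.nx_tr a i.1, h.vf.atr, h.vf.atr]
  exact ⟨h.vf.ktr a _ i.2.1, fun c => i.2.2 (tr_inj a c)⟩

/-- edges right of the right foot lie under the right side edge or further right -/
theorem SV.isR_phi (h : SV G) (hφ : FK.PH (FL G) G.Pr φ) (i : IsR G e) (hg : g ∈ G.L (G.f e - 1))
    (l : G.ρ (G.xl (G.an e)) ≤ G.ρ g) : G.ρ e ≤ G.ρ (φ g) := by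
  by_contra c
  have R := h.vf.toRows
  have := (hφ.und g (R.la hg)).2.2.2 e (show e ∈ G.L (G.f g + 1) by
    rw [R.uw.lf _ _ hg, sub_add_cancel]; exact i.1) (h.pr _) (not_le.1 c)
  exact absurd l (not_le.2 this)

/-- edges left of the left foot lie under the left side edge or further left -/
theorem SV.isL_phi (h : SV G) (hφ : FK.PH (FL G) G.Pr φ) (i : IsL G e) (hg : g ∈ G.L (G.f e - 1))
    (l : G.ρ g < G.ρ (G.xl (G.an (G.nx e)))) : G.ρ (φ g) ≤ G.ρ e := by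
  by_contra c
  have R := h.vf.toRows
  obtain ⟨n1, n2, -⟩ := R.nx_mem i.1
  obtain ⟨u1, -, u3, -⟩ := hφ.und g (R.la hg)
  have u1 : φ g ∈ G.L (G.f e) := by
    rwa [show (FL G).f g = G.f e - 1 from R.uw.lf _ _ hg, sub_add_cancel] at u1
  have := (h.vf.mono' n1 (h.pr _) u1 (h.pr _) (by omega)).1
  have u3 : G.ρ (G.xl (G.an (φ g))) ≤ G.ρ g := u3
  omega

end Pool.Agent.P.MP_08fd93_co.FN
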