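import Pool.Agent.P.MP_08fd93_co.FN.D1
import Pool.Agent.P.MP_08fd93_co.FT.T4

/-! Tails with a strong side: the plans with an edge of the row zero that is not good. -/

set_option autoImplicit false

namespace Pool.Agent.P.MP_08fd93_co.FN

open OV FB FP2 TT FZ FK

variable {J : Type} {G : TD J} {φ : Vx J → Vx J} {v z la lb lc ld s t x g y : Vx J} {D : Set J}
  {Q : Prop} {b : ℤ × ℤ} {E : EJ J} {j : ℤ}

theorem pig4 {a0 a1 a2 a3 x y g : J} (n01 : a0 ≠ a1) (n02 : a0 ≠ a2) (n03 : a0 ≠ a3)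
    (n12 : a1 ≠ a2) (n13 : a1 ≠ a3) (n23 : a2 ≠ a3) (c0 : a0 ≠ x → a0 ≠ y → a0 = g)
    (c1 : a1 ≠ x → a1 ≠ y → a1 = g) (c2 : a2 ≠ x → a2 ≠ y → a2 = g)
    (c3 : a3 ≠ x → a3 ≠ y → a3 = g) : False := by
  have k : ∀ {a : J}, (a ≠ x → a ≠ y → a = g) → a = x ∨ a = y ∨ a = g := fun c => by tauto
  have := k c0
  have := k c1
  have := k c2
  have := k c3
  grind

section

variable (h : TQ G v z la lb lc ld)
include h

theorem off3 (j : ℤ) (x y g : Vx J) : ∃ u ∈ G.L j, u.1 ≠ x.1 ∧ u.1 ≠ y.1 ∧ u.1 ≠ g.1 := by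
  have a : 4 ≤ (FT G).nn j := h.n4 j
  have hF := h.st.lay
  have n01 := l_ne hF j (i := 0) (i' := 1) (by omega) (by omega)
  have n02 := l_ne hF j (i := 0) (i' := 2) (by omega) (by omega)
  have n03 := l_ne hF j (i := 0) (i' := 3) (by omega) (by omega)
  have n12 := l_ne hF j (i := 1) (i' := 2) (by omega) (by omega)
  have n13 := l_ne hF j (i := 1) (i' := 3) (by omega) (by omega)
  have n23 := l_ne hF j (i := 2) (i' := 3) (by omega) (by omega)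
  by_contra c
  simp only [not_exists, not_and, not_not] at c
  exact pig4 n01 n02 n03 n12 n13 n23 (c _ (hF.l_mem j 0)) (c _ (hF.l_mem j 1))
    (c _ (hF.l_mem j 2)) (c _ (hF.l_mem j 3))

theorem chd_pin {S : Set J} (k : FA.Pin (FT G) E 0 S) (n : ∀ y ∈ G.L 0, y.1 ∈ S → ¬ Chd G y) :
    G.xl z ≠ G.xr z → (G.xl z).1 ∉ E.Pn := fun m c =>
  n _ h.feet.1.1 (k _ h.feet.1.1 c) (h.chd_iff.2 ⟨m, rfl⟩)

theorem it_row (hφ : PH (FT G) G.Pr φ) (hx : x ∈ G.L j) (n : ℕ) : φ^[n] x ∈ G.L (j + n) := by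
  induction n with
  | zero => simpa using hx
  | succ n ih =>
    have := hφ.mem (h.rows.la ih)
    rwa [show (FT G).f _ = _ from h.rows.uw.lf _ _ ih, add_assoc, ← Nat.cast_succ,
      ← Function.iterate_succ_apply' φ] at this

variable (hφ : PH (FT G) G.Pr φ) (C : Cert G φ s t D Q)
include hφ C

/-- a system of flows with the right rows zero and one is a plan -/
theorem Cert.tk (hx : x ∈ G.L 0) (xD : x.1 ∈ D)
    (S : Sy (FT G) (Ar (FT G) φ (TB.K1 G φ)) E (RowO (FT G) 1))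
    (nc : G.xl z ≠ G.xr z → (G.xl z).1 ∉ E.Pn) (sp : s.1 ∈ E.Pn)
    (k : (FA.Pin (FT G) E 0 {x.1} ∧ t.1 ∈ E.Sk ∧
        (t.1 ∈ E.Ps ∨ (Nw G φ E t ∧ (Q → x.1 = (φ t).1)))) ∨
      ∃ g ∈ G.L 0, g.1 ∉ D ∧ ¬ Chd G g ∧ FA.Pin (FT G) E 0 {x.1, g.1} ∧ (φ g).1 ∈ E.Sk ∧
        t.1 ∈ E.Ps) : ∃ Y, TK G φ z E Y := by
  obtain ⟨fl, jv, a, d, b', c', r⟩ := C.row x hx xD
  obtain ⟨a1, b1, c1, d1, -⟩ := h.ord
  exact ⟨_, TB.tk_of (jz := .no) h hφ S nc (fun _ => ⟨la, a1, rfl⟩) (fun _ => ⟨lb, b1, rfl⟩)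
    (fun _ => ⟨lc, c1, rfl⟩) (fun _ => ⟨ld, d1, rfl⟩) (Or.inl a) (b'.imp_right Or.inl)
    (c'.imp_right Or.inl) (Or.inl d) (fun _ => ⟨nofun, nofun, fun o => o.elim nofun nofun⟩)
    (keepL_a a) (keepR_d d) (r E _ rfl rfl sp k)⟩

end

section

variable (h : TQ G v z la lb lc ld) (H : FA.LB (FT G) (XT G) G.Pr φ b) (C : Cert G φ s t D Q)
include h H C

/-- one flow: the chain above `t` meets the chord -/
theorem Cert.one (hx : x ∈ G.L 0) (xD : x.1 ∈ D) (nq : ¬ Q) (nw : ∃ n, Chd G (φ^[n] t))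
    (q2 : G.η b = 2 → (φ s).1 ≠ x.1) (q4 : G.η b ≠ 2 → ∃ y ∈ G.L (-1), ∃ y' ∈ G.L (-1),
      y.1 ≠ y'.1 ∧ (φ y).1 ≠ x.1 ∧ (φ y').1 ≠ x.1) : ∃ E Y, TK G φ z E Y := by
  obtain ⟨E, t0, -, -, -, a0, a1, S⟩ := sy_one (K := TB.K1 G φ) H hx C.hs
    (H.rw1 C.hs ⟨t, C.ht, rfl⟩ C.ne) (FA.r1_pn s t).subset (fun c => Or.inl (q2 c)) fun c =>
      let ⟨y, a, y', a', n, n1, n2⟩ := q4 c
      ⟨y, a, y', a', n, Or.inl n1, Or.inl n2⟩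
  have p0 : FA.Pin (FT G) E 0 {x.1} := FA.r1_pn x t0 ▸ a0.pin
  exact ⟨E, C.tk h H.ph hx xD S (chd_pin h p0 fun y hy m => C.nc y hy (m ▸ xD))
    (Or.inl ((a1 s C.hs).1.2 rfl)) (Or.inl ⟨p0, (a1 t C.ht).2.1.2 rfl, Or.inr
      ⟨Or.inl (nw.imp fun _ m => sta_pin (pin_chd m)), fun c => absurd c nq⟩⟩)⟩

omit H in
/-- a valid pair on the row zero with exactly one good member -/
theorem Cert.pick (hg : g ∈ G.L 0) (gD : g.1 ∉ D) (gc : ¬ Chd G g) {d d' : Vx J}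
    (n : ¬ Chd G d ∨ ¬ Chd G d') : ∃ p u, ∃ r ∈ G.L 0, FA.Pair d d' r p u ∧
      ¬ Chd G p ∧ ¬ Chd G r ∧ ¬ (p.1 ∈ D ↔ r.1 ∈ D) := by
  obtain ⟨x, hx, xD⟩ := C.dn
  have xc := C.nc x hx xD
  have key : ∀ p u : Vx J, ¬ Chd G p → (Chd G u ∨ (p.1 ∈ D ↔ u.1 ∈ D)) →
      ∃ r ∈ G.L 0, r.1 ≠ p.1 ∧ r.1 ≠ u.1 ∧ ¬ Chd G r ∧ ¬ (p.1 ∈ D ↔ r.1 ∈ D) := fun p u _ k => by
    by_cases c : p.1 ∈ D
    · exact ⟨g, hg, fun o => gD (o ▸ c), fun o => k.elim (fun m => gc (chd_orb h.st m o))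
        fun m => gD (o ▸ m.1 c), gc, fun m => gD (m.1 c)⟩
    · exact ⟨x, hx, fun o => c (o ▸ xD), fun o => k.elim (fun m => xc (chd_orb h.st m o))
        fun m => c (m.2 (o ▸ xD)), xc, fun m => c (m.2 xD)⟩
  by_cases c : Chd G d
  · obtain ⟨r, r1, r2, r3, r4⟩ := key d' d (n.resolve_left (not_not.2 c)) (Or.inl c)
    exact ⟨d', d, r, r1, ⟨Or.inr ⟨rfl, rfl⟩, r2, r3⟩, n.resolve_left (not_not.2 c), r4⟩
  by_cases c' : Chd G d' ∨ (d.1 ∈ D ↔ d'.1 ∈ D)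
  · obtain ⟨r, r1, r2, r3, r4⟩ := key d d' c c'
    exact ⟨d, d', r, r1, ⟨Or.inl ⟨rfl, rfl⟩, r2, r3⟩, c, r4⟩
  obtain ⟨c1, c2⟩ := not_or.1 c'
  obtain ⟨r, r1, r2, r3, r4⟩ := off3 h 0 d d' (G.xl z)
  have rc : ¬ Chd G r := fun m => r4 (h.chd_iff.1 m).2
  by_cases c3 : d.1 ∈ D ↔ r.1 ∈ D
  · exact ⟨d', d, r, r1, ⟨Or.inr ⟨rfl, rfl⟩, r3, r2⟩, c1, rc, fun m => c2 (c3.trans m.symm)⟩
  · exact ⟨d, d', r, r1, ⟨Or.inl ⟨rfl, rfl⟩, r2, r3⟩, c, rc, c3⟩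

/-- two flows from `s` and `t` -/
theorem Cert.two (hg : g ∈ G.L 0) (gD : g.1 ∉ D) (gc : ¬ Chd G g) {m : ℕ} (hm : G.η b = m + 2)
    (q2 : m = 0 → ¬ Chd G (φ s) ∨ ¬ Chd G (φ t))
    (q4 : m ≠ 0 → ∃ f ∈ G.L (m + 1 : ℕ), ¬ Chd G (φ f)) : ∃ E Y, TK G φ z E Y := by
  have hF := H.lay
  have hm' : (FT G).η b = (m + 1 : ℕ) + 1 := by
    push_cast
    exact hm.trans (by ring)
  obtain ⟨s', s1, p', p1, c, fin⟩ := sy_flow2 (K := TB.K1 G φ) H (k0 := 1) hm' (by omega)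
    (C := fun k s' p' => (k = 1 → s' = s ∧ p' = t) ∧
      (k = m + 1 → ¬ Chd G (φ s') ∨ ¬ Chd G (φ p'))) C.hs C.ht
    ⟨fun _ => ⟨rfl, rfl⟩, fun c => q2 (by omega)⟩ fun k k1 _ s' _ p' _ _ => by
      by_cases c : k = m
      · obtain ⟨f, f1, f2⟩ := q4 (by omega)
        obtain ⟨p, u, r, r1, r2, r3⟩ := H.pair_pin (φ s') (φ p') f1
        refine ⟨p, u, r, c ▸ r1, r2, fun q => by omega, fun _ => r3.imp ?_ ?_⟩ <;>
          exact fun o m => f2 (chd_orb h.st m (H.ph.fst (hF.la f1) o.symm))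
      · obtain ⟨r, r1, r2⟩ := H.pair_any (k + 1 : ℕ) (φ s') (φ p')
        exact ⟨_, _, r, r1, r2, fun q => by omega, fun q => by omega⟩
  obtain ⟨d, d1, d2⟩ := H.wrap hm' (by exact_mod_cast H.up s1)
  obtain ⟨d', d1', d2'⟩ := H.wrap hm' (by exact_mod_cast H.up p1)
  obtain ⟨p, u, r, r1, r2, pc, rc, k⟩ := C.pick h hg gD gc (d := d) (d' := d') ((c.2 rfl).imp
    (fun n o => n (chd_orb h.st o d2.symm)) fun n o => n (chd_orb h.st o d2'.symm))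
  obtain ⟨p1', u1⟩ := r2.mem (F := FT G) d1 d1'
  obtain ⟨x, hx, xD, y, hy, yD, yc, e⟩ : ∃ x ∈ G.L 0, x.1 ∈ D ∧ ∃ y ∈ G.L 0, y.1 ∉ D ∧ ¬ Chd G y ∧
      ({r.1, p.1} : Set J) = {x.1, y.1} := by
    by_cases o : p.1 ∈ D
    exacts [⟨p, p1', o, r, r1, fun o' => k (iff_of_true o o'), rc, Set.pair_comm _ _⟩,
      ⟨r, r1, by_contra fun o' => k (iff_of_false o o'), p, p1', o, pc, rfl⟩]
  have y1 : φ y ∈ G.L 1 := (h.phi H.ph hy).1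
  obtain ⟨E, a, -, -, S⟩ := fin (fun k => Nat.casesOn k (FA.r2 r p u) fun _ => FA.r2 s t (φ y))
    (RowO (FT G) 1) (by
      rintro (_ | _ | k) c
      exacts [H.rw2 r1 ⟨u, u1, rfl⟩ r2.2.2 r2.2.1,
        H.rw2 C.hs ⟨_, y1, rfl⟩ (C.off y hy yD yc).symm C.ne, by omega]) subset_rfl
    (by rintro (_ | k) c; exacts [lk_row, by omega])
    (lk_pair hF H.ph (hF.la s1) (hF.la p1) (r2.1.imp
      (fun o => ⟨o.1 ▸ d2, o.2 ▸ d2'⟩) fun o => ⟨o.1 ▸ d2', o.2 ▸ d2⟩))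
  have a0 := a 0 (Nat.zero_le _)
  have a1 := a 1 le_rfl
  have p0 : FA.Pin (FT G) E 0 {x.1, y.1} := e ▸ a0.pin
  exact ⟨E, C.tk h H.ph hx xD S (chd_pin h p0 fun w hw m => m.elim
      (fun m => C.nc w hw (m ▸ xD)) fun m o => yc (chd_orb h.st o m.symm))
    (Or.inl ((a1 s C.hs).1.2 rfl))
    (Or.inr ⟨y, hy, yD, yc, p0, (a1 _ y1).2.1.2 rfl, (a1 t C.ht).2.2.2 rfl⟩)⟩

/-- the plan with an edge that is not good -/
theorem Cert.px (hg : g ∈ G.L 0) (gD : g.1 ∉ D) (gc : ¬ Chd G g) : ∃ E Y, TK G φ z E Y := by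
  have b2 : 2 ≤ G.η b := H.b2
  obtain ⟨m, hm⟩ : ∃ m : ℕ, G.η b = m + 2 := ⟨(G.η b - 2).toNat, by omega⟩
  obtain ⟨x, hx, xD⟩ := C.dn
  have nx : ∀ y, Chd G y → y.1 ≠ x.1 := fun y m o => C.nc x hx xD (chd_orb h.st m o.symm)
  by_cases c : m = 0
  · by_cases k : ¬ Chd G (φ s) ∨ ¬ Chd G (φ t)
    · exact C.two h H hg gD gc hm (fun _ => k) fun o => absurd c o
    simp only [not_or, not_not] at k
    exact C.one h H hx xD (fun q => (C.hq q).2 k.2) ⟨1, k.2⟩ (fun _ => nx _ k.1)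
      fun o => absurd (by omega) o
  by_cases k : ∃ f ∈ G.L (m + 1 : ℕ), ¬ Chd G (φ f)
  · exact C.two h H hg gD gc hm (fun o => absurd o c) fun _ => k
  simp only [not_exists, not_and, not_not] at k
  have k' : ∀ y ∈ G.L (-1), (φ y).1 ≠ x.1 := fun y hy => by
    have := nx _ (k _ (H.last hm hy))
    rwa [H.ph.eqv _ _ (H.lay.la hy)] at this
  refine C.one h H hx xD (fun q => ?_) ⟨m + 1, ?_⟩ (fun o => by omega) fun _ => ?_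
  · obtain ⟨a, ha⟩ := (C.hq q).1
    have := Int.le_of_dvd (show 0 < (FT G).η a from ha ▸ two_pos) (H.bd a)
    have : G.η b ≤ G.η a := this
    omega
  · rw [Function.iterate_succ_apply']
    refine k _ ?_
    have := it_row h H.ph C.ht m
    rwa [add_comm] at this
  · obtain ⟨y, hy, -⟩ := off3 h (-1) x x x
    obtain ⟨y', hy', n, -⟩ := off3 h (-1) y y y
    exact ⟨y, hy, y', hy', n.symm, k' y hy, k' y' hy'⟩

end

theorem cx : S_CX := fun _ _ _ _ _ _ _ _ _ _ h _ hφ ⟨_, _, _, _, C, _, hg, gD, gc⟩ =>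
  let ⟨_, H⟩ := TB.tq_lb h hφ
  let ⟨_, _, k⟩ := C.px h H hg gD gc
  k.col h hφ

end Pool.Agent.P.MP_08fd93_co.FN
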