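import Pool.Agent.P.MP_08fd93_co.FT.T2
import Pool.Agent.P.MP_08fd93_co.FP.P0
import Pool.Agent.P.MP_08fd93_co.FK.K9

/-! Tails with a strong side: the certificate for the row one and the statements. -/

set_option autoImplicit false

namespace Pool.Agent.P.MP_08fd93_co.FN

open OV FB FP2 TT

variable {J : Type}

/-- All top edges of the row one are right for the pin `x` of the row zero: the edge `s` is pinned,
the edge `t` is paid. -/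
def Row1 (G : TD J) (φ : Vx J → Vx J) (s t : Vx J) (D : Set J) (Q : Prop) (x : Vx J) (fl : Fl) :
    Prop :=
  ∀ (E : FZ.EJ J) (Y : TX J), Y.x = fl → Y.jz = .no → s.1 ∈ E.Pn →
    ((FA.Pin (FT G) E 0 {x.1} ∧ t.1 ∈ E.Sk ∧
        (t.1 ∈ E.Ps ∨ (Nw G φ E t ∧ (Q → x.1 = (φ t).1)))) ∨
      ∃ g ∈ G.L 0, g.1 ∉ D ∧ ¬ Chd G g ∧ FA.Pin (FT G) E 0 {x.1, g.1} ∧ (φ g).1 ∈ E.Sk ∧
        t.1 ∈ E.Ps) → ∀ e ∈ G.LA, e.1 ∈ FK.RowO (FT G) 1 → Top G φ E Y e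

/-- The strong edge `s`, the weak edge `t` and the good pins `D` of the row zero. -/
structure Cert (G : TD J) (φ : Vx J → Vx J) (s t : Vx J) (D : Set J) (Q : Prop) : Prop where
  hs : s ∈ G.L 1
  ht : t ∈ G.L 1
  ne : s.1 ≠ t.1
  dn : ∃ x ∈ G.L 0, x.1 ∈ D
  nc : ∀ x ∈ G.L 0, x.1 ∈ D → ¬ Chd G x
  off : ∀ g ∈ G.L 0, g.1 ∉ D → ¬ Chd G g → (φ g).1 ≠ s.1
  arr : ∀ g ∈ G.L 0, g.1 ∈ D ∨ Chd G g → (φ g).1 = s.1 ∨ (φ g).1 = t.1
  hq : Q → (∃ b, G.η b = 2) ∧ ¬ Chd G (φ t)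
  row : ∀ x ∈ G.L 0, x.1 ∈ D → ∃ (fl : Fl) (jv : Jb), fl.a ∧ fl.d ∧ (fl.b ∨ jv = .b) ∧
    (fl.c ∨ jv = .c) ∧ Row1 G φ s t D Q x fl

/-- every edge of the row zero off the chord is good -/
def S_CS : Prop := FP.Md fun G φ _ _ _ _ _ _ => ∃ s t D Q, Cert G φ s t D Q ∧
  ∀ g ∈ G.L 0, g.1 ∈ D ∨ Chd G g

/-- some edge of the row zero off the chord is not good -/
def S_CX : Prop := FP.Md fun G φ _ _ _ _ _ _ => ∃ s t D Q, Cert G φ s t D Q ∧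
  ∃ g ∈ G.L 0, g.1 ∉ D ∧ ¬ Chd G g

/-- The neck sees both ends of the left top edge; the cell on the left contains an edge of the row
zero, or an inner vertex on the right sees the head and the last bottom vertex. -/
def S_TP : Prop := FP.Md fun G _ v z la _ _ ld => FP.TPL G v z la ∧ G.an ld = v ∧
  (G.ρ (G.an la) < G.ρ (G.xl z) ∨ (G.ρ (G.xr z) < G.ρ (G.an (G.nx ld)) ∧
    ∃ w ∈ (Bd G ld).I, G.Γ.Adj w v ∧ G.Γ.Adj w (G.an (G.nx ld))))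

end Pool.Agent.P.MP_08fd93_co.FN
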