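import Pool.Agent.P.MP_08fd93_co.FN.N5
import Pool.Agent.P.MP_08fd93_co.FB.C5

/-! Dynamic layer: from a one-sided output of a disc to the solution of a macro cell. -/

set_option autoImplicit false

namespace Pool.Agent.P.MP_08fd93_co.FN

open OV PkPrtP FB

variable {J : Type} {F : FD J} {X : XD J} {Pr : Set (Vx J)} {M : MU J} {d : DD (Vx J)}
  {o : OD (Vx J)} {S : Set (Sym2 (Vx J))} {V R : Set (Vx J)} {p : PD J} {Ok : Un J → Prop}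

/-- The edge named by `y` is monochromatic or paid above its row. -/
def PD.Up (p : PD J) (F : FD J) (y : Vx J) : Prop :=
  p.c (F.nx y).1 = p.c y.1 ∨ (p.R F y ∧ y.1 ∉ p.dn) ∨ (p.Lt F (F.nx y) ∧ (F.nx y).1 ∉ p.dn)

/-- The edge named by `y` is monochromatic or paid below its row. -/
def PD.Dn (p : PD J) (F : FD J) (y : Vx J) : Prop :=
  p.c (F.nx y).1 = p.c y.1 ∨ (p.R F y ∧ y.1 ∈ p.dn) ∨ (p.Lt F (F.nx y) ∧ (F.nx y).1 ∈ p.dn)

/-- The token of `v` is spare and named for the cell `M`. -/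
def PD.Sp0 (p : PD J) (F : FD J) (M : MU J) (v : Vx J) : Prop :=
  p.o v = v ∧ ∃ u ∈ M.us, F.Cov u (p.kc v)

/-- The free tokens of the top path. -/
def PD.AT (p : PD J) (F : FD J) (M : MU J) : Set (Vx J) :=
  {v | (∃ u ∈ M.us, u.x = u.s ∧ p.c u.s.1 ≠ p.c u.s'.1 ∧ p.In F u v ∧ v.1 ∈ p.dn) ∨
    (∃ u ∈ M.us, u.x ≠ u.s ∧ ((p.In F u v ∧ p.cx u ≠ p.c v.1) ∨
      (v = u.x ∧ p.cx u ≠ p.c u.s.1 ∧ p.cx u ≠ p.c u.s'.1))) ∨
    (p.Sp0 F M v ∧ ∃ u ∈ M.us, v = u.s ∨ v = u.s')}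

/-- The colouring follows the plan on the top path. -/
def PD.FolT (p : PD J) (M : MU J) (c : Vx J → Col) : Prop :=
  ∀ u ∈ M.us, c u.s = p.c u.s.1 ∧ c u.s' = p.c u.s'.1 ∧ (u.x ≠ u.s → c u.x = p.cx u)

/-- The conclusion that the master theorem asks from a macro cell. -/
def CSol (F : FD J) (X : XD J) (p : PD J) (Ok : Un J → Prop) (M : MU J) : Prop :=
  ∃ O, MO F X M O ∧ (∀ u ∈ O, Ok u) ∧ ((∀ u ∈ M.us, Ok u) → p.CX F X M O)

theorem AT_sub {O : Set (Un J)} : p.AT F M ⊆ p.Al F X M O := by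
  rintro v (h | h | h)
  exacts [Or.inl (Or.inr (Or.inl h)), Or.inl (Or.inr (Or.inr h)),
    Or.inr ⟨h.1.1, h.1.2, Or.inr (Or.inr h.2)⟩]

/-- solutions can be translated -/
theorem csol_tr (hF : Lay F X Pr) (hp : Plan F X p Ok)
    (i1 : ∀ a u, Val F ∅ u → Ok u → Ok (u.act a)) (a : ℤ × ℤ) (hM : MVal F X Pr M)
    (h : CSol F X p Ok M) : CSol F X p Ok (M.act a) := by
  obtain ⟨O, h1, h2, h3⟩ := h
  refine ⟨Un.act a '' O, hF.mo_tr a hM h1, ?_, fun hu => CX_tr hF hp a hM h1 (h3 fun u hu' => ?_)⟩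
  · rintro _ ⟨u, hu, rfl⟩
    exact i1 a u (h1.val u hu).1 (h2 u hu)
  · have := i1 (-a) _ (hF.val_tr a (hM.val u hu').1) (hu _ ⟨u, hu', rfl⟩)
    rwa [Un.act_act, add_neg_cancel, Un.act_zero] at this

/-- tokens from a functional relation -/
theorem tok_of {W : Type} {L : Set (Sym2 W)} {c : W → Col} {A : Set W} (pay : W → W → Prop)
    (fn : ∀ x y z, pay x y → pay x z → y = z)
    (h1 : ∀ u v, s(u, v) ∈ L → c u = c v ∨ pay u v ∨ pay v u)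
    (h2 : ∀ x y, pay x y → s(x, y) ∈ L → c y ≠ c x → x ∈ A) : Tok L c A := by
  classical
  let ω : W → W := fun x => if h : ∃ y, pay x y then h.choose else x
  have w : ∀ x y, pay x y → ω x = y := fun x y k => by
    have h : ∃ y, pay x y := ⟨y, k⟩
    exact (dif_pos h).trans (fn x _ y h.choose_spec k)
  refine ⟨ω, fun u v k => (h1 u v k).imp_right (Or.imp (w u v) (w v u)), fun x k => ?_⟩
  by_cases h : ∃ y, pay x y
  · obtain ⟨y, hy⟩ := h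
    obtain ⟨k1, k2⟩ := k
    rw [w x y hy] at k1 k2
    exact h2 x y hy k1 k2
  · exact (k.2 (congrArg c (dif_neg h))).elim

theorem Lt_nx (hF : Lay F X Pr) {y : Vx J} (hy : y ∈ F.LA) (h : p.Lt F (F.nx y)) :
    p.o (F.nx y) = y := by
  obtain ⟨n1, n2, -⟩ := hF.nx_mem hy
  have h1 : p.o (F.nx y) ∈ F.L (F.f y) := hF.lf _ _ n1 ▸ h.1
  have h2 := (hF.nx_mem h1).2.1
  rw [h.2] at h2
  exact hF.inj h1 hy (by omega)

/-- the class of the top path -/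
theorem top_cls (hF : Lay F X Pr) (hp : Plan F X p Ok) (hM : MVal F X Pr M)
    (hok : ∀ u ∈ M.us, Ok u) {c : Vx J → Col} (hc : p.FolT M c) {y : Vx J} (hy : y ∈ M.T) :
    (c y).1 = p.cls (F.f M.s) := by
  obtain ⟨u, hu, hT⟩ := hy
  have vu := (hM.val u hu).1
  have e := hM.lev hF hu
  obtain ⟨c1, c2, c3⟩ := hc u hu
  rcases tsub vu hT with rfl | rfl | ⟨rfl, k⟩
  · rw [c1, hp.cl _ vu.hs, e]
  · rw [c2, hp.cl _ (hF.la vu.hs'), hF.lf _ _ vu.hs', e]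
  · rw [c3 (cap_ne vu k), hp.xcl u vu (hok u hu) (cap_ne vu k), e]

/-- The converter.  Row edges of the first path are strict or paid above; edges at static vertices
are strict, monochromatic or paid by a spare token; the top satisfies the condition `Ψ`. -/
theorem csol_of_outX (hF : Lay F X Pr) (hp : Plan F X p Ok) (hM : MVal F X Pr M)
    (hd : MC F X M d V R) {X' P : Set (Vx J)} {Ψ : (Vx J → Col) → Set (Vx J) → Prop}
    (h : OutX F.Γ d S X' P Ψ) (hV : ∀ v ∈ V, v ∈ d.X → v ∈ X') (π : Vx J → Vx J)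
    (hb : ∀ y ∈ d.X, y ∉ X.K → F.nx y ∈ d.X → s(y, F.nx y) ∈ S ∨ p.Up F y)
    (hk : ∀ a ∈ d.X, ∀ b ∈ d.X, F.Γ.Adj a b → a ∈ X.K → s(a, b) ∈ S ∨ p.c a.1 = p.c b.1 ∨
      (p.Sp0 F M a ∧ π a = b) ∨ (p.Sp0 F M b ∧ π b = a))
    (hkc : ∀ a ∈ d.X, a ∈ X.K → (p.c a.1).1 = p.cls (F.f M.s - 1))
    (htv : ∀ y, Over F M y → Ok (Tv F y))
    (hOk : ∀ u, Val F ∅ u → KF F X u → u.x ≠ u.s → u.s ∈ F.Bot M.s M.s' → u.s' ∈ F.Bot M.s M.s' →
      (∀ v ∈ u.pk, v ∉ X') →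
      (∀ y, F.Cov u y → y ∈ d.X ∧ F.nx y ∈ d.X ∧ s(y, F.nx y) ∉ S ∧ p.Up F y) → Ok u)
    (hΨ : (∀ u ∈ M.us, Ok u) → ∀ (σ : Col ≃ Col) (c : Vx J → Col), p.FolT M c →
      (∀ y ∈ d.Y, (σ (c y)).1 = true) → Ψ (fun v => σ (c v)) (p.AT F M))
    (hR : ∀ c : Vx J → Col, (∀ v ∈ X.K, c v = p.c v.1) →
      (∀ v ∈ F.Bot M.s M.s', v ∉ P → c v = p.c v.1) → ∃ c', Rec F.Γ R ∅ c c') :
    CSol F X p Ok M := by
  have D := hd.disc
  obtain ⟨o, hs, eX, eY, eZ, -, eM⟩ := h.shp D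
  have hd' : MC F X M d (V ∩ d.X) R := ⟨D, hd.eY, hd.eI, hd.rz, hd.sub, hd.cvx, hd.rx,
    fun v hv n => hd.hid v hv fun k => n ⟨k, hv⟩, hd.ea', hd.eb', hd.ry⟩
  have hV' : ∀ v ∈ V ∩ d.X, v ∉ o.Z := fun v hv => hs.xz (eX ▸ hV v hv.1 hv.2)
  have mo := hd'.mo hs hV' hF hM
  have pkP : ∀ u ∈ outU F X M d o, ∀ v ∈ u.pk, v ∈ P := fun u hu v hv => by
    have k := out_pk hu hv
    exact ((eZ ▸ k.1 : v ∈ d.Z ∪ P)).resolve_left k.2
  have ok : ∀ u ∈ outU F X M d o, Ok u := by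
    intro u hu
    obtain ⟨vu, b1, b2⟩ := mo.val u hu
    by_cases n : u.x = u.s
    · rw [hF.eq_tv vu n]
      exact htv _ (mo.over hF hu (cov_self vu))
    have hi := (out_cap hu n).1
    have cu := cap_of vu n
    have nx : ∀ v ∈ u.pk, v ∉ X' := fun v hv k => hs.xz (eX ▸ k) (out_pk hu hv).1
    refine hOk u vu (mo.nk u hu) n b1 b2 nx fun y c => ?_
    have e : F.f u.s = F.f M.s - 1 := hF.lf _ _ b1.1
    obtain ⟨n1, n2, -⟩ := hF.nx_mem c.1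
    have c1 := c.2.1
    have c2 := c.2.2
    have lt := cu.lt
    have y1 := hd.cvx _ hi.1.1 _ hi.2.1.1 hi.1.2.2 hi.2.1.2.2 y (e ▸ c.1) c1 c2.le
    have y2 := hd.cvx _ hi.1.1 _ hi.2.1.1 hi.1.2.2 hi.2.1.2.2 _ (e ▸ n1) (by omega) (by omega)
    have nS : s(y, F.nx y) ∉ S := fun k => by
      by_cases m : F.ρ u.s < F.ρ y
      · exact nx y ((cu.old y c.1).2 ⟨m, c2⟩) (h.st _ k y (Sym2.mem_mk_left _ _))
      · exact nx _ ((cu.old _ n1).2 ⟨by omega, by omega⟩) (h.st _ k _ (Sym2.mem_mk_right _ _))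
    exact ⟨y1, y2, nS, (hb y y1 (fun k => hF.k_la k (hF.la c.1)) y2).resolve_left nS⟩
  refine ⟨_, mo, ok, fun hok c hc => ?_⟩
  rw [hd'.mm_eq hs hV' hF hM, eM]
  obtain ⟨c1, r1⟩ := hR c hc.k fun v hv n => hc.bot v hv fun u hu k => n (pkP u hu v k)
  have off : ∀ v, v ∉ d.Z → c1 v = c v := fun v hv => r1.off v fun k => hv (hd.rz k)
  have old : ∀ v ∈ d.X, v ∈ X' → c1 v = p.c v.1 := by
    intro v hv hv'
    rw [off v (D.xz hv)]
    by_cases k : v ∈ X.K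
    · exact hc.k v k
    · exact hc.bot v (hd.xb hv k) fun u hu m => hs.xz (eX ▸ hv') (out_pk hu m).1
  have ft : p.FolT M c1 := fun u hu => by
    have t : ∀ v ∈ u.T, c1 v = c v := fun v hv => off v (D.yz (hd.eY ▸ ⟨u, hu, hv⟩))
    rw [t _ (Or.inl rfl), t _ (Or.inr (Or.inr rfl)), t _ (Or.inr (Or.inl rfl))]
    exact ⟨(hc.top u hu).1, (hc.top u hu).2, hc.xt u hu⟩
  have cX : ∀ v ∈ X', (c1 v).1 = p.cls (F.f M.s - 1) := by
    intro v hv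
    by_cases hv' : v ∈ d.X
    · rw [old v hv' hv]
      by_cases k : v ∈ X.K
      · exact hkc v hv' k
      · have b := (hd.xb hv' k).1
        rw [hp.cl v (hF.la b), hF.lf _ _ b]
    · obtain ⟨u, hu, e, n, -⟩ := hd'.apex_unit hs hV' (eX ▸ hv) hv'
      obtain ⟨vu, b1, -⟩ := mo.val u hu
      rw [off v (DD.mem_I.1 (hs.new_I (eX ▸ hv) hv')).1, ← e, hc.xb u hu n,
        hp.xcl u vu (ok u hu) n, hF.lf _ _ b1.1]
  have cY : ∀ y ∈ d.Y, (c1 y).1 = p.cls (F.f M.s) := fun y hy =>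
    top_cls hF hp hM hok ft (hd.eY ▸ hy)
  -- the tokens of the first path
  obtain ⟨ω, w1, w2⟩ : Tok (PE F.Γ (d.X ∩ X') \ S) c1 (p.Al F X M (outU F X M d o)) := by
    have row : ∀ y ∈ d.X, y ∈ X' → y ∉ X.K → F.nx y ∈ d.X → F.nx y ∈ X' → s(y, F.nx y) ∉ S →
        c1 y = c1 (F.nx y) ∨ (p.o y = F.nx y ∧ y.1 ∉ p.dn) ∨
          (p.o (F.nx y) = y ∧ (F.nx y).1 ∉ p.dn) := by
      intro y h1 h2 h3 h4 h5 h6
      rcases (hb y h1 h3 h4).resolve_left h6 with k | k | k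
      · exact Or.inl (by rw [old y h1 h2, old _ h4 h5, k])
      · exact Or.inr (Or.inl k)
      · exact Or.inr (Or.inr ⟨Lt_nx hF (hF.la (hd.xb h1 h3).1) k.1, k.2⟩)
    have nxt : ∀ a ∈ d.X, a ∉ X.K → ∀ b ∈ d.X, b ∉ X.K → F.Γ.Adj a b → b = F.nx a ∨ a = F.nx b := by
      intro a ha ka b hb' kb e
      have a1 := (hd.xb ha ka).1
      have b1 := (hd.xb hb' kb).1
      obtain ⟨n1, n2, -⟩ := hF.nx_mem a1
      obtain ⟨m1, m2, -⟩ := hF.nx_mem b1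
      exact ((hF.adj_iff a1 b1).1 e).imp (fun k => hF.inj b1 n1 (by omega))
        fun k => hF.inj a1 m1 (by omega)
    refine tok_of (fun x y => (p.Sp0 F M x ∧ π x = y) ∨
      (p.o x = y ∧ y ≠ x ∧ x.1 ∉ p.dn ∧ x ∉ X.K ∧ y ∉ X.K)) ?_ ?_ ?_
    · rintro x y z (a | a) (b | b)
      exacts [a.2.symm.trans b.2, absurd (b.1.symm.trans a.1.1) b.2.1,
        absurd (a.1.symm.trans b.1.1) a.2.1, a.1.symm.trans b.1]
    · rintro a b ⟨k, nS⟩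
      obtain ⟨ha, hb', e⟩ := mem_PE.1 k
      by_cases ka : a ∈ X.K
      · rcases (hk a ha.1 b hb'.1 e ka).resolve_left nS with m | m | m
        exacts [Or.inl (by rw [old a ha.1 ha.2, old b hb'.1 hb'.2, m]), Or.inr (Or.inl (Or.inl m)),
          Or.inr (Or.inr (Or.inl m))]
      by_cases kb : b ∈ X.K
      · rcases (hk b hb'.1 a ha.1 e.symm kb).resolve_left (Sym2.eq_swap ▸ nS) with m | m | m
        exacts [Or.inl (by rw [old a ha.1 ha.2, old b hb'.1 hb'.2, m]), Or.inr (Or.inr (Or.inl m)),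
          Or.inr (Or.inl (Or.inl m))]
      rcases nxt a ha.1 ka b hb'.1 kb e with rfl | rfl
      · rcases row a ha.1 ha.2 ka hb'.1 hb'.2 nS with m | m | m
        exacts [Or.inl m, Or.inr (Or.inl (Or.inr ⟨m.1, e.ne', m.2, ka, kb⟩)),
          Or.inr (Or.inr (Or.inr ⟨m.1, e.ne, m.2, kb, ka⟩))]
      · rcases row b hb'.1 hb'.2 kb ha.1 ha.2 (Sym2.eq_swap ▸ nS) with m | m | m
        exacts [Or.inl m.symm, Or.inr (Or.inr (Or.inr ⟨m.1, e.ne, m.2, kb, ka⟩)),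
          Or.inr (Or.inl (Or.inr ⟨m.1, e.ne', m.2, ka, kb⟩))]
    · rintro x y hxy ⟨k, -⟩ ne
      obtain ⟨hx, hy, e⟩ := mem_PE.1 k
      rw [old x hx.1 hx.2, old y hy.1 hy.2] at ne
      rcases hxy with ⟨a, -⟩ | ⟨a1, -, a3, kx, ky⟩
      · refine Or.inr ⟨a.1, a.2, ?_⟩
        by_cases kx : x ∈ X.K
        · exact Or.inl kx
        · exact Or.inr (Or.inl ⟨hd.xb hx.1 kx, fun u hu m => hs.xz (eX ▸ hx.2) (out_pk hu m).1⟩)
      · rcases nxt x hx.1 kx y hy.1 ky e with rfl | rfl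
        · exact Or.inl (Or.inl ⟨Tv F x, Or.inl ⟨⟨hx.1, eX ▸ hx.2, kx⟩, ⟨hy.1, eX ▸ hy.2, ky⟩,
            Or.inl ⟨rfl, (hF.nx_mem (hd.xb hx.1 kx).1).2.1, rfl⟩⟩, rfl, ne.symm,
            Or.inl ⟨rfl, a1⟩, a3⟩)
        · have b := (hd.xb hy.1 ky).1
          obtain ⟨n1, n2, -⟩ := hF.nx_mem b
          refine Or.inl (Or.inl ⟨Tv F y, Or.inl ⟨⟨hy.1, eX ▸ hy.2, ky⟩, ⟨hx.1, eX ▸ hx.2, kx⟩,
            Or.inl ⟨rfl, n2, rfl⟩⟩, rfl, ne, Or.inr ⟨rfl, ?_, by rw [a1]⟩, a3⟩)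
          rw [a1, hF.lf _ _ n1]
          exact b
  have alt : p.cls (F.f M.s) ≠ p.cls (F.f M.s - 1) := by
    have := hp.alt (F.f M.s - 1)
    rwa [sub_add_cancel] at this
  obtain ⟨σ, s1, s2⟩ : ∃ σ : Col ≃ Col, (∀ v ∈ X', (σ (c1 v)).1 = false) ∧
      ∀ y ∈ d.Y, (σ (c1 y)).1 = true := by
    cases hcl : p.cls (F.f M.s - 1)
    · refine ⟨Equiv.refl _, fun v hv => (cX v hv).trans hcl, fun y hy => (cY y hy).trans ?_⟩
      rw [hcl] at alt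
      simpa using alt
    · refine ⟨flipC, fun v hv => ?_, fun y hy => ?_⟩
      · show (!(c1 v).1) = false
        rw [cX v hv, hcl]
        rfl
      · show (!(c1 y).1) = true
        rw [hcl] at alt
        rw [cY y hy]
        simpa using alt
  obtain ⟨c2, r2⟩ := h.ext _ _ ω (p.AT F M) s1 s2 (fun _ _ => rfl) (w1.perm σ)
    (hΨ hok σ c1 ft s2)
  rw [Pay.perm] at r2
  have r := r1.union (r2.perm σ) (Set.disjoint_left.2 fun x k m => (DD.mem_I.1 m.1).1 (hd.rz k))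
    (fun ⟨x, k, y, m, e⟩ => D.iz m.1 e.symm (hd.rz k)) fun _ _ _ k => k.elim
  rw [Set.union_comm] at r
  exact ⟨_, r.mono fun x _ k => by
    rcases k with k | k | k
    exacts [k.elim, w2 k, AT_sub k.1]⟩

end Pool.Agent.P.MP_08fd93_co.FN
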