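import Pool.Agent.P.MP_08fd93_co.FN.N5
import Pool.Agent.P.MP_08fd93_co.FM.M5

/-! Dynamic layer: weak frames without static vertices. -/

set_option autoImplicit false

namespace Pool.Agent.P.MP_08fd93_co.FN

open OV PkPrtP

variable {J : Type} {F : FD J} {Pr : Set (Vx J)} {M : MU J}

/-- No static vertices. -/
def X0 (F : FD J) : XD J := ⟨∅, F.SI⟩

theorem lay_of_fm (h : FM.Lay F Pr) : Lay F (X0 F) Pr := by
  refine ⟨h.fine, h.nj, h.per, h.ker, h.gen, h.ge, h.big, h.umono, h.utr, h.ltr, h.str, h.lf, h.lu,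
    h.bd, h.mem, h.rho, h.adj, h.lw, h.n2, h.ltr', h.pinv, h.anL, h.atr, h.amono,
    fun _ _ => Iff.rfl, fun _ k => k.elim,
    fun j s hs s' _ _ _ v hv => ⟨h.lf j s hs ▸ hv.1, fun k => k⟩, ?_,
    fun a j s hs s' hs' ps ps' v => h.si_tr (h.la hs) (h.lf j s hs ▸ hs') ps ps' a v,
    fun j s hs s' hs' t ht t' ht' ps ps' pt pt' => h.si_sub hs hs' ht ht' ps ps' pt pt',
    fun j v hv _ => h.ex j v hv, h.dis, fun j s hs s' hs' ps ps' x hx l1 l2 z e =>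
      (h.top j s hs s' hs' ps ps' x hx l1 l2 z e).imp_left fun k m => Or.inl (k m)⟩
  intro j s _ s' _ _ _ v hv z e
  rcases hv.2 v z Conn.rfl' e with a | a | a
  · exact Or.inl ⟨a, fun y z' hc ha => hv.2 y z' ((Conn.step hv.1 a e).trans hc) ha⟩
  · exact Or.inr (Or.inr (Or.inl a))
  · exact Or.inr (Or.inr (Or.inr a))

/-- A weak frame is a layer system. -/
theorem lay_of_w (h : FZ.WFrm F Pr) : Lay F (X0 F) Pr := lay_of_fm (FM.lay_of_w h)

/-- every macro cell of a weak frame has a disc -/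
theorem mc_ex (hW : FZ.WFrm F Pr) (hM : MVal F (X0 F) Pr M) :
    ∃ d, MC F (X0 F) M d ∅ ∅ ∧ d.X = F.Bot M.s M.s' ∧ d.a = F.an M.s ∧ d.b = F.an M.s' := by
  have hF := FM.lay_of_w hW
  have hM' : FM.MVal F Pr ⟨M.s, M.s', M.us⟩ :=
    ⟨hM.hs, hM.hs', hM.ps, hM.ps', hM.lt, hM.val, hM.cov, hM.uni, hM.nadj, hM.mx⟩
  obtain ⟨d, hd⟩ := FM.mc_ex hW hM'
  have eX : d.X = F.Bot M.s M.s' := hd.eX
  refine ⟨d, ⟨hd.disc, hd.eY, fun v => ?_, fun _ k => k.elim, fun v hv => Or.inr (eX ▸ hv),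
    fun v hv v' hv' _ _ z hz l1 l2 => ?_, fun v hv _ => hd.rx' hv, fun v hv _ n1 n2 => ?_, hd.ea',
    hd.eb', hd.ry⟩, eX, hd.ea, hd.eb⟩
  · rw [hd.eI]
    exact ⟨Or.inl, fun k => k.resolve_right fun m => m⟩
  · rw [eX] at hv hv' ⊢
    exact ⟨hz, hv.2.1.trans l1, l2.trans hv'.2.2⟩
  · refine ⟨fun k => k, fun z ez hz => ⟨hd.nZ.2 ?_, fun k => k⟩⟩
    have hvB : v ∈ F.Bot M.s M.s' := eX ▸ hv
    have a1 := hF.anL _ _ hM.hs hM.ps
    have a2 := hF.anL _ _ hM.hs' hM.ps'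
    have l1 : F.ρ (F.an M.s) < F.ρ v := lt_of_le_of_ne hvB.2.1 fun e =>
      n1 ((hF.inj hvB.1 a1 e.symm).trans hd.ea.symm)
    have l2 : F.ρ v < F.ρ (F.an M.s') := lt_of_le_of_ne hvB.2.2 fun e =>
      n2 ((hF.inj hvB.1 a2 e).trans hd.eb.symm)
    rcases hz with hz | hz
    · have h2 := (hF.adj_iff hvB.1 hz).1 ez
      exact Or.inl ⟨hz, by show F.ρ (F.an M.s) ≤ _; omega, by show _ ≤ F.ρ (F.an M.s'); omega⟩
    · have h2 := hF.bot _ _ hM.hs _ hM.hs' hM.ps hM.ps' v hvB.1 l1 l2 z ez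
      by_cases hL : z ∈ F.L (F.f M.s)
      · rcases FM.top_mem hF hM' (h2.2 hL) with h3 | h3
        · exact Or.inr (Or.inl h3)
        · exact Or.inr (Or.inr (Or.inl h3))
      · refine Or.inr (Or.inr (Or.inr (h2.1 ⟨hz, ?_⟩)))
        rintro (h3 | h3)
        · exact hL h3
        · have c3 := hF.lf _ _ hvB.1
          rcases hF.bd _ _ h3 v ez.symm with c | c
          · have := hF.ge _ _ c
            omega
          · have := hF.lf _ _ c
            omega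

end Pool.Agent.P.MP_08fd93_co.FN
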