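import Pool.Agent.P.MP_08fd93_co.OV.Base2

/-! Dynamic layer for the full statement: definitions (layers, profiles, macro cells). -/

set_option autoImplicit false

namespace Pool.Agent.P.MP_08fd93_co.FN

open OV

variable {J : Type}

/-- Extra data: the static vertices `K` inside the strips and the interiors of the static cells. -/
structure XD (J : Type) where
  K : Set (Vx J)
  SI : Vx J → Vx J → Set (Vx J)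

/-- Static rows and strips; the strips are cut at the vertices `x` of `Pr` (by a rung `x - an x`
or by a path through `K`). -/
structure Lay (F : FD J) (X : XD J) (Pr : Set (Vx J)) : Prop where
  fine : Fine F.Γ
  nj : NJ F.Γ Set.univ
  per : ∀ a x, F.f (tr a x) = F.f x + F.η a
  ker : ∀ a, F.η a = 0 ↔ ∃ k : ℤ, a = k • F.w
  gen : ∃ b, 0 < F.η b ∧ ∀ a, F.η b ∣ F.η a
  ge : ∀ j, ∀ x ∈ F.U j, j ≤ F.f x
  big : ∃ M : ℤ, 0 ≤ M ∧ ∀ j x, j + M ≤ F.f x → x ∈ F.U j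
  umono : ∀ j j', j ≤ j' → F.U j' ⊆ F.U j
  utr : ∀ a j x, tr a x ∈ F.U (j + F.η a) ↔ x ∈ F.U j
  ltr : ∀ a j x, tr a x ∈ F.L (j + F.η a) ↔ x ∈ F.L j
  str : ∀ a j x, tr a x ∈ F.St (j + F.η a) ↔ x ∈ F.St j
  lf : ∀ j, ∀ x ∈ F.L j, F.f x = j
  lu : ∀ j, F.L j ⊆ F.U j
  bd : ∀ j, ∀ x ∈ F.U j, ∀ y, F.Γ.Adj x y → y ∈ F.U j ∨ y ∈ F.L (j - 1)
  mem : ∀ j x, x ∈ F.L j ↔ ∃ i, x = F.l j i
  rho : ∀ j i, F.ρ (F.l j i) = i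
  adj : ∀ j i i', F.Γ.Adj (F.l j i) (F.l j i') ↔ i' = i + 1 ∨ i = i' + 1
  lw : ∀ j i, tr F.w (F.l j i) = F.l j (i + F.nn j)
  n2 : ∀ j, 2 ≤ F.nn j
  ltr' : ∀ a j, ∃ κ, ∀ i, tr a (F.l j i) = F.l (j + F.η a) (i + κ)
  pinv : ∀ a, ∀ x ∈ Pr, tr a x ∈ Pr
  anL : ∀ j, ∀ s ∈ F.L j, s ∈ Pr → F.an s ∈ F.L (j - 1)
  atr : ∀ a, ∀ x ∈ Pr, F.an (tr a x) = tr a (F.an x)
  amono : ∀ j, ∀ s ∈ F.L j, ∀ t ∈ F.L j, s ∈ Pr → t ∈ Pr → F.ρ s ≤ F.ρ t →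
    F.ρ (F.an s) ≤ F.ρ (F.an t)
  ktr : ∀ a x, tr a x ∈ X.K ↔ x ∈ X.K
  kst : ∀ k ∈ X.K, ∃ j, k ∈ F.St j
  sis : ∀ j, ∀ s ∈ F.L j, ∀ s' ∈ F.L j, s ∈ Pr → s' ∈ Pr → ∀ v ∈ X.SI s s', v ∈ F.St j ∧ v ∉ X.K
  sicl : ∀ j, ∀ s ∈ F.L j, ∀ s' ∈ F.L j, s ∈ Pr → s' ∈ Pr → ∀ v ∈ X.SI s s', ∀ z, F.Γ.Adj v z →
    z ∈ X.SI s s' ∨ z ∈ X.K ∨ z ∈ F.Bot s s' ∨ z ∈ F.Top s s'
  sitr : ∀ a j, ∀ s ∈ F.L j, ∀ s' ∈ F.L j, s ∈ Pr → s' ∈ Pr → ∀ v,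
    tr a v ∈ X.SI (tr a s) (tr a s') ↔ v ∈ X.SI s s'
  simo : ∀ j, ∀ s ∈ F.L j, ∀ s' ∈ F.L j, ∀ t ∈ F.L j, ∀ t' ∈ F.L j, s ∈ Pr → s' ∈ Pr → t ∈ Pr →
    t' ∈ Pr → F.ρ s ≤ F.ρ t → F.ρ t' ≤ F.ρ s' → X.SI t t' ⊆ X.SI s s'
  ex : ∀ j, ∀ v ∈ F.St j, v ∉ X.K → ∃ s ∈ F.L j, ∃ s' ∈ F.L j, s ∈ Pr ∧ s' ∈ Pr ∧ F.ρ s < F.ρ s' ∧
    (∀ t ∈ F.L j, t ∈ Pr → F.ρ t ≤ F.ρ s ∨ F.ρ s' ≤ F.ρ t) ∧ v ∈ X.SI s s'
  dis : ∀ j, ∀ s ∈ F.L j, ∀ s' ∈ F.L j, ∀ t ∈ F.L j, ∀ t' ∈ F.L j, s ∈ Pr → s' ∈ Pr → t ∈ Pr →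
    t' ∈ Pr → F.ρ s' ≤ F.ρ t → Disjoint (X.SI s s') (X.SI t t')
  top : ∀ j, ∀ s ∈ F.L j, ∀ s' ∈ F.L j, s ∈ Pr → s' ∈ Pr → ∀ h ∈ F.L j, F.ρ s < F.ρ h →
    F.ρ h < F.ρ s' → ∀ z, F.Γ.Adj h z →
      (z ∈ F.St j → z ∈ X.SI s s' ∨ z ∈ X.K) ∧ (z ∈ F.L (j - 1) → z ∈ F.Bot s s')

/-- The unit avoids the static vertices. -/
def KF (F : FD J) (X : XD J) (u : Un J) : Prop :=
  (∀ v ∈ u.pk, v ∉ X.K) ∧ (u.x ≠ u.s → u.x ∉ X.K ∧ ∀ k ∈ X.K, ¬ F.Γ.Adj k u.x)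

/-- The trivial unit of the edge named by `y`. -/
def Tv (F : FD J) (y : Vx J) : Un J := ⟨y, y, F.nx y, ∅⟩

/-- A profile: valid units that tile all rows. -/
structure Prof (F : FD J) (X : XD J) (Q : Set (Un J)) : Prop where
  val : ∀ u ∈ Q, Val F ∅ u
  cov : ∀ y ∈ F.LA, ∃ u ∈ Q, F.Cov u y
  uni : ∀ u1 ∈ Q, ∀ u2 ∈ Q, ∀ y, F.Cov u1 y → F.Cov u2 y → u1 = u2
  nadj : ∀ u1 ∈ Q, ∀ u2 ∈ Q, F.f u1.s = F.f u2.s → u1.x ≠ u1.s → u2.x ≠ u2.s →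
    ¬ F.Γ.Adj u1.x u2.x
  nk : ∀ u ∈ Q, KF F X u

/-- A macro cell: the interval from `s` to `s'` and the units that tile it. -/
@[ext] structure MU (J : Type) where
  s : Vx J
  s' : Vx J
  us : Set (Un J)

/-- Translation of a macro cell. -/
def MU.act (a : ℤ × ℤ) (M : MU J) : MU J := ⟨tr a M.s, tr a M.s', Un.act a '' M.us⟩

/-- The top path of a macro cell. -/
def MU.T (M : MU J) : Set (Vx J) := {v | ∃ u ∈ M.us, v ∈ u.T}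

/-- The pockets of the top path. -/
def MU.Pk (M : MU J) : Set (Vx J) := {v | ∃ u ∈ M.us, v ∈ u.pk}

/-- The interior of a macro cell. -/
def CI (X : XD J) (M : MU J) : Set (Vx J) := M.Pk ∪ X.SI M.s M.s'

/-- The part of the macro cell that is coloured from the cell. -/
def MM (X : XD J) (M : MU J) (O : Set (Un J)) : Set (Vx J) :=
  {v | v ∈ CI X M ∧ ∀ u' ∈ O, v ∉ u'.T ∧ v ∉ u'.pk}

/-- A valid macro cell: a run of units between two consecutive visible vertices of `Pr`. -/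
structure MVal (F : FD J) (X : XD J) (Pr : Set (Vx J)) (M : MU J) : Prop where
  hs : M.s ∈ F.L (F.f M.s)
  hs' : M.s' ∈ F.L (F.f M.s)
  ps : M.s ∈ Pr
  ps' : M.s' ∈ Pr
  lt : F.ρ M.s < F.ρ M.s'
  val : ∀ u ∈ M.us, Val F ∅ u ∧ u.s ∈ F.Top M.s M.s' ∧ u.s' ∈ F.Top M.s M.s'
  cov : ∀ y ∈ F.Top M.s M.s', F.ρ y < F.ρ M.s' → ∃ u ∈ M.us, F.Cov u y
  uni : ∀ u1 ∈ M.us, ∀ u2 ∈ M.us, ∀ y, F.Cov u1 y → F.Cov u2 y → u1 = u2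
  nadj : ∀ u1 ∈ M.us, ∀ u2 ∈ M.us, u1.x ≠ u1.s → u2.x ≠ u2.s → ¬ F.Γ.Adj u1.x u2.x
  mx : ∀ u ∈ M.us, u.s ∈ Pr → u.s = M.s
  nk : ∀ u ∈ M.us, KF F X u

/-- The macro cells of a profile. -/
def mac (F : FD J) (X : XD J) (Pr : Set (Vx J)) (Q : Set (Un J)) : Set (MU J) :=
  {M | MVal F X Pr M ∧ M.us ⊆ Q}

/-- The edge named by `y` lies on the bottom of the macro cell. -/
def Over (F : FD J) (M : MU J) (y : Vx J) : Prop :=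
  y ∈ F.Bot M.s M.s' ∧ F.ρ y < F.ρ (F.an M.s')

/-- The shape of the output of a macro cell. -/
structure MO (F : FD J) (X : XD J) (M : MU J) (O : Set (Un J)) : Prop where
  val : ∀ u' ∈ O, Val F ∅ u' ∧ u'.s ∈ F.Bot M.s M.s' ∧ u'.s' ∈ F.Bot M.s M.s'
  cov : ∀ y, Over F M y → ∃ u' ∈ O, F.Cov u' y
  uni : ∀ u1 ∈ O, ∀ u2 ∈ O, ∀ y, F.Cov u1 y → F.Cov u2 y → u1 = u2
  sub : ∀ u' ∈ O, u'.T ∪ u'.pk ⊆ F.Bot M.s M.s' ∪ CI X M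
  nadj : ∀ u1 ∈ O, ∀ u2 ∈ O, u1.x ≠ u1.s → u2.x ≠ u2.s → ¬ F.Γ.Adj u1.x u2.x
  nk : ∀ u ∈ O, KF F X u

/-- A consistent periodic system of units with the outputs of its macro cells. -/
structure MSol (F : FD J) (X : XD J) (Pr : Set (Vx J)) (Q : Set (Un J))
    (O : MU J → Set (Un J)) : Prop where
  prof : Prof F X Q
  inv : ∀ a, ∀ u ∈ Q, u.act a ∈ Q
  vis : ∀ j, ∃ u ∈ Q, F.f u.s = j ∧ u.s ∈ Pr
  mo : ∀ M ∈ mac F X Pr Q, MO F X M (O M)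
  fix : ∀ u', u' ∈ Q ↔ ∃ M ∈ mac F X Pr Q, u' ∈ O M
  eqv : ∀ a M, O (M.act a) = Un.act a '' O M

/-! ### Toolbox -/

variable {F : FD J} {X : XD J} {Pr : Set (Vx J)}

theorem Lay.l_mem (h : Lay F X Pr) (j i : ℤ) : F.l j i ∈ F.L j := (h.mem j _).2 ⟨i, rfl⟩

theorem Lay.f_l (h : Lay F X Pr) (j i : ℤ) : F.f (F.l j i) = j := h.lf j _ (h.l_mem j i)

theorem Lay.l_rho (h : Lay F X Pr) {j : ℤ} {x : Vx J} (hx : x ∈ F.L j) : F.l j (F.ρ x) = x := by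
  obtain ⟨i, rfl⟩ := (h.mem j x).1 hx
  rw [h.rho]

theorem Lay.inj (h : Lay F X Pr) {j : ℤ} {x y : Vx J} (hx : x ∈ F.L j) (hy : y ∈ F.L j)
    (e : F.ρ x = F.ρ y) : x = y := by
  rw [← h.l_rho hx, ← h.l_rho hy, e]

theorem Lay.adj_iff (h : Lay F X Pr) {j : ℤ} {x y : Vx J} (hx : x ∈ F.L j) (hy : y ∈ F.L j) :
    F.Γ.Adj x y ↔ F.ρ y = F.ρ x + 1 ∨ F.ρ x = F.ρ y + 1 := by
  rw [← h.adj j, h.l_rho hx, h.l_rho hy]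

theorem Lay.la (h : Lay F X Pr) {j : ℤ} {x : Vx J} (hx : x ∈ F.L j) : x ∈ F.LA := by
  show x ∈ F.L (F.f x)
  rwa [h.lf j x hx]

theorem Lay.nx_l (h : Lay F X Pr) (j i : ℤ) : F.nx (F.l j i) = F.l j (i + 1) := by
  rw [FD.nx, h.f_l, h.rho]

theorem Lay.nx_mem (h : Lay F X Pr) {j : ℤ} {x : Vx J} (hx : x ∈ F.L j) :
    F.nx x ∈ F.L j ∧ F.ρ (F.nx x) = F.ρ x + 1 ∧ F.Γ.Adj x (F.nx x) := by
  obtain ⟨i, rfl⟩ := (h.mem j x).1 hx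
  rw [h.nx_l, h.rho, h.rho]
  exact ⟨h.l_mem _ _, rfl, (h.adj j _ _).2 (Or.inl rfl)⟩

theorem Lay.nx_tr (h : Lay F X Pr) (a : ℤ × ℤ) {j : ℤ} {x : Vx J} (hx : x ∈ F.L j) :
    F.nx (tr a x) = tr a (F.nx x) := by
  obtain ⟨κ, hκ⟩ := h.ltr' a j
  obtain ⟨i, rfl⟩ := (h.mem j x).1 hx
  rw [h.nx_l, hκ, hκ, h.nx_l, add_right_comm]

theorem Lay.eta_w (h : Lay F X Pr) (k : ℤ) : F.η (k • F.w) = 0 := (h.ker _).2 ⟨k, rfl⟩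

theorem Lay.lw_int (h : Lay F X Pr) (k j i : ℤ) :
    tr (k • F.w) (F.l j i) = F.l j (i + k * F.nn j) := by
  induction k using Int.induction_on generalizing i with
  | zero => simp [tr_zero]
  | succ k ih => rw [add_smul, one_smul, ← tr_tr, ih, h.lw]; congr 1; ring
  | pred k ih =>
    apply tr_inj F.w
    rw [tr_tr, sub_smul, one_smul, sub_add_cancel, ih, h.lw]
    congr 1
    ring

theorem Lay.w_mem (h : Lay F X Pr) (k : ℤ) {j : ℤ} {x : Vx J} (hx : x ∈ F.L j) :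
    tr (k • F.w) x ∈ F.L j ∧ F.ρ (tr (k • F.w) x) = F.ρ x + k * F.nn j := by
  obtain ⟨i, rfl⟩ := (h.mem j x).1 hx
  rw [h.lw_int, h.rho, h.rho]
  exact ⟨h.l_mem _ _, rfl⟩

theorem Lay.rd (h : Lay F X Pr) (a : ℤ × ℤ) {j : ℤ} {x y : Vx J} (hx : x ∈ F.L j) (hy : y ∈ F.L j) :
    F.ρ (tr a x) + F.ρ y = F.ρ (tr a y) + F.ρ x := by
  obtain ⟨κ, hκ⟩ := h.ltr' a j
  obtain ⟨i, rfl⟩ := (h.mem j x).1 hx
  obtain ⟨i', rfl⟩ := (h.mem j y).1 hy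
  simp only [hκ, h.rho]
  ring

theorem Lay.p_tr (h : Lay F X Pr) (a : ℤ × ℤ) (x : Vx J) : tr a x ∈ Pr ↔ x ∈ Pr := by
  refine ⟨fun e => ?_, h.pinv a x⟩
  have := h.pinv (-a) _ e
  rwa [tr_neg] at this

theorem tr_surj (a : ℤ × ℤ) : Function.Surjective (tr a : Vx J → Vx J) :=
  fun x => ⟨tr (-a) x, tr_neg' a x⟩

theorem mem_T (a : ℤ × ℤ) (u : Un J) (v : Vx J) : tr a v ∈ (u.act a).T ↔ v ∈ u.T := by
  simp only [Un.T, Un.act, Set.mem_insert_iff, Set.mem_singleton_iff, (tr_inj a).eq_iff]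

theorem mem_pk (a : ℤ × ℤ) (u : Un J) (v : Vx J) : tr a v ∈ (u.act a).pk ↔ v ∈ u.pk :=
  (tr_inj a).mem_set_image

theorem MU.act_zero (M : MU J) : M.act 0 = M := by
  ext <;> simp [MU.act, tr, Un.act_zero]

theorem MU.act_act (a b : ℤ × ℤ) (M : MU J) : (M.act b).act a = M.act (b + a) := by
  simp only [MU.act, tr_tr, Set.image_image, Un.act_act]

theorem Lay.l_tr (h : Lay F X Pr) (a : ℤ × ℤ) (s z : Vx J) :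
    tr a z ∈ F.L (F.f (tr a s)) ↔ z ∈ F.L (F.f s) := by
  rw [h.per]
  exact h.ltr a _ z

theorem Lay.l_tr' (h : Lay F X Pr) (a : ℤ × ℤ) (s z : Vx J) :
    tr a z ∈ F.L (F.f (tr a s) - 1) ↔ z ∈ F.L (F.f s - 1) := by
  rw [h.per, add_sub_right_comm]
  exact h.ltr a _ z

theorem Lay.u_tr (h : Lay F X Pr) (a : ℤ × ℤ) (s z : Vx J) :
    tr a z ∈ F.U (F.f (tr a s) + 1) ↔ z ∈ F.U (F.f s + 1) := by
  rw [h.per, add_right_comm]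
  exact h.utr a _ z

theorem Lay.st_tr (h : Lay F X Pr) (a : ℤ × ℤ) (s z : Vx J) :
    tr a z ∈ F.St (F.f (tr a s)) ↔ z ∈ F.St (F.f s) := by
  rw [h.per]
  exact h.str a _ z

theorem Lay.la_tr (h : Lay F X Pr) (a : ℤ × ℤ) (x : Vx J) : tr a x ∈ F.LA ↔ x ∈ F.LA :=
  h.l_tr a x x

theorem Lay.top_tr (h : Lay F X Pr) {s s' : Vx J} (hs : s ∈ F.L (F.f s)) (hs' : s' ∈ F.L (F.f s))
    (a : ℤ × ℤ) (z : Vx J) : tr a z ∈ F.Top (tr a s) (tr a s') ↔ z ∈ F.Top s s' := by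
  simp only [FD.Top, Set.mem_ofPred_eq, h.l_tr]
  refine and_congr_right fun hz => ?_
  have h1 := h.rd a hz hs
  have h2 := h.rd a hz hs'
  omega

theorem Lay.bot_tr (h : Lay F X Pr) {s s' : Vx J} (hs : s ∈ F.L (F.f s)) (hs' : s' ∈ F.L (F.f s))
    (ps : s ∈ Pr) (ps' : s' ∈ Pr) (a : ℤ × ℤ) (z : Vx J) :
    tr a z ∈ F.Bot (tr a s) (tr a s') ↔ z ∈ F.Bot s s' := by
  simp only [FD.Bot, Set.mem_ofPred_eq, h.l_tr', h.atr a s ps, h.atr a s' ps']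
  refine and_congr_right fun hz => ?_
  have h1 := h.rd a hz (h.anL _ _ hs ps)
  have h2 := h.rd a hz (h.anL _ _ hs' ps')
  omega

theorem Lay.cov_tr (h : Lay F X Pr) (a : ℤ × ℤ) {u : Un J} (y : Vx J) (hu : Val F ∅ u) :
    F.Cov (u.act a) (tr a y) ↔ F.Cov u y := by
  simp only [FD.Cov, Un.act, h.l_tr]
  refine and_congr_right fun hz => ?_
  have h1 := h.rd a hz hu.hs
  have h2 := h.rd a hz hu.hs'
  omega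

theorem Lay.val_tr (hF : Lay F X Pr) (a : ℤ × ℤ) {u : Un J} (hu : Val F ∅ u) :
    Val F ∅ (u.act a) := by
  have inv := hF.fine.inv
  have hρ := hF.rd a hu.hs hu.hs'
  refine ⟨(hF.l_tr a u.s u.s).2 hu.hs, (hF.l_tr a u.s u.s').2 hu.hs', ?_⟩
  rcases hu.alt with ⟨h1, h2, h3⟩ | h
  · refine Or.inl ⟨congrArg (tr a) h1, ?_, ?_⟩
    · show F.ρ (tr a u.s') = F.ρ (tr a u.s) + 1
      omega
    · show tr a '' u.pk = ∅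
      rw [h3, Set.image_empty]
  · refine Or.inr ⟨?_, (hF.u_tr a u.s u.x).2 h.xu, inv a _ _ h.sx, inv a _ _ h.xs, ?_,
      fun e => h.xp ((mem_pk a u u.x).1 e), h.fin.image _, ?_, ?_, ?_, ?_⟩
    · show F.ρ (tr a u.s) + 1 < F.ρ (tr a u.s')
      have := h.lt
      omega
    · intro z hz hxz
      obtain ⟨z, rfl⟩ := tr_surj a z
      exact (hF.top_tr hu.hs hu.hs' a z).2
        (h.xn z ((hF.l_tr a u.s z).1 hz) ((hF.fine.adj_tr a u.x z).1 hxz))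
    · intro z hz
      obtain ⟨z, rfl⟩ := tr_surj a z
      have hz' := (hF.l_tr a u.s z).1 hz
      rw [mem_pk, h.old z hz']
      show _ ↔ F.ρ (tr a u.s) < F.ρ (tr a z) ∧ F.ρ (tr a z) < F.ρ (tr a u.s')
      have h1 := hF.rd a hz' hu.hs
      omega
    · rintro _ ⟨z, hz, rfl⟩
      exact (h.sub hz).imp (hF.l_tr a u.s z).2 (hF.u_tr a u.s z).2
    · rintro _ ⟨v, hv, rfl⟩ z hvz hz
      obtain ⟨z, rfl⟩ := tr_surj a z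
      exact (h.cl v hv z ((hF.fine.adj_tr a v z).1 hvz)
        (hz.imp (hF.l_tr a u.s z).1 (hF.u_tr a u.s z).1)).imp (mem_pk a u z).2 (mem_T a u z).2
    · intro z _ hzG
      exact absurd hzG (Set.notMem_empty _)

theorem Lay.kf_tr (h : Lay F X Pr) (a : ℤ × ℤ) {u : Un J} (hu : KF F X u) : KF F X (u.act a) := by
  refine ⟨?_, fun n => ?_⟩
  · rintro _ ⟨v, hv, rfl⟩ k
    exact hu.1 v hv ((h.ktr a v).1 k)
  · obtain ⟨h1, h2⟩ := hu.2 fun e => n (congrArg (tr a) e)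
    refine ⟨fun k => h1 ((h.ktr a _).1 k), fun k hk e => ?_⟩
    obtain ⟨k, rfl⟩ := tr_surj a k
    exact h2 k ((h.ktr a k).1 hk) ((h.fine.adj_tr a k u.x).1 e)

theorem mT_tr (a : ℤ × ℤ) (M : MU J) (v : Vx J) : tr a v ∈ (M.act a).T ↔ v ∈ M.T := by
  simp only [MU.T, MU.act, Set.mem_ofPred_eq, Set.exists_mem_image, mem_T]

theorem mP_tr (a : ℤ × ℤ) (M : MU J) (v : Vx J) : tr a v ∈ (M.act a).Pk ↔ v ∈ M.Pk := by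
  simp only [MU.Pk, MU.act, Set.mem_ofPred_eq, Set.exists_mem_image, mem_pk]

theorem Lay.ci_tr (h : Lay F X Pr) (a : ℤ × ℤ) {M : MU J} (hM : MVal F X Pr M) (v : Vx J) :
    tr a v ∈ CI X (M.act a) ↔ v ∈ CI X M :=
  or_congr (mP_tr a M v) (h.sitr a _ _ hM.hs _ hM.hs' hM.ps hM.ps' v)

theorem Lay.mm_tr (h : Lay F X Pr) (a : ℤ × ℤ) {M : MU J} (hM : MVal F X Pr M) (O : Set (Un J))
    (v : Vx J) : tr a v ∈ MM X (M.act a) (Un.act a '' O) ↔ v ∈ MM X M O := by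
  simp only [MM, Set.mem_ofPred_eq, h.ci_tr a hM, Set.forall_mem_image, mem_T, mem_pk]

theorem Lay.over_tr (h : Lay F X Pr) (a : ℤ × ℤ) {M : MU J} (hM : MVal F X Pr M) (y : Vx J) :
    Over F (M.act a) (tr a y) ↔ Over F M y := by
  refine (and_congr_left fun _ => h.bot_tr hM.hs hM.hs' hM.ps hM.ps' a y).trans ?_
  refine and_congr_right fun hy => ?_
  show F.ρ (tr a y) < F.ρ (F.an (tr a M.s')) ↔ _
  rw [h.atr a _ hM.ps']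
  have := h.rd a hy.1 (h.anL _ _ hM.hs' hM.ps')
  omega

theorem Lay.mval_tr (h : Lay F X Pr) (a : ℤ × ℤ) {M : MU J} (hM : MVal F X Pr M) :
    MVal F X Pr (M.act a) := by
  have ht := h.top_tr hM.hs hM.hs' a
  refine ⟨(h.l_tr a M.s M.s).2 hM.hs, (h.l_tr a M.s M.s').2 hM.hs', h.pinv a _ hM.ps,
    h.pinv a _ hM.ps', ?_, ?_, ?_, ?_, ?_, ?_, ?_⟩
  · show F.ρ (tr a M.s) < F.ρ (tr a M.s')
    have := h.rd a hM.hs hM.hs'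
    have := hM.lt
    omega
  · rintro _ ⟨u, hu, rfl⟩
    obtain ⟨h1, h2, h3⟩ := hM.val u hu
    exact ⟨h.val_tr a h1, (ht _).2 h2, (ht _).2 h3⟩
  · intro y hy hlt
    obtain ⟨y, rfl⟩ := tr_surj a y
    have hy' := (ht y).1 hy
    have e := h.rd a hy'.1 hM.hs'
    have hlt' : F.ρ (tr a y) < F.ρ (tr a M.s') := hlt
    obtain ⟨u, hu, hc⟩ := hM.cov y hy' (by omega)
    exact ⟨u.act a, ⟨u, hu, rfl⟩, (h.cov_tr a y (hM.val u hu).1).2 hc⟩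
  · rintro _ ⟨u1, h1, rfl⟩ _ ⟨u2, h2, rfl⟩ y c1 c2
    obtain ⟨y, rfl⟩ := tr_surj a y
    rw [hM.uni u1 h1 u2 h2 y ((h.cov_tr a y (hM.val u1 h1).1).1 c1)
      ((h.cov_tr a y (hM.val u2 h2).1).1 c2)]
  · rintro _ ⟨u1, h1, rfl⟩ _ ⟨u2, h2, rfl⟩ n1 n2 hadj
    exact hM.nadj u1 h1 u2 h2 (fun e => n1 (congrArg (tr a) e)) (fun e => n2 (congrArg (tr a) e))
      ((h.fine.adj_tr a u1.x u2.x).1 hadj)
  · rintro _ ⟨u, hu, rfl⟩ hp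
    exact congrArg (tr a) (hM.mx u hu ((h.p_tr a _).1 hp))
  · rintro _ ⟨u, hu, rfl⟩
    exact h.kf_tr a (hM.nk u hu)

theorem Lay.mo_tr (h : Lay F X Pr) (a : ℤ × ℤ) {M : MU J} {O : Set (Un J)} (hM : MVal F X Pr M)
    (hO : MO F X M O) : MO F X (M.act a) (Un.act a '' O) := by
  have hb := h.bot_tr hM.hs hM.hs' hM.ps hM.ps' a
  refine ⟨?_, ?_, ?_, ?_, ?_, ?_⟩
  · rintro _ ⟨u', hu', rfl⟩
    obtain ⟨h1, h2, h3⟩ := hO.val u' hu'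
    exact ⟨h.val_tr a h1, (hb _).2 h2, (hb _).2 h3⟩
  · intro y hy
    obtain ⟨y, rfl⟩ := tr_surj a y
    obtain ⟨u', hu', hc⟩ := hO.cov y ((h.over_tr a hM y).1 hy)
    exact ⟨u'.act a, ⟨u', hu', rfl⟩, (h.cov_tr a y (hO.val u' hu').1).2 hc⟩
  · rintro _ ⟨u1, h1, rfl⟩ _ ⟨u2, h2, rfl⟩ y c1 c2
    obtain ⟨y, rfl⟩ := tr_surj a y
    rw [hO.uni u1 h1 u2 h2 y ((h.cov_tr a y (hO.val u1 h1).1).1 c1)
      ((h.cov_tr a y (hO.val u2 h2).1).1 c2)]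
  · rintro _ ⟨u', hu', rfl⟩ z hz
    obtain ⟨z, rfl⟩ := tr_surj a z
    exact (hO.sub u' hu' (hz.imp (mem_T a u' z).1 (mem_pk a u' z).1)).imp (hb z).2
      (h.ci_tr a hM z).2
  · rintro _ ⟨u1, h1, rfl⟩ _ ⟨u2, h2, rfl⟩ n1 n2 hadj
    exact hO.nadj u1 h1 u2 h2 (fun e => n1 (congrArg (tr a) e)) (fun e => n2 (congrArg (tr a) e))
      ((h.fine.adj_tr a u1.x u2.x).1 hadj)
  · rintro _ ⟨u, hu, rfl⟩
    exact h.kf_tr a (hO.nk u hu)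

theorem Lay.mac_tr (h : Lay F X Pr) {Q : Set (Un J)} (hQ : ∀ a, ∀ u ∈ Q, u.act a ∈ Q) (a : ℤ × ℤ)
    {M : MU J} (hM : M ∈ mac F X Pr Q) : M.act a ∈ mac F X Pr Q := by
  refine ⟨h.mval_tr a hM.1, ?_⟩
  rintro _ ⟨u, hu, rfl⟩
  exact hQ a u (hM.2 hu)

theorem Lay.k_la (h : Lay F X Pr) {k : Vx J} (hk : k ∈ X.K) : k ∉ F.LA := by
  obtain ⟨j, h1, h2⟩ := h.kst k hk
  intro hl
  have a := h.ge _ _ h1
  rcases eq_or_lt_of_le a with e | e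
  · exact h2 (Or.inl (e ▸ hl))
  · exact h2 (Or.inr (h.umono _ _ (by omega) (h.lu _ hl)))

end Pool.Agent.P.MP_08fd93_co.FN
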