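import Pool.Agent.P.MP_08fd93_co.FN.N0
import Pool.Agent.P.MP_08fd93_co.OV.PkPrt

/-! Dynamic layer: the macro cells of a profile. -/

set_option autoImplicit false

namespace Pool.Agent.P.MP_08fd93_co.FN

open OV PkPrtP

variable {J : Type} {F : FD J} {X : XD J} {Pr : Set (Vx J)} {Q : Set (Un J)}

theorem cov_self {u : Un J} (hu : Val F ∅ u) : F.Cov u u.s := ⟨hu.hs, le_rfl, vlt hu⟩

theorem Lay.tv_val (h : Lay F X Pr) {y : Vx J} (hy : y ∈ F.LA) : Val F ∅ (Tv F y) :=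
  ⟨hy, (h.nx_mem hy).1, Or.inl ⟨rfl, (h.nx_mem hy).2.1, rfl⟩⟩

theorem Lay.eq_tv (h : Lay F X Pr) {u : Un J} (hu : Val F ∅ u) (hx : u.x = u.s) : u = Tv F u.s := by
  rcases hu.alt with e | e
  · refine Un.ext rfl hx ?_ e.2.2
    obtain ⟨n1, n2, -⟩ := h.nx_mem hu.hs
    exact h.inj hu.hs' n1 (e.2.1.trans n2.symm)
  · exact absurd (hx ▸ e.xu) (lU hu.hs)

theorem Lay.tv_cov (h : Lay F X Pr) {y z : Vx J} (hy : y ∈ F.LA) (hc : F.Cov (Tv F y) z) : z = y := by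
  have n2 := (h.nx_mem hy).2.1
  have c1 : F.ρ y ≤ F.ρ z := hc.2.1
  have c2 : F.ρ z < F.ρ (F.nx y) := hc.2.2
  exact h.inj hc.1 hy (by omega)

theorem Lay.tv_tr (h : Lay F X Pr) (a : ℤ × ℤ) {y : Vx J} (hy : y ∈ F.LA) :
    (Tv F y).act a = Tv F (tr a y) := by
  refine Un.ext rfl rfl (h.nx_tr a hy).symm ?_
  show tr a '' ∅ = ∅
  exact Set.image_empty _

theorem kf_tv (y : Vx J) : KF F X (Tv F y) := ⟨fun _ h => h.elim, fun n => absurd rfl n⟩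

/-- The profile without caps. -/
theorem Lay.prof_tv (h : Lay F X Pr) : Prof F X (Tv F '' F.LA) := by
  refine ⟨?_, ?_, ?_, ?_, ?_⟩
  · rintro _ ⟨y, hy, rfl⟩
    exact h.tv_val hy
  · exact fun y hy => ⟨_, ⟨y, hy, rfl⟩, cov_self (h.tv_val hy)⟩
  · rintro _ ⟨y1, h1, rfl⟩ _ ⟨y2, h2, rfl⟩ z c1 c2
    rw [← h.tv_cov h1 c1, ← h.tv_cov h2 c2]
  · rintro _ ⟨y1, -, rfl⟩ _ - - e
    exact absurd rfl e
  · rintro _ ⟨y, -, rfl⟩
    exact kf_tv y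

theorem cov_lev (h : Lay F X Pr) {u : Un J} {y : Vx J} (hc : F.Cov u y) : F.f y = F.f u.s :=
  h.lf _ _ hc.1

/-- two units of a profile on one level are equal or lie side by side -/
theorem Prof.ap (hQ : Prof F X Q) {u1 u2 : Un J} (h1 : u1 ∈ Q) (h2 : u2 ∈ Q) (hne : u1 ≠ u2)
    (hl : F.f u1.s = F.f u2.s) : Ap F u1 u2 := by
  have v1 := hQ.val _ h1
  have v2 := hQ.val _ h2
  have l1 := vlt v1
  have l2 := vlt v2
  by_contra hc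
  unfold Ap at hc
  rcases le_total (F.ρ u1.s) (F.ρ u2.s) with h | h
  · exact hne (hQ.uni _ h1 _ h2 u2.s ⟨hl ▸ v2.hs, h, by omega⟩ ⟨v2.hs, le_rfl, l2⟩)
  · exact hne (hQ.uni _ h1 _ h2 u1.s ⟨v1.hs, le_rfl, l1⟩ ⟨hl ▸ v1.hs, h, by omega⟩)

/-- the right end of a unit is the left end of the next unit -/
theorem Prof.next (hF : Lay F X Pr) (hQ : Prof F X Q) {u : Un J} (hu : u ∈ Q) :
    ∃ u' ∈ Q, u'.s = u.s' := by
  have v := hQ.val u hu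
  obtain ⟨u', hu', hc⟩ := hQ.cov u.s' (hF.la v.hs')
  have v' := hQ.val u' hu'
  have e : F.f u'.s = F.f u.s := (cov_lev hF hc).symm.trans (hF.lf _ _ v.hs')
  refine ⟨u', hu', hF.inj v'.hs hc.1 ?_⟩
  have c1 := hc.2.1
  have c2 := hc.2.2
  have l := vlt v
  have l' := vlt v'
  by_cases hne : u = u'
  · subst hne
    omega
  · rcases hQ.ap hu hu' hne e.symm with a | a <;> omega

/-- the left end of a unit is the right end of the previous unit -/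
theorem Prof.prev (hF : Lay F X Pr) (hQ : Prof F X Q) {u : Un J} (hu : u ∈ Q) :
    ∃ u' ∈ Q, u'.s' = u.s ∧ F.f u'.s = F.f u.s := by
  have v := hQ.val u hu
  have hm := hF.l_mem (F.f u.s) (F.ρ u.s - 1)
  obtain ⟨u', hu', hc⟩ := hQ.cov _ (hF.la hm)
  have v' := hQ.val u' hu'
  have e : F.f u'.s = F.f u.s := (cov_lev hF hc).symm.trans (hF.lf _ _ hm)
  refine ⟨u', hu', hF.inj (e ▸ v'.hs') v.hs ?_, e⟩
  have c1 := hc.2.1
  have c2 := hc.2.2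
  rw [hF.rho] at c1 c2
  have l := vlt v
  have l' := vlt v'
  by_cases hne : u = u'
  · subst hne
    omega
  · rcases hQ.ap hu hu' hne e.symm with a | a <;> omega

/-- a left end of a unit is not strictly inside another unit -/
theorem Prof.vis (hQ : Prof F X Q) {u t : Un J} (hu : u ∈ Q) (ht : t ∈ Q)
    (hl : F.f u.s = F.f t.s) : F.ρ t.s ≤ F.ρ u.s ∨ F.ρ u.s' ≤ F.ρ t.s := by
  by_cases hne : u = t
  · subst hne
    exact Or.inl le_rfl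
  · have := vlt (hQ.val t ht)
    rcases hQ.ap hu ht hne hl with a | a <;> omega

theorem MVal.lev (hF : Lay F X Pr) {M : MU J} (hM : MVal F X Pr M) {u : Un J} (hu : u ∈ M.us) :
    F.f u.s = F.f M.s := hF.lf _ _ (hM.val u hu).2.1.1

/-- the left end of a macro cell is the left end of one of its units -/
theorem MVal.first (hF : Lay F X Pr) {M : MU J} (hM : MVal F X Pr M) : ∃ u ∈ M.us, u.s = M.s := by
  obtain ⟨u, hu, hc⟩ := hM.cov M.s ⟨hM.hs, le_rfl, hM.lt.le⟩ hM.lt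
  obtain ⟨-, t1, -⟩ := hM.val u hu
  exact ⟨u, hu, hF.inj t1.1 hM.hs (le_antisymm hc.2.1 t1.2.1)⟩

/-- the right end of a macro cell is the right end of one of its units -/
theorem MVal.last (hF : Lay F X Pr) {M : MU J} (hM : MVal F X Pr M) : ∃ u ∈ M.us, u.s' = M.s' := by
  have hl := hM.lt
  have hm := hF.l_mem (F.f M.s) (F.ρ M.s' - 1)
  obtain ⟨u, hu, hc⟩ := hM.cov _ ⟨hm, by rw [hF.rho]; omega, by rw [hF.rho]; omega⟩
    (by rw [hF.rho]; omega)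
  obtain ⟨-, -, t2⟩ := hM.val u hu
  have c2 := hc.2.2
  rw [hF.rho] at c2
  have := t2.2.2
  exact ⟨u, hu, hF.inj t2.1 hM.hs' (by omega)⟩

/-- the units of a macro cell of `Q` are the units of `Q` that start in its interval -/
theorem mac_mem (hF : Lay F X Pr) (hQ : Prof F X Q) {M : MU J} (hM : M ∈ mac F X Pr Q) {u : Un J}
    (hu : u ∈ Q) (hl : F.f u.s = F.f M.s) (l1 : F.ρ M.s ≤ F.ρ u.s) (l2 : F.ρ u.s < F.ρ M.s') :
    u ∈ M.us := by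
  have v := hQ.val u hu
  obtain ⟨u', hu', hc⟩ := hM.1.cov u.s ⟨hl ▸ v.hs, l1, l2.le⟩ l2
  rw [hQ.uni u hu u' (hM.2 hu') u.s (cov_self v) hc]
  have := hF.fine
  exact hu'

/-- a visible vertex of `Pr` is not strictly inside a macro cell -/
theorem mac_vis (hF : Lay F X Pr) (hQ : Prof F X Q) {M : MU J} (hM : M ∈ mac F X Pr Q) {u : Un J}
    (hu : u ∈ Q) (hl : F.f u.s = F.f M.s) (hp : u.s ∈ Pr) :
    F.ρ u.s ≤ F.ρ M.s ∨ F.ρ M.s' ≤ F.ρ u.s := by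
  by_contra hc
  have := hM.1.mx u (mac_mem hF hQ hM hu hl (by omega) (by omega)) hp
  rw [this] at hc
  omega

theorem mac_s (hF : Lay F X Pr) {M : MU J} (hM : M ∈ mac F X Pr Q) :
    ∃ u ∈ Q, u.s = M.s := by
  obtain ⟨u, hu, e⟩ := hM.1.first hF
  exact ⟨u, hM.2 hu, e⟩

theorem mac_s' (hF : Lay F X Pr) (hQ : Prof F X Q) {M : MU J} (hM : M ∈ mac F X Pr Q) :
    ∃ u ∈ Q, u.s = M.s' := by
  obtain ⟨u, hu, e⟩ := hM.1.last hF
  obtain ⟨u', hu', e'⟩ := hQ.next hF (hM.2 hu)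
  exact ⟨u', hu', e'.trans e⟩

/-- two macro cells of a profile on one level are equal or lie side by side -/
theorem mac_ap (hF : Lay F X Pr) (hQ : Prof F X Q) {M1 M2 : MU J} (h1 : M1 ∈ mac F X Pr Q)
    (h2 : M2 ∈ mac F X Pr Q) (hl : F.f M1.s = F.f M2.s) :
    M1 = M2 ∨ F.ρ M1.s' ≤ F.ρ M2.s ∨ F.ρ M2.s' ≤ F.ρ M1.s := by
  have l1 := h1.1.lt
  have l2 := h2.1.lt
  obtain ⟨a1, ha1, ea1⟩ := mac_s hF h1
  obtain ⟨a2, ha2, ea2⟩ := mac_s hF h2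
  obtain ⟨b1, hb1, eb1⟩ := mac_s' hF hQ h1
  obtain ⟨b2, hb2, eb2⟩ := mac_s' hF hQ h2
  have k1 := mac_vis hF hQ h2 ha1 (by rw [ea1, hl]) (ea1 ▸ h1.1.ps)
  have k2 := mac_vis hF hQ h1 ha2 (by rw [ea2, hl]) (ea2 ▸ h2.1.ps)
  have k3 := mac_vis hF hQ h2 hb1 (by rw [eb1, hF.lf _ _ h1.1.hs', hl]) (eb1 ▸ h1.1.ps')
  have k4 := mac_vis hF hQ h1 hb2 (by rw [eb2, hF.lf _ _ h2.1.hs', hl]) (eb2 ▸ h2.1.ps')
  rw [ea1] at k1
  rw [ea2] at k2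
  rw [eb1] at k3
  rw [eb2] at k4
  by_cases c1 : F.ρ M1.s' ≤ F.ρ M2.s
  · exact Or.inr (Or.inl c1)
  by_cases c2 : F.ρ M2.s' ≤ F.ρ M1.s
  · exact Or.inr (Or.inr c2)
  left
  have es : M1.s = M2.s := hF.inj h1.1.hs (hl ▸ h2.1.hs) (by omega)
  have es' : M1.s' = M2.s' := hF.inj h1.1.hs' (hl ▸ h2.1.hs') (by omega)
  refine MU.ext es es' (Set.Subset.antisymm ?_ ?_)
  · intro u hu
    obtain ⟨v, t1, t2⟩ := h1.1.val u hu
    have := vlt v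
    have := t2.2.2
    exact mac_mem hF hQ h2 (h1.2 hu) ((h1.1.lev hF hu).trans hl) (es ▸ t1.2.1) (by omega)
  · intro u hu
    obtain ⟨v, t1, t2⟩ := h2.1.val u hu
    have := vlt v
    have := t2.2.2
    exact mac_mem hF hQ h1 (h2.2 hu) ((h2.1.lev hF hu).trans hl.symm) (es ▸ t1.2.1) (by omega)

/-- the macro cell between two consecutive visible vertices of `Pr` -/
theorem mac_mk (hF : Lay F X Pr) (hQ : Prof F X Q) {a b : Un J} (ha : a ∈ Q) (hb : b ∈ Q)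
    (hl : F.f b.s = F.f a.s) (pa : a.s ∈ Pr) (pb : b.s ∈ Pr) (lt : F.ρ a.s < F.ρ b.s)
    (hm : ∀ u ∈ Q, F.f u.s = F.f a.s → u.s ∈ Pr → F.ρ u.s ≤ F.ρ a.s ∨ F.ρ b.s ≤ F.ρ u.s) :
    ∃ M ∈ mac F X Pr Q, M.s = a.s ∧ M.s' = b.s := by
  have va := hQ.val a ha
  have vb := hQ.val b hb
  refine ⟨⟨a.s, b.s, {u | u ∈ Q ∧ F.f u.s = F.f a.s ∧ F.ρ a.s ≤ F.ρ u.s ∧ F.ρ u.s < F.ρ b.s}⟩,
    ⟨⟨va.hs, hl ▸ vb.hs, pa, pb, lt, ?_, ?_, ?_, ?_, ?_, fun u hu => hQ.nk u hu.1⟩,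
      fun u hu => hu.1⟩, rfl, rfl⟩
  · rintro u ⟨hu, e, l1, l2⟩
    have v := hQ.val u hu
    have := vlt v
    have := hQ.vis hu hb (e.trans hl.symm)
    exact ⟨v, ⟨e ▸ v.hs, l1, l2.le⟩, ⟨e ▸ v.hs', by show F.ρ a.s ≤ _; omega,
      by show _ ≤ F.ρ b.s; omega⟩⟩
  · intro y hy l2
    obtain ⟨u, hu, hc⟩ := hQ.cov y (hF.la hy.1)
    have e : F.f u.s = F.f a.s := (cov_lev hF hc).symm.trans (hF.lf _ _ hy.1)
    have := hQ.vis hu ha e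
    have c1 := hc.2.1
    have c2 := hc.2.2
    have l1 : F.ρ a.s ≤ F.ρ y := hy.2.1
    have l2' : F.ρ y < F.ρ b.s := l2
    exact ⟨u, ⟨hu, e, by omega, by omega⟩, hc⟩
  · exact fun u1 h1 u2 h2 => hQ.uni u1 h1.1 u2 h2.1
  · exact fun u1 h1 u2 h2 => hQ.nadj u1 h1.1 u2 h2.1 (h1.2.1.trans h2.2.1.symm)
  · rintro u ⟨hu, e, l1, l2⟩ hp
    have := hm u hu e hp
    exact hF.inj (e ▸ (hQ.val u hu).hs) va.hs (show F.ρ u.s = F.ρ a.s by omega)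

section

variable (hF : Lay F X Pr) (hQ : Prof F X Q) (hi : ∀ a, ∀ u ∈ Q, u.act a ∈ Q)
  (hv : ∀ j, ∃ u ∈ Q, F.f u.s = j ∧ u.s ∈ Pr)
include hF hQ hi hv

/-- visible vertices of `Pr` far to the left and far to the right -/
theorem vis_far (j : ℤ) : ∃ r r' : ℤ, ∀ k : ℤ, ∃ u ∈ Q, F.f u.s = j ∧ u.s ∈ Pr ∧
    F.ρ u.s = r + k * F.nn j ∧ F.ρ (F.an u.s) = r' + k * F.nn (j - 1) := by
  obtain ⟨u, hu, e, hp⟩ := hv j
  have hs : u.s ∈ F.L j := e ▸ (hQ.val u hu).hs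
  refine ⟨F.ρ u.s, F.ρ (F.an u.s), fun k => ⟨u.act (k • F.w), hi _ u hu, ?_, hF.pinv _ _ hp, ?_, ?_⟩⟩
  · exact hF.lf _ _ (hF.w_mem k hs).1
  · exact (hF.w_mem k hs).2
  · show F.ρ (F.an (tr (k • F.w) u.s)) = _
    rw [hF.atr _ _ hp]
    exact (hF.w_mem k (hF.anL j _ hs hp)).2

/-- general selection of a macro cell by a monotone test -/
theorem mac_sel (j : ℤ) (p : Vx J → Prop) (hlo : ∃ u ∈ Q, F.f u.s = j ∧ u.s ∈ Pr ∧ p u.s)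
    (hhi : ∃ B : ℤ, ∀ u ∈ Q, F.f u.s = j → u.s ∈ Pr → p u.s → F.ρ u.s ≤ B) :
    ∃ M ∈ mac F X Pr Q, F.f M.s = j ∧ p M.s ∧ ¬ p M.s' := by
  obtain ⟨B, hB⟩ := hhi
  obtain ⟨u0, h0, e0, p0, q0⟩ := hlo
  obtain ⟨i, ⟨a, ha, ea, pa, qa, rfl⟩, hmax⟩ := Int.exists_greatest_of_bdd
    (P := fun i => ∃ u ∈ Q, F.f u.s = j ∧ u.s ∈ Pr ∧ p u.s ∧ i = F.ρ u.s)
    ⟨B, by rintro _ ⟨u, hu, e, hp, hq, rfl⟩; exact hB u hu e hp hq⟩ ⟨_, u0, h0, e0, p0, q0, rfl⟩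
  obtain ⟨r, r', hr⟩ := vis_far hF hQ hi hv j
  have n2 := hF.n2 j
  obtain ⟨u1, h1, e1, p1, r1, -⟩ := hr (|F.ρ a.s - r| + 1)
  have hlt : F.ρ a.s < F.ρ u1.s := by
    have := le_abs_self (F.ρ a.s - r)
    have := abs_nonneg (F.ρ a.s - r)
    nlinarith
  obtain ⟨i, ⟨b, hb, eb, pb, lb, rfl⟩, hmin⟩ := Int.exists_least_of_bdd
    (P := fun i => ∃ u ∈ Q, F.f u.s = j ∧ u.s ∈ Pr ∧ F.ρ a.s < F.ρ u.s ∧ i = F.ρ u.s)
    ⟨F.ρ a.s, by rintro _ ⟨u, -, -, -, l, rfl⟩; exact l.le⟩ ⟨_, u1, h1, e1, p1, hlt, rfl⟩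
  obtain ⟨M, hM, s1, s2⟩ := mac_mk hF hQ ha hb (eb.trans ea.symm) pa pb lb (by
    intro u hu e hp
    by_contra hc
    have := hmin _ ⟨u, hu, e.trans ea, hp, by omega, rfl⟩
    omega)
  refine ⟨M, hM, s1 ▸ ea, s1 ▸ qa, ?_⟩
  rw [s2]
  intro hq
  have := hmax _ ⟨b, hb, eb, pb, hq, rfl⟩
  omega

/-- every edge of a row lies on the top of a macro cell -/
theorem mac_top {j : ℤ} (i : ℤ) : ∃ M ∈ mac F X Pr Q, F.f M.s = j ∧ F.ρ M.s ≤ i ∧ i < F.ρ M.s' := by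
  obtain ⟨r, r', hr⟩ := vis_far hF hQ hi hv j
  have n2 := hF.n2 j
  obtain ⟨u1, h1, e1, p1, r1, -⟩ := hr (-|i - r|)
  obtain ⟨M, hM, e, q1, q2⟩ := mac_sel hF hQ hi hv j (fun s => F.ρ s ≤ i) ⟨u1, h1, e1, p1, by
    have := neg_abs_le (i - r)
    have := abs_nonneg (i - r)
    show F.ρ u1.s ≤ i
    nlinarith⟩ ⟨i, fun u _ _ _ h => h⟩
  exact ⟨M, hM, e, q1, not_le.1 q2⟩

/-- every unit belongs to a macro cell -/
theorem mac_unit {u : Un J} (hu : u ∈ Q) : ∃ M ∈ mac F X Pr Q, u ∈ M.us := by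
  obtain ⟨M, hM, e, l1, l2⟩ := mac_top hF hQ hi hv (j := F.f u.s) (F.ρ u.s)
  exact ⟨M, hM, mac_mem hF hQ hM hu e.symm l1 l2⟩

/-- every edge of a row lies on the bottom of a macro cell -/
theorem mac_over {y : Vx J} (hy : y ∈ F.LA) : ∃ M ∈ mac F X Pr Q, Over F M y := by
  obtain ⟨r, r', hr⟩ := vis_far hF hQ hi hv (F.f y + 1)
  have n2 := hF.n2 (F.f y + 1 - 1)
  have n2' := hF.n2 (F.f y + 1)
  obtain ⟨u1, h1, e1, p1, -, r1⟩ := hr (-|F.ρ y - r'|)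
  obtain ⟨u2, h2, e2, p2, -, r2⟩ := hr (|F.ρ y - r'| + 1)
  have a1 := neg_abs_le (F.ρ y - r')
  have a2 := abs_nonneg (F.ρ y - r')
  have a3 := le_abs_self (F.ρ y - r')
  obtain ⟨M, hM, e, q1, q2⟩ := mac_sel hF hQ hi hv (F.f y + 1) (fun s => F.ρ (F.an s) ≤ F.ρ y)
    ⟨u1, h1, e1, p1, by
      show F.ρ (F.an u1.s) ≤ F.ρ y
      nlinarith⟩ ⟨F.ρ u2.s, fun u hu e hp h => by
      by_contra hc
      have := hF.amono _ _ (e2 ▸ (hQ.val u2 h2).hs) _ (e ▸ (hQ.val u hu).hs) p2 hp (by omega)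
      have h' : F.ρ (F.an u.s) ≤ F.ρ y := h
      nlinarith⟩
  have q2' : F.ρ y < F.ρ (F.an M.s') := not_le.1 q2
  exact ⟨M, hM, ⟨by rw [e, add_sub_cancel_right]; exact hy, q1, q2'.le⟩, q2'⟩

end

/-- the macro cell over an edge is unique -/
theorem over_uni (hF : Lay F X Pr) (hQ : Prof F X Q) {M1 M2 : MU J} (h1 : M1 ∈ mac F X Pr Q)
    (h2 : M2 ∈ mac F X Pr Q) {y : Vx J} (o1 : Over F M1 y) (o2 : Over F M2 y) : M1 = M2 := by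
  have e1 := hF.lf _ _ o1.1.1
  have e2 := hF.lf _ _ o2.1.1
  have hl : F.f M1.s = F.f M2.s := by omega
  have a1 := o1.1.2.1
  have a2 := o2.1.2.1
  have b1 := o1.2
  have b2 := o2.2
  rcases mac_ap hF hQ h1 h2 hl with e | e | e
  · exact e
  · have := hF.amono _ _ h1.1.hs' _ (hl ▸ h2.1.hs) h1.1.ps' h2.1.ps e
    omega
  · have := hF.amono _ _ h2.1.hs' _ (hl ▸ h1.1.hs) h2.1.ps' h1.1.ps e
    omega

/-- the macro cell of a unit is unique -/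
theorem unit_uni (hF : Lay F X Pr) (hQ : Prof F X Q) {M1 M2 : MU J} (h1 : M1 ∈ mac F X Pr Q)
    (h2 : M2 ∈ mac F X Pr Q) {u : Un J} (o1 : u ∈ M1.us) (o2 : u ∈ M2.us) : M1 = M2 := by
  obtain ⟨v, a1, b1⟩ := h1.1.val u o1
  obtain ⟨-, a2, b2⟩ := h2.1.val u o2
  have := vlt v
  have := a1.2.1
  have := a2.2.1
  have := b1.2.2
  have := b2.2.2
  rcases mac_ap hF hQ h1 h2 ((h1.1.lev hF o1).symm.trans (h2.1.lev hF o2)) with e | e | e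
  · exact e
  · omega
  · omega

/-- an output unit that covers `y` lies under the cell over `y` -/
theorem MO.over (hF : Lay F X Pr) {M : MU J} {O : Set (Un J)} (hO : MO F X M O) {u : Un J}
    (hu : u ∈ O) {y : Vx J} (hc : F.Cov u y) : Over F M y := by
  obtain ⟨-, b1, b2⟩ := hO.val u hu
  have e := hF.lf _ _ b1.1
  have c1 := hc.2.1
  have c2 := hc.2.2
  have d1 := b1.2.1
  have d2 := b2.2.2
  exact ⟨⟨e ▸ hc.1, by omega, by omega⟩, by omega⟩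

theorem MO.lev (hF : Lay F X Pr) {M : MU J} {O : Set (Un J)} (hO : MO F X M O) {u : Un J}
    (hu : u ∈ O) : F.f u.s + 1 = F.f M.s := by
  have := hF.lf _ _ (hO.val u hu).2.1.1
  omega

end Pool.Agent.P.MP_08fd93_co.FN
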