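import Pool.Agent.P.MP_08fd93_co.FN.N4

/-! Dynamic layer: the disc of a macro cell and the units left by an output. -/

set_option autoImplicit false

namespace Pool.Agent.P.MP_08fd93_co.FN

open OV PkPrtP

variable {J : Type} {F : FD J} {X : XD J} {Pr : Set (Vx J)} {M : MU J} {d : DD (Vx J)}
  {o : OD (Vx J)} {S : Set (Sym2 (Vx J))} {V R : Set (Vx J)}

/-- `d` is the disc of the macro cell `M`; its first path consists of an interval of the bottom and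
of static vertices; the vertices of `V` must not be hidden; `R` is the rest of the interior. -/
structure MC (F : FD J) (X : XD J) (M : MU J) (d : DD (Vx J)) (V R : Set (Vx J)) : Prop where
  disc : Disc F.Γ d
  eY : d.Y = M.T
  eI : ∀ v, v ∈ CI X M ↔ v ∈ d.I ∨ v ∈ R
  rz : R ⊆ d.Z
  sub : ∀ v ∈ d.X, (v ∈ X.K ∧ v ∈ F.U (F.f M.s)) ∨ v ∈ F.Bot M.s M.s'
  cvx : ∀ v ∈ d.X, ∀ v' ∈ d.X, v ∉ X.K → v' ∉ X.K → ∀ z ∈ F.L (F.f M.s - 1), F.ρ v ≤ F.ρ z →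
    F.ρ z ≤ F.ρ v' → z ∈ d.X
  rx : ∀ v ∈ d.X, v ∉ X.K → d.ρ v = F.ρ v
  hid : ∀ v ∈ d.X, v ∉ V → v ≠ d.a → v ≠ d.b → v ∉ X.K ∧ ∀ z, F.Γ.Adj v z →
    z ∈ F.L (F.f M.s - 1) ∪ F.U (F.f M.s) → z ∉ d.Z ∧ z ∉ X.K
  ea' : d.a' = M.s
  eb' : d.b' = M.s'
  ry : ∀ u ∈ M.us, d.ρ u.s = F.ρ u.s ∧ d.ρ u.s' = F.ρ u.s' ∧ (u.x ≠ u.s → d.ρ u.x = F.ρ u.s + 1)

theorem MVal.ap (hF : Lay F X Pr) (hM : MVal F X Pr M) {u1 u2 : Un J} (h1 : u1 ∈ M.us)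
    (h2 : u2 ∈ M.us) (hne : u1 ≠ u2) : Ap F u1 u2 := by
  have v1 := (hM.val _ h1).1
  have v2 := (hM.val _ h2).1
  have hl := (hM.lev hF h1).trans (hM.lev hF h2).symm
  have l1 := vlt v1
  have l2 := vlt v2
  by_contra hc
  unfold Ap at hc
  rcases le_total (F.ρ u1.s) (F.ρ u2.s) with h | h
  · exact hne (hM.uni _ h1 _ h2 u2.s ⟨hl ▸ v2.hs, h, by omega⟩ ⟨v2.hs, le_rfl, l2⟩)
  · exact hne (hM.uni _ h1 _ h2 u1.s ⟨v1.hs, le_rfl, l1⟩ ⟨hl ▸ v1.hs, h, by omega⟩)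

theorem MVal.pkT (hF : Lay F X Pr) (hM : MVal F X Pr M) {v : Vx J} (h1 : v ∈ M.Pk)
    (h2 : v ∈ M.T) : False := by
  obtain ⟨u1, a1, b1⟩ := h1
  obtain ⟨u2, a2, b2⟩ := h2
  by_cases hne : u1 = u2
  · subst hne
    exact pkT' (hM.val _ a1).1 b1 b2
  · exact PkPrtP.pkT (hM.val _ a1).1 (hM.val _ a2).1 ((hM.lev hF a1).trans (hM.lev hF a2).symm)
      (hM.ap hF a1 a2 hne) b1 b2

theorem MVal.TK (hF : Lay F X Pr) (hM : MVal F X Pr M) {v : Vx J} (hv : v ∈ M.T) : v ∉ X.K := by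
  obtain ⟨u, hu, hT⟩ := hv
  have vu := (hM.val u hu).1
  rcases tsub vu hT with rfl | rfl | ⟨rfl, c⟩
  exacts [fun k => hF.k_la k vu.hs, fun k => hF.k_la k (hF.la vu.hs'),
    ((hM.nk u hu).2 (cap_ne vu c)).1]

/-- The units that an output leaves on the first path of the disc. -/
def inU (F : FD J) (X : XD J) (d : DD (Vx J)) (o : OD (Vx J)) : Set (Un J) :=
  {u' | (u'.s ∈ d.X ∧ u'.s ∈ o.X ∧ u'.s ∉ X.K) ∧ (u'.s' ∈ d.X ∧ u'.s' ∈ o.X ∧ u'.s' ∉ X.K) ∧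
    ((u'.x = u'.s ∧ F.ρ u'.s' = F.ρ u'.s + 1 ∧ u'.pk = ∅) ∨
      (u'.x ∈ o.X ∧ u'.x ∉ d.X ∧ F.Γ.Adj u'.s u'.x ∧ F.Γ.Adj u'.x u'.s' ∧
        F.ρ u'.s < F.ρ u'.s' ∧ u'.pk = Pk d o u'.x))}

/-- All units of the output: the edges of the bottom outside the disc stay trivial. -/
def outU (F : FD J) (X : XD J) (M : MU J) (d : DD (Vx J)) (o : OD (Vx J)) : Set (Un J) :=
  {u' | u' ∈ inU F X d o ∨ ∃ y, Over F M y ∧ ¬ (y ∈ d.X ∧ F.nx y ∈ d.X) ∧ u' = Tv F y}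

/-- pockets of output units lie in the new outside -/
theorem out_pk {u : Un J} (hu : u ∈ outU F X M d o) {v : Vx J} (hv : v ∈ u.pk) :
    v ∈ o.Z ∧ v ∉ d.Z := by
  rcases hu with hu | ⟨y, -, -, rfl⟩
  · rcases hu.2.2 with h | h
    · rw [h.2.2] at hv
      exact hv.elim
    · rw [h.2.2.2.2.2] at hv
      exact ⟨hv.1, hv.2.1⟩
  · exact hv.elim

theorem out_cap {u : Un J} (hu : u ∈ outU F X M d o) (n : u.x ≠ u.s) :
    u ∈ inU F X d o ∧ u.x ∈ o.X ∧ u.x ∉ d.X ∧ u.pk = Pk d o u.x := by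
  rcases hu with hu | ⟨y, -, -, rfl⟩
  · have h := hu.2.2.resolve_left fun k => n k.1
    exact ⟨hu, h.1, h.2.1, h.2.2.2.2.2⟩
  · exact absurd rfl n

theorem T_U (hF : Lay F X Pr) (hM : MVal F X Pr M) {v : Vx J} (hv : v ∈ M.T) :
    v ∈ F.U (F.f M.s) := by
  obtain ⟨u, hu, hT⟩ := hv
  exact hM.lev hF hu ▸ hF.luU (tLU (hM.val u hu).1 hT)

theorem MC.ci (hd : MC F X M d V R) {v : Vx J} (hv : v ∈ d.I) : v ∈ CI X M :=
  (hd.eI v).2 (Or.inl hv)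

theorem MC.nZ (hd : MC F X M d V R) {v : Vx J} (h : v ∉ d.Z) :
    v ∈ d.X ∨ v ∈ M.T ∨ v ∈ CI X M := by
  rcases d.cases v with k | k | k | k
  exacts [absurd k h, Or.inl k, Or.inr (Or.inl (hd.eY ▸ k)), Or.inr (Or.inr (hd.ci k))]

theorem MC.low_bot (hF : Lay F X Pr) (hM : MVal F X Pr M) (hd : MC F X M d V R) {v : Vx J}
    (hv : v ∉ d.Z) (hl : v ∈ F.L (F.f M.s - 1)) : v ∈ d.X ∧ v ∉ X.K := by
  have h1 := hF.lf _ _ hl
  refine ⟨?_, fun k => hF.k_la k (hF.la hl)⟩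
  rcases hd.nZ hv with h | h | h
  · exact h
  · have := hF.ge _ _ (T_U hF hM h)
    omega
  · have := hF.ge _ _ (ciU hF hM h)
    omega

theorem MC.xb (hd : MC F X M d V R) {v : Vx J} (hv : v ∈ d.X) (hk : v ∉ X.K) :
    v ∈ F.Bot M.s M.s' := (hd.sub v hv).resolve_left fun k => hk k.1

theorem MC.hid' (hd : MC F X M d V R) (h : Shp F.Γ d S o) (hV : ∀ v ∈ V, v ∉ o.Z) {v : Vx J}
    (hv : v ∈ d.X) (hz : v ∈ o.Z) : v ∉ X.K ∧ ∀ z, F.Γ.Adj v z →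
      z ∈ F.L (F.f M.s - 1) ∪ F.U (F.f M.s) → z ∉ d.Z ∧ z ∉ X.K :=
  hd.hid v hv (fun k => hV v k hz) (fun e => h.xz h.px.ha (e ▸ hz)) fun e => h.xz h.px.hb (e ▸ hz)

section

variable (hd : MC F X M d V R) (h : Shp F.Γ d S o) (hV : ∀ v ∈ V, v ∉ o.Z)
include hd h hV

/-- The apex lemma in the coordinates of the frame. -/
theorem MC.apex {x : Vx J} (hx : x ∈ o.X) (hn : x ∉ d.X) :
    ∃ t t', (t ∈ d.X ∧ t ∈ o.X ∧ t ∉ X.K) ∧ (t' ∈ d.X ∧ t' ∈ o.X ∧ t' ∉ X.K) ∧ F.Γ.Adj t x ∧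
      F.Γ.Adj x t' ∧ F.ρ t < o.ρ x ∧ o.ρ x < F.ρ t' ∧
      (∀ z ∈ o.X, F.Γ.Adj x z → z = t ∨ z = t') ∧
      (∀ v ∈ d.X, v ∉ X.K → ((F.ρ t < F.ρ v ∧ F.ρ v < F.ρ t') ↔ (v ∈ o.Z ∧ o.ax v = x))) ∧
      ∃ v ∈ d.X, v ∉ X.K ∧ F.ρ t < F.ρ v ∧ F.ρ v < F.ρ t' := by
  have D := hd.disc
  obtain ⟨t, t', h1, h2, h3, h4, h5, h6, h7, h8, h9, h10, v, hv, h11⟩ := h.apex D hx hn
  have nk : ∀ a ∈ d.X, ∀ b ∈ d.X, F.Γ.Adj b a → d.ρ t < d.ρ b → d.ρ b < d.ρ t' → a ∉ X.K := by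
    intro a ha b hb e l1 l2 k
    rcases hd.sub a ha with m | m
    · exact ((hd.hid' h hV hb ((h10 b hb).1 ⟨l1, l2⟩).1).2 a e (Or.inr m.2)).2 k
    · exact ((hd.hid' h hV hb ((h10 b hb).1 ⟨l1, l2⟩).1).2 a e (Or.inl m.1)).2 k
  have k1 : t ∉ X.K := by
    obtain ⟨b, hb, l, e, m⟩ := D.px.succ h1 (by
      rintro rfl
      have := D.px.hi v hv
      omega)
    have := m v hv h11.1
    exact nk t h1 b hb e.symm l (by omega)
  have k3 : t' ∉ X.K := by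
    obtain ⟨b, hb, l, e, m⟩ := D.px.pred h3 (by
      rintro rfl
      have := D.px.lo v hv
      omega)
    have := m v hv h11.2
    exact nk t' h3 b hb e (by omega) l
  have kv := (hd.hid' h hV hv ((h10 v hv).1 h11).1).1
  rw [hd.rx _ h1 k1] at h7
  rw [hd.rx _ h3 k3] at h8
  rw [hd.rx _ h1 k1, hd.rx _ h3 k3, hd.rx _ hv kv] at h11
  refine ⟨t, t', ⟨h1, h2, k1⟩, ⟨h3, h4, k3⟩, h5, h6, h7, h8, h9, fun w hw kw => ?_, v, hv, kv, h11⟩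
  rw [← h10 w hw, hd.rx _ h1 k1, hd.rx _ h3 k3, hd.rx _ hw kw]

theorem MC.apex' {x t t' : Vx J} (hx : x ∈ o.X) (hn : x ∉ d.X) (ht : t ∈ o.X) (ht' : t' ∈ o.X)
    (e : F.Γ.Adj t x) (e' : F.Γ.Adj x t') (l : F.ρ t < F.ρ t') :
    (∀ z ∈ o.X, F.Γ.Adj x z → z = t ∨ z = t') ∧
      (∀ v ∈ d.X, v ∉ X.K → ((F.ρ t < F.ρ v ∧ F.ρ v < F.ρ t') ↔ (v ∈ o.Z ∧ o.ax v = x))) ∧
      ∃ v ∈ d.X, v ∉ X.K ∧ F.ρ t < F.ρ v ∧ F.ρ v < F.ρ t' := by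
  obtain ⟨r, r', -, -, -, -, h7, h8, h9, h10, h11⟩ := hd.apex h hV hx hn
  rcases h9 t ht e.symm with rfl | rfl <;> rcases h9 t' ht' e' with rfl | rfl
  · exact absurd l (lt_irrefl _)
  · exact ⟨h9, h10, h11⟩
  · omega
  · exact absurd l (lt_irrefl _)

omit hV in
theorem MC.pk_nT {x v : Vx J} (hx : x ∈ o.X) (hv : v ∈ Pk d o x) : v ∉ d.Y := by
  intro hT
  have h1 : o.ax v ∈ o.Y := (h.swap.hidden hd.disc.swap hT hv.1).1
  rw [hv.2.2] at h1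
  exact h.xy hx h1

theorem MC.cap (hF : Lay F X Pr) (hM : MVal F X Pr M) {u' : Un J}
    (hs : u'.s ∈ d.X ∧ u'.s ∈ o.X ∧ u'.s ∉ X.K) (hs' : u'.s' ∈ d.X ∧ u'.s' ∈ o.X ∧ u'.s' ∉ X.K)
    (hx : u'.x ∈ o.X) (hn : u'.x ∉ d.X) (e : F.Γ.Adj u'.s u'.x)
    (e' : F.Γ.Adj u'.x u'.s') (l : F.ρ u'.s < F.ρ u'.s') (hp : u'.pk = Pk d o u'.x) :
    Cap F ∅ u' ∧ KF F X u' := by
  obtain ⟨a1, a2, v0, hv0, -, a3⟩ := hd.apex' h hV hx hn hs.2.1 hs'.2.1 e e' l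
  have D := hd.disc
  have hf : F.f u'.s = F.f M.s - 1 := hF.lf _ _ (hd.xb hs.1 hs.2.2).1
  have hf' : F.f u'.s + 1 = F.f M.s := by omega
  have hxI : u'.x ∈ d.I := h.new_I hx hn
  have hlt : F.ρ u'.s + 1 < F.ρ u'.s' := by omega
  refine ⟨⟨hlt, ?_, e, e', ?_, ?_, ?_, ?_, ?_, ?_, ?_⟩, ?_, fun _ => ⟨ciK hF hM (hd.ci hxI), ?_⟩⟩
  · rw [hf']
    exact ciU hF hM (hd.ci hxI)
  · intro z hz ez
    have hz' : z ∈ F.L (F.f M.s - 1) := hf ▸ hz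
    obtain ⟨hzB, kz⟩ := hd.low_bot hF hM (D.iz hxI ez) hz'
    rcases h.xx hzB with h1 | h1
    · rcases a1 z h1 ez with rfl | rfl
      · exact ⟨hz, le_rfl, l.le⟩
      · exact ⟨hz, l.le, le_rfl⟩
    · rcases h.pk z h1 (D.xz hzB) _ ez.symm with h2 | h2 | h2 | ⟨h2, h3 | h3⟩
      · exact absurd h2 (DD.mem_I.1 hxI).1
      · exact absurd h2.1 (h.xz hx)
      · have h3 := (a2 z hzB kz).2 ⟨h1, h2.symm⟩
        exact ⟨hz, h3.1.le, h3.2.le⟩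
      · rcases h.nx _ hx _ h3.2 h2 with h4 | h4
        · exact absurd h4 hn
        · exact absurd h4 (h.hidden D hzB h1).2
      · exact absurd h3.1 (h.xy hx)
  · rw [hp]
    exact fun h1 => h.xz hx h1.1
  · rw [hp]
    exact D.finc.subset fun v hv => hv.2.1
  · intro z hz
    have hz' : z ∈ F.L (F.f M.s - 1) := hf ▸ hz
    rw [hp]
    constructor
    · intro h1
      obtain ⟨hzB, kz⟩ := hd.low_bot hF hM h1.2.1 hz'
      exact (a2 z hzB kz).2 ⟨h1.1, h1.2.2⟩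
    · intro h1
      have hzB : z ∈ d.X := hd.cvx _ hs.1 _ hs'.1 hs.2.2 hs'.2.2 z hz' h1.1.le h1.2.le
      have h2 := (a2 z hzB fun k => hF.k_la k (hF.la hz)).1 h1
      exact ⟨h2.1, D.xz hzB, h2.2⟩
  · rw [hp, hf', hf]
    intro v hv
    rcases hd.nZ hv.2.1 with h1 | h1 | h1
    · exact Or.inl (hd.xb h1 (hd.hid' h hV h1 hv.1).1).1
    · exact Or.inr (T_U hF hM h1)
    · exact Or.inr (ciU hF hM h1)
  · rw [hp, hf', hf]
    intro v hv z ez hz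
    have hzZ : z ∉ d.Z := fun hzZ =>
      ((hd.hid' h hV ((D.old hv.2.1 hzZ ez).resolve_right (hd.pk_nT h hx hv)) hv.1).2 z ez hz).1 hzZ
    rcases h.pk v hv.1 hv.2.1 z ez with h2 | h2 | h2 | ⟨h2, h3 | h3⟩
    · exact absurd h2 hzZ
    · exact Or.inl ⟨h2.1, hzZ, h2.2.trans hv.2.2⟩
    · exact Or.inr (Or.inr (Or.inl (h2.trans hv.2.2)))
    · rw [hv.2.2] at h2
      rcases a1 z h3.1 h2.symm with h4 | h4
      · exact Or.inr (Or.inl h4)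
      · exact Or.inr (Or.inr (Or.inr h4))
    · have h4 := h3.2
      rw [hv.2.2] at h4
      exact absurd h4 (h.xy hx)
  · exact fun z _ hg => absurd hg (Set.notMem_empty z)
  · rw [hp]
    intro v hv
    rcases hd.nZ hv.2.1 with h1 | h1 | h1
    exacts [(hd.hid' h hV h1 hv.1).1, hM.TK hF h1, ciK hF hM h1]
  · intro k hk ek
    rcases hd.nZ (D.iz hxI ek.symm) with h1 | h1 | h1
    · rcases h.xx h1 with h2 | h2
      · rcases a1 k h2 ek.symm with rfl | rfl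
        exacts [hs.2.2 hk, hs'.2.2 hk]
      · exact (hd.hid' h hV h1 h2).1 hk
    · exact hM.TK hF h1 hk
    · exact ciK hF hM h1 hk

theorem MC.gap {u' : Un J} (hu' : u' ∈ inU F X d o) {v : Vx J}
    (hv : v ∈ d.X ∧ v ∈ o.X ∧ v ∉ X.K) : ¬ (F.ρ u'.s < F.ρ v ∧ F.ρ v < F.ρ u'.s') := by
  intro l
  obtain ⟨hs, hs', ⟨-, h1, -⟩ | ⟨hx, hn, e, e', l', -⟩⟩ := hu'
  · omega
  · exact h.xz hv.2.1 (((hd.apex' h hV hx hn hs.2.1 hs'.2.1 e e' l').2.1 v hv.1 hv.2.2).1 l).1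

/-- The units left by an output have the right shape. -/
theorem MC.mo (hF : Lay F X Pr) (hM : MVal F X Pr M) : MO F X M (outU F X M d o) := by
  have D := hd.disc
  have lev : ∀ {v t : Vx J}, t ∈ F.Bot M.s M.s' → v ∈ F.Bot M.s M.s' → v ∈ F.L (F.f t) := by
    intro v t ht hv
    rw [hF.lf _ _ ht.1]
    exact hv.1
  have nxb : ∀ y, Over F M y → F.nx y ∈ F.Bot M.s M.s' := by
    intro y hy
    obtain ⟨n1, n2, -⟩ := hF.nx_mem hy.1.1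
    have := hy.1.2.1
    have := hy.2
    exact ⟨n1, by omega, by omega⟩
  have ins : ∀ u ∈ inU F X d o, ∀ y, F.Cov u y → y ∈ d.X ∧ F.nx y ∈ d.X := by
    intro u hu y c
    have e : F.f u.s = F.f M.s - 1 := hF.lf _ _ (hd.xb hu.1.1 hu.1.2.2).1
    obtain ⟨n1, n2, -⟩ := hF.nx_mem c.1
    have c1 := c.2.1
    have c2 := c.2.2
    exact ⟨hd.cvx _ hu.1.1 _ hu.2.1.1 hu.1.2.2 hu.2.1.2.2 y (e ▸ c.1) c1 c2.le,
      hd.cvx _ hu.1.1 _ hu.2.1.1 hu.1.2.2 hu.2.1.2.2 _ (e ▸ n1) (by omega) (by omega)⟩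
  refine ⟨?_, ?_, ?_, ?_, ?_, ?_⟩
  · rintro u' (⟨hs, hs', ha⟩ | ⟨y, hy, -, rfl⟩)
    · have b1 := hd.xb hs.1 hs.2.2
      have b2 := hd.xb hs'.1 hs'.2.2
      refine ⟨⟨lev b1 b1, lev b1 b2, ?_⟩, b1, b2⟩
      rcases ha with ha | ⟨hx, hn, e, e', l, hp⟩
      · exact Or.inl ha
      · exact Or.inr (hd.cap h hV hF hM hs hs' hx hn e e' l hp).1
    · exact ⟨hF.tv_val (hF.la hy.1.1), hy.1, nxb y hy⟩
  · intro y hy0
    have ly := hF.la hy0.1.1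
    by_cases hy' : y ∈ d.X ∧ F.nx y ∈ d.X
    swap
    · exact ⟨Tv F y, Or.inr ⟨y, hy0, hy', rfl⟩, cov_self (hF.tv_val ly)⟩
    obtain ⟨hy, hy1⟩ := hy'
    have ky : y ∉ X.K := fun k => hF.k_la k ly
    obtain ⟨n1, n2, n3⟩ := hF.nx_mem hy0.1.1
    have ky1 : F.nx y ∉ X.K := fun k => hF.k_la k (hF.la n1)
    have l1 : d.ρ y < d.ρ (F.nx y) := by
      rw [hd.rx _ hy ky, hd.rx _ hy1 ky1]
      omega
    rcases h.xx hy with h1 | h1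
    · have hb : y ≠ d.b := by
        rintro rfl
        have := D.px.hi _ hy1
        omega
      obtain ⟨v, hv, l, e, -⟩ := h.px.succ h1 hb
      rw [h.rx y hy h1] at l
      by_cases hvB : v ∈ d.X
      · rw [h.rx v hvB hv] at l
        obtain rfl := D.px.up_eq hy hvB hy1 e n3 l l1
        exact ⟨Tv F y, Or.inl ⟨⟨hy, h1, ky⟩, ⟨hvB, hv, ky1⟩, Or.inl ⟨rfl, n2, rfl⟩⟩,
          cov_self (hF.tv_val ly)⟩
      · obtain ⟨t, t', a1, a3, a5, a6, a7, a8, a9, -⟩ := hd.apex h hV hv hvB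
        rw [hd.rx _ hy ky] at l
        rcases a9 y h1 e.symm with rfl | rfl
        · exact ⟨⟨y, v, t', Pk d o v⟩, Or.inl ⟨a1, a3, Or.inr ⟨hv, hvB, e, a6, lt_trans a7 a8, rfl⟩⟩,
            ly, le_rfl, lt_trans a7 a8⟩
        · omega
    · obtain ⟨hx, hn⟩ := h.hidden D hy h1
      obtain ⟨t, t', a1, a3, a5, a6, a7, a8, -, a10, -⟩ := hd.apex h hV hx hn
      have c := (a10 y hy ky).2 ⟨h1, rfl⟩
      exact ⟨⟨t, o.ax y, t', Pk d o (o.ax y)⟩, Or.inl ⟨a1, a3,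
        Or.inr ⟨hx, hn, a5, a6, lt_trans a7 a8, rfl⟩⟩, lev (hd.xb a1.1 a1.2.2) hy0.1, c.1.le, c.2⟩
  · rintro u1 (h1 | ⟨y1, o1, n1, rfl⟩) u2 (h2 | ⟨y2, o2, n2, rfl⟩) y c1 c2
    · have g1 := hd.gap h hV h1 h2.1
      have g2 := hd.gap h hV h2 h1.1
      have g3 := hd.gap h hV h1 h2.2.1
      have g4 := hd.gap h hV h2 h1.2.1
      have d1 := c1.2.1
      have d2 := c1.2.2
      have d3 := c2.2.1
      have d4 := c2.2.2
      have es : u1.s = u2.s :=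
        hF.inj (hd.xb h1.1.1 h1.1.2.2).1 (hd.xb h2.1.1 h2.1.2.2).1 (by omega)
      have es' : u1.s' = u2.s' :=
        hF.inj (hd.xb h1.2.1.1 h1.2.1.2.2).1 (hd.xb h2.2.1.1 h2.2.1.2.2).1 (by omega)
      obtain ⟨p1, p1', ⟨x1, r1, k1⟩ | ⟨hx1, hn1, e1, e1', l1, k1⟩⟩ := h1 <;>
        obtain ⟨p2, p2', ⟨x2, r2, k2⟩ | ⟨hx2, hn2, e2, e2', l2, k2⟩⟩ := h2
      · exact Un.ext es (by rw [x1, x2, es]) es' (by rw [k1, k2])
      · obtain ⟨v, -, -, l⟩ := (hd.apex' h hV hx2 hn2 p2.2.1 p2'.2.1 e2 e2' l2).2.2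
        rw [es, es'] at r1
        omega
      · obtain ⟨v, -, -, l⟩ := (hd.apex' h hV hx1 hn1 p1.2.1 p1'.2.1 e1 e1' l1).2.2
        rw [es, es'] at l
        omega
      · obtain ⟨-, a1, v, hv, kv, l⟩ := hd.apex' h hV hx1 hn1 p1.2.1 p1'.2.1 e1 e1' l1
        have a2 := (hd.apex' h hV hx2 hn2 p2.2.1 p2'.2.1 e2 e2' l2).2.1
        have b1 := ((a1 v hv kv).1 l).2
        rw [es, es'] at l
        have b2 := ((a2 v hv kv).1 l).2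
        have ex : u1.x = u2.x := b1.symm.trans b2
        exact Un.ext es ex es' (by rw [k1, k2, ex])
    · obtain rfl := hF.tv_cov (hF.la o2.1.1) c2
      exact absurd (ins u1 h1 y c1) n2
    · obtain rfl := hF.tv_cov (hF.la o1.1.1) c1
      exact absurd (ins u2 h2 y c2) n1
    · rw [← hF.tv_cov (hF.la o1.1.1) c1, ← hF.tv_cov (hF.la o2.1.1) c2]
  · rintro u' (⟨hs, hs', ha⟩ | ⟨y, hy, -, rfl⟩) v (hv | hv)
    · rcases hv with rfl | rfl | rfl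
      · exact Or.inl (hd.xb hs.1 hs.2.2)
      · rcases ha with ha | ha
        · rw [ha.1]
          exact Or.inl (hd.xb hs.1 hs.2.2)
        · exact Or.inr (hd.ci (h.new_I ha.1 ha.2.1))
      · exact Or.inl (hd.xb hs'.1 hs'.2.2)
    · rcases ha with ha | ha
      · rw [ha.2.2] at hv
        exact hv.elim
      · rw [ha.2.2.2.2.2] at hv
        rcases hd.nZ hv.2.1 with h1 | h1 | h1
        · exact Or.inl (hd.xb h1 (hd.hid' h hV h1 hv.1).1)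
        · exact absurd (hd.eY ▸ h1) (hd.pk_nT h ha.1 hv)
        · exact Or.inr h1
    · rcases hv with rfl | rfl | rfl
      exacts [Or.inl hy.1, Or.inl hy.1, Or.inl (nxb y hy)]
    · exact hv.elim
  · intro u1 a1 u2 a2 n1 n2 e
    have b1 := out_cap a1 n1
    have b2 := out_cap a2 n2
    rcases h.nx _ b1.2.1 _ b2.2.1 e with c | c
    · exact b1.2.2.1 c
    · exact b2.2.2.1 c
  · rintro u' (⟨hs, hs', ha | ⟨hx, hn, e, e', l, hp⟩⟩ | ⟨y, -, -, rfl⟩)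
    · exact ⟨fun v hv => by rw [ha.2.2] at hv; exact hv.elim, fun n => absurd ha.1 n⟩
    · exact (hd.cap h hV hF hM hs hs' hx hn e e' l hp).2
    · exact kf_tv y

theorem MC.apex_unit {x : Vx J} (hx : x ∈ o.X) (hn : x ∉ d.X) :
    ∃ u' ∈ outU F X M d o, u'.x = x ∧ u'.x ≠ u'.s ∧ u'.pk = Pk d o x := by
  obtain ⟨p, q, p1, q1, e1, e2, l1, l2, -⟩ := hd.apex h hV hx hn
  exact ⟨⟨p, x, q, Pk d o x⟩, Or.inl ⟨p1, q1, Or.inr ⟨hx, hn, e1, e2, lt_trans l1 l2, rfl⟩⟩, rfl,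
    e1.ne', rfl⟩

/-- The part coloured from the cell is the part that the disc lemmas colour, and the rest. -/
theorem MC.mm_eq (hF : Lay F X Pr) (hM : MVal F X Pr M) :
    MM X M (outU F X M d o) = MX d o ∪ R := by
  have mo := hd.mo h hV hF hM
  have key : ∀ v ∈ CI X M, ∀ u' ∈ outU F X M d o, v ∈ u'.T → v ∈ o.X := by
    intro v hv u' hu' k
    obtain ⟨vu, b1, b2⟩ := mo.val u' hu'
    rcases tsub vu k with e | e | ⟨e, c⟩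
    · exact (botNot (e ▸ b1) (ciU hF hM hv)).elim
    · exact (botNot (e ▸ b2) (ciU hF hM hv)).elim
    · exact e ▸ (out_cap hu' (cap_ne vu c)).2.1
  ext v
  constructor
  · rintro ⟨h1, h2⟩
    refine ((hd.eI v).1 h1).imp_left fun h1 => ⟨h1, ?_⟩
    have h3 := DD.mem_I.1 h1
    rintro (k | k)
    · obtain ⟨u', hu', e, -⟩ := hd.apex_unit h hV k h3.2.1
      exact (h2 u' hu').1 (Or.inr (Or.inl e.symm))
    · rcases h.ap v k.1 h3.1 with h4 | h4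
      · obtain ⟨u', hu', -, -, e⟩ := hd.apex_unit h hV h4.1 h4.2
        apply (h2 u' hu').2
        rw [e]
        exact ⟨k.1, h3.1, rfl⟩
      · exact h.xy k.2 h4.1
  · rintro (⟨h1, h2⟩ | h1)
    · refine ⟨hd.ci h1, fun u' hu' => ⟨fun k => h2 (Or.inl (key v (hd.ci h1) u' hu' k)), fun k => ?_⟩⟩
      have vu := (mo.val u' hu').1
      obtain ⟨-, a, -, e⟩ := out_cap hu' (cap_ne vu (capOf vu k))
      rw [e] at k
      exact h2 (Or.inr ⟨k.1, by rw [k.2.2]; exact a⟩)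
    · have h2 := (hd.eI v).2 (Or.inr h1)
      exact ⟨h2, fun u' hu' => ⟨fun k => h.xz (key v h2 u' hu' k) (h.zz (hd.rz h1)),
        fun k => (out_pk hu' k).2 (hd.rz h1)⟩⟩

end

end Pool.Agent.P.MP_08fd93_co.FN
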