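import Pool.Agent.P.MP_08fd93_co.FN.N6

/-! Dynamic layer: the edges and tokens of the top path; triangles. -/

set_option autoImplicit false

namespace Pool.Agent.P.MP_08fd93_co.FN

open OV PkPrtP FB

/-- Strict extension into a finite part that hangs on a triangle. -/
theorem tri_glob {W : Type} [Infinite W] {H : SimpleGraph W} (hP : Pl H Set.univ) (T : TA H)
    (hO : OE H) (hN : NJ H Set.univ) {D : Set W} {a b e : W} (ab : H.Adj a b) (be : H.Adj b e)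
    (ae : H.Adj a e) (fD : D.Finite) (hd : Disjoint D {a, b, e}) (hn : Nb H D ⊆ D ∪ {a, b, e}) :
    Tri H D a b e := by
  obtain ⟨Z, cZ, fZ, dZ⟩ := hO (D ∪ {a, b, e}) (fD.union (Set.toFinite _))
  obtain ⟨z, hz⟩ : Z.Nonempty := by
    by_contra k
    rw [Set.not_nonempty_iff_eq_empty.1 k, Set.compl_empty] at fZ
    exact Set.infinite_univ fZ
  have sZ : Z ⊆ ({a, b, e} : Set W)ᶜ := fun x hx k => Set.disjoint_left.1 dZ hx (Or.inr k)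
  have zz : Z ⊆ {y | Conn H ({a, b, e} : Set W)ᶜ z y} := fun x hx => (cZ z hz x hx).up sZ
  have out : ∀ y, Conn H ({a, b, e} : Set W)ᶜ z y → y ∉ ({a, b, e} : Set W) :=
    fun y k => k.mem (sZ hz)
  have key : ∀ x y w : W, H.Adj y w → x ≠ y → x ≠ w → ({a, b, e} : Set W) = {x, y, w} →
      x ∈ Nb H {y | Conn H ({a, b, e} : Set W)ᶜ z y} := by
    intro x y w yw n1 n2 eq
    by_contra hc
    refine hN ({y | Conn H ({a, b, e} : Set W)ᶜ z y} ∪ {y, w})ᶜ (Set.subset_univ _)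
      (fZ.subset fun t ht k => ht (Or.inl (zz k))) ⟨x, ?_⟩ y w (Or.inr yw) ?_
    · rintro (k | k | k)
      exacts [out x k (eq ▸ Or.inl rfl), n1 k, n2 k]
    · rintro t ⟨r, hr, tr⟩
      by_contra ht
      have h1 : Conn H ({a, b, e} : Set W)ᶜ z t := by
        by_contra k
        exact ht (Or.inl fun m => m.elim k fun m => ht (Or.inr m))
      refine hr (Or.inl (h1.snoc (out t h1) (fun k => ?_) tr))
      rw [eq] at k
      rcases k with rfl | k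
      exacts [hc ⟨t, h1, tr.symm⟩, hr (Or.inr k)]
  refine pk_Tri1 W H hP _ (T.tn _) {y | Conn H ({a, b, e} : Set W)ᶜ z y} Zᶜ D a b e ab be ae
    (isConn_comp _ z) ?_ ?_ hd (fun x hx k => hx (Or.inl (zz k))) fZ (hN.mono (Set.subset_univ _))
    hn (Nat.lt_succ_self _)
  · rintro x (rfl | rfl | rfl)
    · exact key x b e be ab.ne ae.ne rfl
    · exact key x a e ae ab.ne' be.ne (Set.insert_comm _ _ _)
    · exact key x a b ab ae.ne' be.ne' (by rw [Set.pair_comm b x, Set.insert_comm])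
  · refine Set.disjoint_left.2 fun x hx k => k.elim (fun k => ?_) (out x hx)
    obtain ⟨r, t, -, -, h3, e1, h4, h5⟩ := (Conn.symm hx).exit k
      fun m => Set.disjoint_left.1 dZ hz (Or.inl m)
    exact (hn ⟨r, h3, e1.symm⟩).elim h5 h4

variable {J : Type} {F : FD J} {X : XD J} {Pr : Set (Vx J)} {M : MU J} {p : PD J}
  {Ok : Un J → Prop}

theorem Lay.tri (hF : Lay F X Pr) (T : TA F.Γ) {D : Set (Vx J)} {a b e : Vx J} (ab : F.Γ.Adj a b)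
    (be : F.Γ.Adj b e) (ae : F.Γ.Adj a e) (fD : D.Finite) (hd : Disjoint D {a, b, e})
    (hn : Nb F.Γ D ⊆ D ∪ {a, b, e}) : Tri F.Γ D a b e := by
  have : Nonempty J := ⟨a.1⟩
  exact tri_glob hF.fine.pl T hF.fine.oe hF.nj ab be ae fD hd hn

/-- a vertex of the top path is a visible vertex of the row or an apex -/
theorem MVal.t_cases (hF : Lay F X Pr) (hM : MVal F X Pr M) {v : Vx J} (hv : v ∈ M.T) :
    (v ∈ F.Top M.s M.s' ∧ v ∉ M.Pk) ∨ ∃ u ∈ M.us, u.x ≠ u.s ∧ v = u.x := by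
  obtain ⟨u, hu, hT⟩ := id hv
  obtain ⟨vu, t1, t2⟩ := hM.val u hu
  rcases tsub vu hT with e | e | ⟨e, c⟩
  exacts [Or.inl ⟨e ▸ t1, fun k => hM.pkT hF k hv⟩, Or.inl ⟨e ▸ t2, fun k => hM.pkT hF k hv⟩,
    Or.inr ⟨u, hu, cap_ne vu c, e⟩]

/-- the edges of the top path are the edges of its units -/
theorem MVal.t_adj (hF : Lay F X Pr) (hM : MVal F X Pr M) {a b : Vx J} (ha : a ∈ M.T)
    (hb : b ∈ M.T) (e : F.Γ.Adj a b) : ∃ u ∈ M.us, Ed u a b ∨ Ed u b a := by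
  have oo : ∀ a b, a ∈ F.Top M.s M.s' → a ∉ M.Pk → b ∈ F.Top M.s M.s' → b ∉ M.Pk →
      F.ρ b = F.ρ a + 1 → ∃ u ∈ M.us, Ed u a b := by
    intro a b a1 a2 b1 b2 r
    have := b1.2.2
    obtain ⟨u, hu, c⟩ := hM.cov a a1 (by omega)
    have vu := (hM.val u hu).1
    have l := hM.lev hF hu
    obtain rfl := (cov_mem hF vu c).resolve_right fun k => a2 ⟨u, hu, k⟩
    have n : u.x = u.s := by
      by_contra n
      have cu := cap_of vu n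
      have := cu.lt
      exact b2 ⟨u, hu, (cu.old b (l ▸ b1.1)).2 ⟨by omega, by omega⟩⟩
    exact ⟨u, hu, Or.inl ⟨n, rfl, hF.inj (l ▸ b1.1) vu.hs' (r.trans (triv_of vu n).symm)⟩⟩
  have ox : ∀ a, a ∈ F.Top M.s M.s' → a ∉ M.Pk → ∀ u ∈ M.us, u.x ≠ u.s → F.Γ.Adj a u.x →
      Ed u a u.x ∨ Ed u u.x a := by
    intro a a1 a2 u hu n e
    have vu := (hM.val u hu).1
    have cu := cap_of vu n
    have m : a ∈ F.L (F.f u.s) := hM.lev hF hu ▸ a1.1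
    have t := cu.xn a m e.symm
    have t1 := t.2.1
    have t2 := t.2.2
    have t3 : ¬ (F.ρ u.s < F.ρ a ∧ F.ρ a < F.ρ u.s') := fun k => a2 ⟨u, hu, (cu.old a m).2 k⟩
    by_cases k : F.ρ a = F.ρ u.s
    · exact Or.inl (Or.inr ⟨n, Or.inl ⟨hF.inj m vu.hs k, rfl⟩⟩)
    · exact Or.inr (Or.inr ⟨n, Or.inr ⟨rfl, hF.inj m vu.hs' (by omega)⟩⟩)
  rcases hM.t_cases hF ha with a1 | ⟨u, hu, n, rfl⟩ <;>
    rcases hM.t_cases hF hb with b1 | ⟨t, ht, n', rfl⟩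
  · rcases (hF.adj_iff a1.1.1 b1.1.1).1 e with r | r
    · exact (oo a b a1.1 a1.2 b1.1 b1.2 r).imp fun u k => ⟨k.1, Or.inl k.2⟩
    · exact (oo b a b1.1 b1.2 a1.1 a1.2 r).imp fun u k => ⟨k.1, Or.inr k.2⟩
  · exact ⟨t, ht, ox a a1.1 a1.2 t ht n' e⟩
  · exact ⟨u, hu, (ox b b1.1 b1.2 u hu n e.symm).symm⟩
  · exact absurd e (hM.nadj u hu t ht n n')

theorem MVal.nx (hF : Lay F X Pr) (hM : MVal F X Pr M) {u : Un J} (hu : u ∈ M.us)
    (n : u.x = u.s) : u.s' = F.nx u.s := by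
  have vu := (hM.val u hu).1
  obtain ⟨n1, n2, -⟩ := hF.nx_mem vu.hs
  exact hF.inj vu.hs' n1 ((triv_of vu n).trans n2.symm)

theorem MVal.in_uni (hF : Lay F X Pr) (hM : MVal F X Pr M) {u t : Un J} (hu : u ∈ M.us)
    (ht : t ∈ M.us) {v : Vx J} (i1 : p.In F u v) (i2 : p.In F t v) : u = t := by
  have vu := (hM.val u hu).1
  have vt := (hM.val t ht).1
  have l1 := vlt vu
  have l2 := vlt vt
  by_contra ne
  have ap := hM.ap hF hu ht ne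
  unfold Ap at ap
  rcases i1 with ⟨e1, a⟩ | ⟨e1, a⟩ <;> rcases i2 with ⟨e2, b⟩ | ⟨e2, b⟩
  · rw [← e1] at l1 ap
    rw [← e2] at l2 ap
    omega
  · exact not_R_Lt hF (e1 ▸ vu.hs) a b
  · exact not_R_Lt hF (e2 ▸ vt.hs) b a
  · rw [← e1] at l1 ap
    rw [← e2] at l2 ap
    omega

theorem MVal.x_uni (hF : Lay F X Pr) (hM : MVal F X Pr M) {u t : Un J} (hu : u ∈ M.us)
    (ht : t ∈ M.us) (n : u.x ≠ u.s) (n' : t.x ≠ t.s) (e : u.x = t.x) : u = t := by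
  have v1 := (hM.val u hu).1
  have v2 := (hM.val t ht).1
  have hl := (hM.lev hF hu).trans (hM.lev hF ht).symm
  have c1 := cap_of v1 n
  have c2 := cap_of v2 n'
  have t1 := c2.xn u.s (hl ▸ v1.hs) (e ▸ c1.sx.symm)
  have t2 := c2.xn u.s' (hl ▸ v1.hs') (e ▸ c1.xs)
  exact hM.uni u hu t ht u.s (cov_self v1) ⟨t1.1, t1.2.1, lt_of_lt_of_le (vlt v1) t2.2.2⟩

/-- The top edges in `L` are free: trivial units are paid below, the edges of a cap are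
monochromatic or paid by an end or by the apex, which pays the edge to `τ u`. -/
theorem tok_top (hF : Lay F X Pr) (hM : MVal F X Pr M) {L : Set (Sym2 (Vx J))}
    (hL : L ⊆ PE F.Γ M.T) (τ : Un J → Vx J)
    (h1 : ∀ u ∈ M.us, u.x = u.s → s(u.s, u.s') ∈ L → p.Dn F u.s)
    (h2 : ∀ u ∈ M.us, u.x ≠ u.s → s(u.s, u.x) ∈ L →
      p.cx u = p.c u.s.1 ∨ p.R F u.s ∨ (p.cx u ≠ p.c u.s'.1 ∧ τ u = u.s))
    (h3 : ∀ u ∈ M.us, u.x ≠ u.s → s(u.x, u.s') ∈ L →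
      p.cx u = p.c u.s'.1 ∨ p.Lt F u.s' ∨ (p.cx u ≠ p.c u.s.1 ∧ τ u = u.s'))
    {c : Vx J → Col} (hc : p.FolT M c) (σ : Col ≃ Col) :
    Tok L (fun v => σ (c v)) (p.AT F M) := by
  suffices h : Tok L c (p.AT F M) by
    obtain ⟨ω, w1, w2⟩ := h
    exact ⟨ω, w1.perm σ, by rwa [Pay.perm]⟩
  have nx : ∀ u ∈ M.us, ∀ t ∈ M.us, t.x ≠ t.s → ∀ v, p.In F u v → v ≠ t.x := by
    intro u hu t ht n v i e
    have vu := (hM.val u hu).1
    have := (cap_of (hM.val t ht).1 n).xu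
    rw [← e, hM.lev hF ht, ← hM.lev hF hu] at this
    rcases In.ends i with rfl | rfl
    exacts [lU vu.hs this, lU vu.hs' this]
  refine tok_of (fun a b => ∃ u ∈ M.us,
    (u.x = u.s ∧ p.In F u a ∧ a.1 ∈ p.dn ∧ a ≠ b ∧ (b = u.s ∨ b = u.s')) ∨
    (u.x ≠ u.s ∧ ((p.In F u a ∧ b = u.x) ∨
      (a = u.x ∧ b = τ u ∧ p.cx u ≠ p.c u.s.1 ∧ p.cx u ≠ p.c u.s'.1)))) ?_ ?_ ?_
  · rintro x y z ⟨u, hu, ⟨a1, a2, -, a4, a5⟩ | ⟨a1, ⟨a2, a3⟩ | ⟨a2, a3, -⟩⟩⟩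
      ⟨t, ht, ⟨b1, b2, -, b4, b5⟩ | ⟨b1, ⟨b2, b3⟩ | ⟨b2, b3, -⟩⟩⟩
    · obtain rfl := hM.in_uni hF hu ht a2 b2
      rcases In.ends a2 with e | e <;> rcases a5 with e1 | e1 <;> rcases b5 with e2 | e2 <;>
        simp_all
    · exact absurd (hM.in_uni hF hu ht a2 b2 ▸ a1) b1
    · exact absurd b2 (nx u hu t ht b1 x a2)
    · exact absurd (hM.in_uni hF ht hu b2 a2 ▸ b1) a1
    · rw [a3, b3, hM.in_uni hF hu ht a2 b2]
    · exact absurd b2 (nx u hu t ht b1 x a2)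
    · exact absurd a2 (nx t ht u hu a1 x b2)
    · exact absurd a2 (nx t ht u hu a1 x b2)
    · rw [a3, b3, hM.x_uni hF hu ht a1 b1 (a2.symm.trans b2)]
  · have key : ∀ u ∈ M.us, ∀ a b, Ed u a b → F.Γ.Adj a b → s(a, b) ∈ L → c a = c b ∨
        (∃ u ∈ M.us, (u.x = u.s ∧ p.In F u a ∧ a.1 ∈ p.dn ∧ a ≠ b ∧ (b = u.s ∨ b = u.s')) ∨
          (u.x ≠ u.s ∧ ((p.In F u a ∧ b = u.x) ∨
            (a = u.x ∧ b = τ u ∧ p.cx u ≠ p.c u.s.1 ∧ p.cx u ≠ p.c u.s'.1)))) ∨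
        ∃ u ∈ M.us, (u.x = u.s ∧ p.In F u b ∧ b.1 ∈ p.dn ∧ b ≠ a ∧ (a = u.s ∨ a = u.s')) ∨
          (u.x ≠ u.s ∧ ((p.In F u b ∧ a = u.x) ∨
            (b = u.x ∧ a = τ u ∧ p.cx u ≠ p.c u.s.1 ∧ p.cx u ≠ p.c u.s'.1))) := by
      intro u hu a b ed e k
      obtain ⟨c1, c2, c3⟩ := hc u hu
      rcases ed with ⟨n, rfl, rfl⟩ | ⟨n, ⟨rfl, rfl⟩ | ⟨rfl, rfl⟩⟩
      · have es := hM.nx hF hu n
        rcases h1 u hu n k with m | m | m
        · exact Or.inl (by rw [c1, c2, es, m])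
        · exact Or.inr (Or.inl ⟨u, hu, Or.inl ⟨n, Or.inl ⟨rfl, m.1⟩, m.2, e.ne, Or.inr rfl⟩⟩)
        · rw [← es] at m
          exact Or.inr (Or.inr ⟨u, hu, Or.inl ⟨n, Or.inr ⟨rfl, m.1⟩, m.2, e.ne', Or.inl rfl⟩⟩)
      · by_cases q : p.cx u = p.c u.s.1
        · exact Or.inl (by rw [c1, c3 n, q])
        rcases (h2 u hu n k).resolve_left q with m | m
        · exact Or.inr (Or.inl ⟨u, hu, Or.inr ⟨n, Or.inl ⟨Or.inl ⟨rfl, m⟩, rfl⟩⟩⟩)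
        · exact Or.inr (Or.inr ⟨u, hu, Or.inr ⟨n, Or.inr ⟨rfl, m.2.symm, q, m.1⟩⟩⟩)
      · by_cases q : p.cx u = p.c u.s'.1
        · exact Or.inl (by rw [c2, c3 n, q])
        rcases (h3 u hu n k).resolve_left q with m | m
        · exact Or.inr (Or.inr ⟨u, hu, Or.inr ⟨n, Or.inl ⟨Or.inr ⟨rfl, m⟩, rfl⟩⟩⟩)
        · exact Or.inr (Or.inl ⟨u, hu, Or.inr ⟨n, Or.inr ⟨rfl, m.2.symm, m.1, q⟩⟩⟩)
    intro a b k
    obtain ⟨ha, hb, e⟩ := mem_PE.1 (hL k)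
    obtain ⟨u, hu, ed | ed⟩ := hM.t_adj hF ha hb e
    · exact key u hu a b ed e k
    · exact (key u hu b a ed e.symm (Sym2.eq_swap ▸ k)).imp Eq.symm Or.symm
  · rintro x y ⟨u, hu, ⟨a1, a2, a3, a4, a5⟩ | ⟨a1, ⟨a2, rfl⟩ | ⟨a2, -, a3⟩⟩⟩ - ne
    · obtain ⟨c1, c2, -⟩ := hc u hu
      refine Or.inl ⟨u, hu, a1, fun q => ne ?_, a2, a3⟩
      rcases In.ends a2 with rfl | rfl <;> rcases a5 with rfl | rfl
      exacts [rfl, by rw [c1, c2, q], by rw [c1, c2, q], rfl]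
    · obtain ⟨c1, c2, c3⟩ := hc u hu
      refine Or.inr (Or.inl ⟨u, hu, a1, Or.inl ⟨a2, fun q => ne ?_⟩⟩)
      rw [c3 a1, q]
      rcases In.ends a2 with rfl | rfl
      exacts [c1.symm, c2.symm]
    · exact Or.inr (Or.inl ⟨u, hu, a1, Or.inr ⟨a2, a3⟩⟩)

/-- if the right end of a unit is a cut vertex and the unit is the first one, it is the only one -/
theorem MVal.single (hF : Lay F X Pr) (hM : MVal F X Pr M) {u : Un J} (hu : u ∈ M.us)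
    (e : u.s = M.s) (hp : u.s' ∈ Pr) : u.s' = M.s' ∧ M.us = {u} := by
  obtain ⟨vu, t1, t2⟩ := hM.val u hu
  have l := vlt vu
  have e' : u.s' = M.s' := by
    by_contra ne
    have lt : F.ρ u.s' < F.ρ M.s' := lt_of_le_of_ne t2.2.2 fun k => ne (hF.inj t2.1 hM.hs' k)
    obtain ⟨t, ht, c⟩ := hM.cov u.s' t2 lt
    have vt := (hM.val t ht).1
    have c1 := c.2.1
    have c2 := c.2.2
    have n : u ≠ t := by
      rintro rfl
      omega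
    have ap := hM.ap hF hu ht n
    unfold Ap at ap
    have := vlt vt
    have q : t.s = u.s' := hF.inj vt.hs c.1 (by omega)
    have := hM.mx t ht (q ▸ hp)
    rw [q, ← e] at this
    rw [this] at l
    omega
  refine ⟨e', Set.eq_singleton_iff_unique_mem.2 ⟨hu, fun t ht => ?_⟩⟩
  obtain ⟨vt, s1, s2⟩ := hM.val t ht
  by_contra ne
  have ap := hM.ap hF ht hu ne
  unfold Ap at ap
  have := vlt vt
  have := s1.2.1
  have := s2.2.2
  rw [e, e'] at ap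
  omega

end Pool.Agent.P.MP_08fd93_co.FN
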