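import Pool.Agent.P.MP_08fd93_co.FN.N7
import Pool.Agent.P.MP_08fd93_co.FE.KS
import Pool.Agent.P.MP_08fd93_co.FK.K1

/-! Integration: a static system of pins gives the colouring. -/

set_option autoImplicit false

namespace Pool.Agent.P.MP_08fd93_co.FN

open OV PkPrtP FB FE

variable {J : Type} {F : FD J} {X : XD J} {Pr : Set (Vx J)} {M : MU J} {d : DD (Vx J)}
  {V R B : Set (Vx J)} {p : PD J}

open Classical in
/-- The standard colour of the apex of a cap. -/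
noncomputable def cxS (F : FD J) (p : PD J) (u : Un J) : Col :=
  if p.c u.s.1 = p.c u.s'.1 then ((p.c u.s.1).1, !(p.c u.s.1).2)
  else if p.R F u.s then p.c u.s.1 else p.c u.s'.1

/-- The static part of a plan; apexes get the standard colour. -/
structure Plan0 (F : FD J) (X : XD J) (p : PD J) : Prop where
  alt : ∀ j, p.cls (j + 1) ≠ p.cls j
  cl : ∀ v ∈ F.LA, (p.c v.1).1 = p.cls (F.f v)
  otr : ∀ a, ∀ v ∈ F.LA ∪ X.K, p.o (tr a v) = tr a (p.o v)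
  ktr : ∀ a, ∀ v ∈ F.LA ∪ X.K, p.kc (tr a v) = tr a (p.kc v)
  kmono : ∀ k ∈ X.K, ∀ y ∈ F.LA ∪ X.K, F.Γ.Adj k y → p.c y.1 = p.c k.1 → p.o k = y ∧ p.o y = k
  mono : ∀ y ∈ F.LA, p.c (F.nx y).1 = p.c y.1 → p.o y = F.nx y ∧ p.o (F.nx y) = y
  cx : ∀ u, p.cx u = cxS F p u

theorem Plan0.plan (hF : Lay F X Pr) (h : Plan0 F X p) {Ok : Un J → Prop}
    (k : ∀ u, Val F ∅ u → Ok u → u.x ≠ u.s →
      p.c u.s.1 = p.c u.s'.1 ∨ p.R F u.s ∨ p.Lt F u.s') : Plan F X p Ok := by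
  classical
  have ne : ∀ a : Col, (a.1, !a.2) ≠ a := by decide
  refine ⟨h.alt, h.cl, h.otr, h.ktr, h.kmono, h.mono, fun a u hu => ?_, fun u hu _ _ => ?_,
    fun u hu o n e => ?_, fun u hu o n e => ?_⟩
  · have r : p.R F (tr a u.s) ↔ p.R F u.s := by
      unfold PD.R
      rw [h.otr a _ (Or.inl hu.hs), hF.nx_tr a hu.hs, (tr_inj a).eq_iff]
    rw [h.cx, h.cx]
    exact if_congr Iff.rfl rfl (if_congr r rfl rfl)
  · rw [h.cx]
    unfold cxS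
    split_ifs
    exacts [h.cl _ hu.hs, h.cl _ hu.hs, by rw [h.cl _ (hF.la hu.hs'), hF.lf _ _ hu.hs']]
  · rw [h.cx] at e ⊢
    unfold cxS at e ⊢
    split_ifs at e ⊢ with q r
    exacts [absurd e (ne _), ⟨r, q⟩, absurd e.symm q]
  · rw [h.cx] at e
    unfold cxS at e
    split_ifs at e with q r
    exacts [absurd (e.trans q.symm) (ne _), absurd e q,
      ((k u hu o n).resolve_left q).resolve_left r]

theorem Plan0.dbl (hF : Lay F X Pr) (h : Plan0 F X p) {y : Vx J} (hy : y ∈ F.LA)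
    (e : p.c (F.nx y).1 = p.c y.1) : p.R F y ∧ p.Lt F (F.nx y) := by
  obtain ⟨m1, m2⟩ := h.mono y hy e
  refine ⟨m1, ?_, by rw [m2]⟩
  rw [m2, hF.lf _ _ (hF.nx_mem hy).1]
  exact hy

theorem Plan0.up_pt (hF : Lay F X Pr) (h : Plan0 F X p) {y : Vx J} (hy : y ∈ F.LA)
    (u : p.Up F y) : p.R F y ∨ p.Lt F (F.nx y) :=
  u.elim (fun e => Or.inl (h.dbl hF hy e).1) (Or.imp And.left And.left)

theorem Plan0.up_dn (hF : Lay F X Pr) (h : Plan0 F X p) {y : Vx J} (hy : y ∈ F.LA)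
    (u : p.Up F y) (v : p.Dn F y) : p.R F y ∧ p.Lt F (F.nx y) := by
  rcases u with u | u | u
  · exact h.dbl hF hy u
  all_goals rcases v with v | v | v
  exacts [h.dbl hF hy v, absurd v.2 u.2, ⟨u.1, v.1⟩, h.dbl hF hy v, ⟨v.1, u.1⟩, absurd v.2 u.2]

section chain

variable (hF : Lay F X Pr) {u : Un J} (hu : Val F ∅ u)
  (pt : ∀ y, F.Cov u y → p.R F y ∨ p.Lt F (F.nx y))
include hF hu pt

omit hu in
/-- tokens that point to the left go on pointing to the left -/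
theorem chain_l {i : ℤ} (l : F.ρ u.s ≤ i) (h : ¬ p.R F (F.l (F.f u.s) i)) {k : ℤ} (l1 : i < k)
    (l2 : k ≤ F.ρ u.s') : p.Lt F (F.l (F.f u.s) k) := by
  have step : ∀ k, F.ρ u.s ≤ k → k < F.ρ u.s' → ¬ p.R F (F.l (F.f u.s) k) →
      p.Lt F (F.l (F.f u.s) (k + 1)) := fun k a b n => by
    have := (pt _ ⟨hF.l_mem _ k, by rwa [hF.rho], by rwa [hF.rho]⟩).resolve_left n
    rwa [hF.nx_l] at this
  induction k, (show i + 1 ≤ k from l1) using Int.leInduction with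
  | base => exact step i l (by omega) h
  | succ k hk ih =>
    exact step k (by omega) (by omega) fun r =>
      not_R_Lt hF (hF.la (hF.l_mem _ k)) r (ih (by omega) (by omega))

theorem chain_end : p.R F u.s ∨ p.Lt F u.s' := by
  by_cases r : p.R F u.s
  · exact Or.inl r
  · have := chain_l hF pt le_rfl (by rwa [hF.l_rho hu.hs]) (vlt hu) le_rfl
    rw [hF.l_rho hu.hs'] at this
    exact Or.inr this

omit hu in
/-- right of an edge with a token from the right all tokens point to the left -/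
theorem chain_r {e : Vx J} (c : F.Cov u e) (h : p.Lt F (F.nx e)) {k : ℤ} (l1 : F.ρ e < k)
    (l2 : k ≤ F.ρ u.s') : p.Lt F (F.l (F.f u.s) k) := by
  obtain ⟨n1, n2, -⟩ := hF.nx_mem c.1
  have c1 := c.2.1
  rcases eq_or_lt_of_le (show F.ρ (F.nx e) ≤ k by omega) with rfl | l
  · rwa [hF.l_rho n1]
  · exact chain_l hF pt (i := F.ρ (F.nx e)) (by omega)
      (by rw [hF.l_rho n1]; exact fun r => not_R_Lt hF (hF.la n1) r h) l l2

theorem chain_dbl {e : Vx J} (c : F.Cov u e) (h : p.R F e ∧ p.Lt F (F.nx e)) :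
    p.R F u.s ∧ p.Lt F u.s' := by
  refine ⟨?_, ?_⟩
  · by_contra r
    rcases eq_or_lt_of_le c.2.1 with l | l
    · exact r (hF.inj c.1 hu.hs l.symm ▸ h.1)
    · have := chain_l hF pt le_rfl (by rwa [hF.l_rho hu.hs]) l c.2.2.le
      rw [hF.l_rho c.1] at this
      exact not_R_Lt hF (hF.la c.1) h.1 this
  · have := chain_r hF pt c h.2 c.2.2 le_rfl
    rwa [hF.l_rho hu.hs'] at this

omit hu in
theorem chain_uni {e e' : Vx J} (c : F.Cov u e) (c' : F.Cov u e')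
    (h : p.R F e ∧ p.Lt F (F.nx e)) (h' : p.R F e' ∧ p.Lt F (F.nx e')) : e = e' := by
  refine hF.inj c.1 c'.1 ?_
  by_contra n
  rcases lt_or_gt_of_ne n with l | l
  · have := chain_r hF pt c h.2 l c'.2.2.le
    rw [hF.l_rho c'.1] at this
    exact not_R_Lt hF (hF.la c'.1) h'.1 this
  · have := chain_r hF pt c' h'.2 l c.2.2.le
    rw [hF.l_rho c.1] at this
    exact not_R_Lt hF (hF.la c.1) h.1 this

end chain

/-- Data of a system of pins: `G` edges that ordinary caps do not cover, `Vs` visible vertices,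
`S e` strict edges under the top edge `e`, `Cc` prescribed caps over the edges `Hc`. -/
structure PQ (J : Type) where
  G : Set (Vx J)
  Vs : Set (Vx J)
  S : Vx J → Set (Sym2 (Vx J))
  Cc : Un J → Prop
  Hc : Set (Vx J)

/-- The unit hides no visible vertex. -/
def PQ.Nv (q : PQ J) (F : FD J) (u : Un J) : Prop := ∀ v ∈ q.Vs, v ∈ F.L (F.f u.s) → v ∉ u.pk

/-- Ordinary units. -/
def PQ.OkS (q : PQ J) (F : FD J) (u : Un J) : Prop :=
  q.Nv F u ∧ (u.x ≠ u.s → ∀ y, F.Cov u y → y ∉ q.G)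

/-- The units that may occur at all. -/
def PQ.Ok0 (q : PQ J) (F : FD J) (u : Un J) : Prop := q.OkS F u ∨ (q.Nv F u ∧ q.Cc u)

/-- The units that the cells produce. -/
def PQ.Ok (q : PQ J) (F : FD J) (u : Un J) : Prop :=
  (q.OkS F u ∧ ∀ y, F.Cov u y → y ∉ q.Hc) ∨ (q.Nv F u ∧ q.Cc u)

/-- The strict edges under a macro cell. -/
def PQ.SU (q : PQ J) (F : FD J) (M : MU J) : Set (Sym2 (Vx J)) :=
  {f | ∃ u ∈ M.us, ∃ e, F.Cov u e ∧ f ∈ q.S e}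

/-- The static edges. -/
def PQ.St (q : PQ J) (F : FD J) : Set (Vx J) :=
  {y | (y ∈ q.G ∧ y ∉ q.Hc) ∨ (y ∈ q.Vs ∧ F.nx y ∈ q.Vs)}

/-- An ordinary top edge carries at most one strict edge, and then it is paid below. -/
def PQ.Od (q : PQ J) (F : FD J) (p : PD J) (e : Vx J) : Prop :=
  (q.S e).Subsingleton ∧ ((q.S e).Nonempty → p.Dn F e ∧ e ∉ q.Hc)

/-- A static system of pins. -/
structure PS (F : FD J) (X : XD J) (Pr : Set (Vx J)) (p : PD J) (q : PQ J) : Prop where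
  pl : Plan0 F X p
  gtr : ∀ a x, tr a x ∈ q.G ↔ x ∈ q.G
  vtr : ∀ a x, tr a x ∈ q.Vs ↔ x ∈ q.Vs
  htr : ∀ a x, tr a x ∈ q.Hc ↔ x ∈ q.Hc
  ctr : ∀ a u, q.Cc u → q.Cc (u.act a)
  up : ∀ y ∈ F.LA, y ∉ q.G → p.Up F y
  cc : ∀ u, Val F ∅ u → q.Cc u → u.x ≠ u.s ∧ (∀ y, F.Cov u y → y ∈ q.Hc) ∧
    (p.c u.s.1 = p.c u.s'.1 ∨ p.R F u.s ∨ p.Lt F u.s')
  vis : ∀ v ∈ q.Vs, v ∈ F.LA → (∃ g ∈ q.G, g ∈ F.LA ∧ (v = g ∨ v = F.nx g)) ∨
    (∃ t ∈ q.Vs, t ∈ F.LA ∧ t ∈ Pr ∧ F.an t = v) ∨ ∃ k ∈ X.K, k ∈ F.U (F.f v + 1) ∧ F.Γ.Adj v k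
  row : ∀ j, ∃ t ∈ F.L j, t ∈ Pr ∧ t ∈ q.Vs
  np : ∀ y ∈ F.LA, y ∉ Pr ∨ F.nx y ∉ Pr → y ∈ q.St F

variable {q : PQ J}

theorem PQ.Ok.ok0 {u : Un J} (h : q.Ok F u) : q.Ok0 F u := h.imp_left And.left

theorem PQ.Ok0.nv {u : Un J} (h : q.Ok0 F u) : q.Nv F u := h.elim And.left And.left

theorem okS_tv (y : Vx J) : q.OkS F (Tv F y) := ⟨fun _ _ _ k => k.elim, fun n => absurd rfl n⟩

theorem PS.pt (hF : Lay F X Pr) (h : PS F X Pr p q) {u : Un J} (o : q.OkS F u) (n : u.x ≠ u.s) :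
    ∀ y, F.Cov u y → p.R F y ∨ p.Lt F (F.nx y) := fun y c =>
  h.pl.up_pt hF (hF.la c.1) (h.up y (hF.la c.1) (o.2 n y c))

theorem PS.plan (hF : Lay F X Pr) (h : PS F X Pr p q) : Plan F X p (q.Ok F) :=
  h.pl.plan hF fun u hu o n => o.elim (fun o => Or.inr (chain_end hF hu (h.pt hF o.1 n)))
    fun o => (h.cc u hu o.2).2.2

theorem PS.act (hF : Lay F X Pr) (h : PS F X Pr p q) (a : ℤ × ℤ) {u : Un J} (hu : Val F ∅ u) :
    (q.Ok0 F u → q.Ok0 F (u.act a)) ∧ (q.Ok F u → q.Ok F (u.act a)) := by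
  have nv : q.Nv F u → q.Nv F (u.act a) := fun o v hv l k => by
    obtain ⟨v, rfl⟩ := tr_surj a v
    exact o v ((h.vtr a v).1 hv) ((hF.l_tr a u.s v).1 l) ((mem_pk a u v).1 k)
  have cv : ∀ {A : Set (Vx J)}, (∀ x, tr a x ∈ A ↔ x ∈ A) → (∀ y, F.Cov u y → y ∉ A) →
      ∀ y, F.Cov (u.act a) y → y ∉ A := fun hA o y c k => by
    obtain ⟨y, rfl⟩ := tr_surj a y
    exact o y ((hF.cov_tr a y hu).1 c) ((hA y).1 k)
  have os : q.OkS F u → q.OkS F (u.act a) := fun o =>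
    ⟨nv o.1, fun n => cv (h.gtr a) (o.2 fun e => n (congrArg (tr a) e))⟩
  exact ⟨Or.imp os fun o => ⟨nv o.1, h.ctr a u o.2⟩,
    Or.imp (fun o => ⟨os o.1, cv (h.htr a) o.2⟩) fun o => ⟨nv o.1, h.ctr a u o.2⟩⟩

/-- a visible cut vertex is not inside a macro cell -/
theorem vis_out (hF : Lay F X Pr) (hM : MVal F X Pr M) (o : ∀ u ∈ M.us, q.Nv F u) {t : Vx J}
    (ht : t ∈ F.L (F.f M.s)) (v : t ∈ q.Vs) (pt : t ∈ Pr) :
    F.ρ t ≤ F.ρ M.s ∨ F.ρ M.s' ≤ F.ρ t := by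
  by_contra k
  obtain ⟨u, hu, c⟩ := hM.cov t ⟨ht, by omega, by omega⟩ (by omega)
  rcases cov_mem hF (hM.val u hu).1 c with e | e
  · have := hM.mx u hu (e ▸ pt)
    rw [e, this] at k
    omega
  · exact o u hu t v c.1 e

/-- a cap on the bottom that covers no edge of `G` hides no visible vertex -/
theorem PS.nv (hF : Lay F X Pr) (h : PS F X Pr p q) (hM : MVal F X Pr M)
    (o : ∀ u ∈ M.us, q.Nv F u) {u : Un J} (hu : Val F ∅ u) (kf : KF F X u)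
    (b1 : u.s ∈ F.Bot M.s M.s') (b2 : u.s' ∈ F.Bot M.s M.s') {v : Vx J} (hv : v ∈ q.Vs)
    (l : v ∈ F.L (F.f u.s)) (k : v ∈ u.pk) : ∃ g ∈ q.G, F.Cov u g ∧ (v = g ∨ v = F.nx g) := by
  have cu := capOf hu k
  have o1 := (cu.old v l).1 k
  have fv := hF.lf _ _ l
  have fu := hF.lf _ _ b1.1
  rcases h.vis v hv (hF.la l) with ⟨g, g1, g2, e⟩ | ⟨t, t1, t2, t3, e⟩ | ⟨z, z1, z2, e⟩
  · refine ⟨g, g1, ?_, e⟩
    rcases e with rfl | rfl
    · exact ⟨l, o1.1.le, o1.2⟩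
    · obtain ⟨n1, n2, -⟩ := hF.nx_mem g2
      have e := (hF.lf _ _ n1).symm.trans fv
      exact ⟨e ▸ g2, by omega, by omega⟩
  · exfalso
    have ft := hF.lf _ _ (hF.anL _ t t2 t3)
    rw [e] at ft
    have ht : t ∈ F.L (F.f M.s) := (show F.f t = F.f M.s by omega) ▸ t2
    have d1 := b1.2.1
    have d2 := b2.2.2
    rcases vis_out hF hM o ht t1 t3 with m | m
    · have := hF.amono _ _ ht _ hM.hs t3 hM.ps m
      rw [e] at this
      omega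
    · have := hF.amono _ _ hM.hs' _ ht hM.ps' t3 m
      rw [e] at this
      omega
  · exfalso
    rcases cu.cl v k z e (Or.inr (fv ▸ z2)) with m | m
    · exact kf.1 z m z1
    · rcases tsub hu m with rfl | rfl | ⟨rfl, -⟩
      exacts [hF.k_la z1 hu.hs, hF.k_la z1 (hF.la hu.hs'), (kf.2 (cap_ne hu cu)).1 z1]

/-- The conditions of the plan on the first path of the disc of `M`. -/
structure Cel (F : FD J) (X : XD J) (p : PD J) (q : PQ J) (M : MU J) (d : DD (Vx J))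
    (V R B : Set (Vx J)) : Prop where
  mc : MC F X M d V R
  sub : q.SU F M ⊆ PE F.Γ d.X
  kv : ∀ v ∈ V, v ∈ d.X → v ∈ B ∪ Kp d (q.SU F M)
  hb : ∀ y ∈ d.X, y ∉ X.K → F.nx y ∈ d.X → y ∈ q.G → y ∉ q.Hc → s(y, F.nx y) ∈ q.SU F M
  hk : ∃ π : Vx J → Vx J, ∀ a ∈ d.X, ∀ b ∈ d.X, F.Γ.Adj a b → a ∈ X.K → s(a, b) ∈ q.SU F M ∨
    p.c a.1 = p.c b.1 ∨ (p.Sp0 F M a ∧ π a = b) ∨ (p.Sp0 F M b ∧ π b = a)
  hkc : ∀ a ∈ d.X, a ∈ X.K → (p.c a.1).1 = p.cls (F.f M.s - 1)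
  hR : ∀ c : Vx J → Col, (∀ v ∈ X.K, c v = p.c v.1) →
    (∀ v ∈ F.Bot M.s M.s', (v ∉ d.X ∨ v ∈ B ∪ Kp d (q.SU F M)) → c v = p.c v.1) →
    ∃ c', Rec F.Γ R ∅ c c'

/-- From a solution of the disc to a solution of the cell (no prescribed cap on the bottom). -/
theorem PS.csol (hF : Lay F X Pr) (h : PS F X Pr p q) (hM : MVal F X Pr M)
    (o : ∀ u ∈ M.us, q.Ok0 F u) (hc : Cel F X p q M d V R B) (nh : ∀ y, Over F M y → y ∉ q.Hc)
    (s : Sl F p (q.Ok F) M d (q.SU F M) B) : CSol F X p (q.Ok F) M := by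
  obtain ⟨π, hk⟩ := hc.hk
  have ov : ∀ y ∈ d.X, y ∉ X.K → F.nx y ∈ d.X → Over F M y := fun y h1 h2 h3 => by
    have b := hc.mc.xb h1 h2
    exact over_of hF b (hc.mc.xb h3 fun k => hF.k_la k (hF.la (hF.nx_mem b.1).1))
  refine s.csol hF (h.plan hF) hM hc.mc hc.kv π (fun y h1 h2 h3 => ?_) hk hc.hkc
    (fun y hy => Or.inl ⟨okS_tv y, fun z c => hF.tv_cov (hF.la hy.1.1) c ▸ nh y hy⟩)
    (fun u h1 h2 h3 h4 h5 _ h7 => ?_) hc.hR
  · have k := ov y h1 h2 h3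
    by_cases g : y ∈ q.G
    exacts [Or.inl (hc.hb y h1 h2 h3 g (nh y k)), Or.inr (h.up y (hF.la k.1.1) g)]
  · have key : ∀ y, F.Cov u y → y ∉ q.G ∧ y ∉ q.Hc := fun y c => by
      obtain ⟨a1, a2, a3, -⟩ := h7 y c
      have ky : y ∉ X.K := fun k => hF.k_la k (hF.la c.1)
      have := nh y (ov y a1 ky a2)
      exact ⟨fun g => a3 (hc.hb y a1 ky a2 g this), this⟩
    refine Or.inl ⟨⟨fun v hv l k => ?_, fun _ y c => (key y c).1⟩, fun y c => (key y c).2⟩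
    obtain ⟨g, g1, c, -⟩ := h.nv hF hM (fun t ht => (o t ht).nv) h1 h2 h4 h5 hv l k
    exact (key g c).1 g1

/-- A unit over ordinary edges carries at most one strict edge and pays for it. -/
theorem PS.ord (hF : Lay F X Pr) (h : PS F X Pr p q) (hM : MVal F X Pr M) {u : Un J}
    (hu : M.us = {u}) (o : q.Ok0 F u) (hd : MC F X M d V R) (sub : q.SU F M ⊆ PE F.Γ d.X)
    (od : ∀ e, F.Cov u e → q.Od F p e) : Sl F p (q.Ok F) M d (q.SU F M) ∅ := by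
  have mu : u ∈ M.us := hu ▸ rfl
  have vu := (hM.val u mu).1
  have mem : ∀ f ∈ q.SU F M, ∃ e, F.Cov u e ∧ f ∈ q.S e := by
    rintro f ⟨t, ht, k⟩
    rw [hu] at ht
    exact ht ▸ k
  refine sl_tab hF hM hd hu sub ?_
  rcases (q.SU F M).eq_empty_or_nonempty with k | ⟨f, hf⟩
  · exact Or.inl k
  obtain ⟨e, c, fe⟩ := mem f hf
  obtain ⟨s1, s2⟩ := od e c
  obtain ⟨dn, nh⟩ := s2 ⟨f, fe⟩
  by_cases t : u.x = u.s
  · have one : ∀ y, F.Cov u y → y = u.s := fun y c => hF.tv_cov vu.hs (hF.eq_tv vu t ▸ c)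
    refine Or.inr (Or.inl ⟨fun a ha b hb => ?_, fun _ => t1_dn hF vu mu t (one e c ▸ dn)⟩)
    obtain ⟨e1, c1, a1⟩ := mem a ha
    obtain ⟨e2, c2, a2⟩ := mem b hb
    rw [one e1 c1, ← one e c] at a1
    rw [one e2 c2, ← one e c] at a2
    exact s1 a1 a2
  · have os : q.OkS F u := o.resolve_right fun k => nh ((h.cc u vu k.2).2.1 e c)
    have pt := h.pt hF os t
    have db : ∀ y, F.Cov u y → (q.S y).Nonempty → p.R F y ∧ p.Lt F (F.nx y) := fun y c n =>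
      h.pl.up_dn hF (hF.la c.1) (h.up y (hF.la c.1) (os.2 t y c)) ((od y c).2 n).1
    have d0 := db e c ⟨f, fe⟩
    obtain ⟨r, l⟩ := chain_dbl hF vu pt c d0
    refine Or.inr (Or.inl ⟨fun a ha b hb => ?_, fun k => t1_cap (h.plan hF) vu k mu t r l⟩)
    obtain ⟨e1, c1, a1⟩ := mem a ha
    obtain ⟨e2, c2, a2⟩ := mem b hb
    rw [chain_uni hF pt c1 c (db e1 c1 ⟨a, a1⟩) d0] at a1
    rw [chain_uni hF pt c2 c (db e2 c2 ⟨b, a2⟩) d0] at a2
    exact s1 a1 a2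

/-- a static edge is covered by its trivial unit only -/
theorem PS.stat (hF : Lay F X Pr) (h : PS F X Pr p q) {u : Un J} (hu : Val F ∅ u)
    (o : q.Ok0 F u) {y : Vx J} (hy : y ∈ q.St F) (c : F.Cov u y) : u = Tv F y := by
  rcases hy with hy | hy
  · have n : u.x = u.s := by
      by_contra n
      exact o.elim (fun k => k.2 n y c hy.1) fun k => hy.2 ((h.cc u hu k.2).2.1 y c)
    have e := hF.eq_tv hu n
    obtain rfl : y = u.s := hF.tv_cov hu.hs (e ▸ c)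
    exact e
  · exact FK.rigid hF hu c (o.nv y hy.1 c.1) (o.nv _ hy.2 (hF.nx_mem c.1).1)

/-- a macro cell has one unit or consists of static edges -/
theorem PS.mac (hF : Lay F X Pr) (h : PS F X Pr p q) (hM : MVal F X Pr M) :
    (∀ u ∈ M.us, u.s ∈ Pr) ∨ ∀ u ∈ M.us, ∃ z, F.Cov u z ∧ z ∈ q.St F := by
  by_cases k : ∀ u ∈ M.us, u.s ∈ Pr
  · exact Or.inl k
  refine Or.inr fun u hu => ?_
  have vu := (hM.val u hu).1
  by_cases a : u.s ∈ Pr
  swap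
  · exact ⟨u.s, cov_self vu, h.np _ vu.hs (Or.inl a)⟩
  have b : u.s' ∉ Pr := fun b => k fun t ht => by
    rw [(hM.single hF hu (hM.mx u hu a) b).2] at ht
    exact ht ▸ a
  have l := vlt vu
  have m := hF.l_mem (F.f u.s) (F.ρ u.s' - 1)
  refine ⟨_, ⟨m, by rw [hF.rho]; omega, by rw [hF.rho]; omega⟩, h.np _ (hF.la m) (Or.inr ?_)⟩
  rwa [hF.nx_l, sub_add_cancel, hF.l_rho vu.hs']

/-- The colouring from a system of pins: every chain of edges meets a static edge and every macro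
cell has a solution. -/
theorem PS.master [Fintype J] (hF : Lay F X Pr) (h : PS F X Pr p q) {φ : Vx J → Vx J}
    (hφ : FK.PH F Pr φ) (bar : ∀ y ∈ F.LA, ∃ n, φ^[n] y ∈ q.St F)
    (hsol : ∀ M, MVal F X Pr M → (∀ u ∈ M.us, q.Ok0 F u) → CSol F X p (q.Ok F) M) :
    ∃ c, Col1 F.Γ ∅ c := by
  obtain ⟨W, r, N, hW⟩ := FK.pw_ex (A := F.LA) (G := q.St F ∩ F.LA) (φ := φ)
    (fun a x hx => (hF.la_tr a x).2 hx) (fun a x hx => ⟨hx.1.imp
      (fun k => ⟨(h.gtr a x).2 k.1, fun m => k.2 ((h.htr a x).1 m)⟩) fun k =>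
        ⟨(h.vtr a x).2 k.1, by rw [hF.nx_tr a hx.2]; exact (h.vtr a _).2 k.2⟩,
      (hF.la_tr a x).2 hx.2⟩) hφ.eqv
  have no : ∀ w, w ∉ W := fun w hw => by
    obtain ⟨n, hn⟩ := bar w (hW.sub hw)
    have : ∀ n, φ^[n] w ∈ W := fun n => by
      induction n with
      | zero => exact hw
      | succ n ih =>
        rw [Function.iterate_succ_apply']
        exact hW.up _ ih
    exact hW.ng _ (this n) ⟨hn, hW.sub (this n)⟩
  refine FN.master hF (q.Ok0 F) (h.plan hF) (fun a u hu => (h.act hF a hu).1)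
    (fun a u hu => (h.act hF a hu).2) (fun _ => PQ.Ok.ok0) (fun y _ => Or.inl (okS_tv y))
    (fun j => ?_) hsol r N (fun y _ => hW.bd y) (FK.rank_ok hF hφ hW ?_ fun M hM _ => ?_)
  · obtain ⟨t, h1, h2, h3⟩ := h.row j
    exact ⟨t, h1, h2, fun u _ o e => o.nv t h3 (e ▸ h1)⟩
  · intro y _ k u1 u2 v1 v2 o1 o2 c1 c2
    have s := (k.resolve_right (no y)).1
    rw [h.stat hF v1 o1.ok0 s c1, h.stat hF v2 o2.ok0 s c2]
  · exact (h.mac hF hM).imp_right fun k u hu =>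
      (k u hu).imp fun z m => ⟨m.1, Or.inl ⟨m.2, hF.la m.1.1⟩⟩

end Pool.Agent.P.MP_08fd93_co.FN
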