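import Pool.Agent.P.MP_08fd93_co.FN.N8
import Pool.Agent.P.MP_08fd93_co.FK.K2
import Pool.Agent.P.MP_08fd93_co.FZ.VM
import Pool.Agent.P.MP_08fd93_co.FZ.R2

/-! Integration: frames whose stems are single vertices with one foot or two adjacent feet. -/

set_option autoImplicit false

namespace Pool.Agent.P.MP_08fd93_co.FN

open OV PkPrtP FB FE FZ

variable {J : Type} {G : VD J} {j : ℤ} {s s' t e y a b k : Vx J}

/-- Stems are single vertices with close feet; every row vertex is a cut. -/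
structure SV (G : VD J) : Prop where
  vf : VFrm G
  pr : ∀ x, x ∈ G.Pr
  eT : ∀ u ∈ G.K, G.T u = {u}
  eV : ∀ u ∈ G.K, u ∈ G.V
  eb : ∀ u, G.bt u = u
  kq : ∀ k ∈ G.K, ∀ k' ∈ G.K, ∀ x, G.Γ.Adj x k → G.Γ.Adj x k' → k = k'
  sh : ∀ k ∈ G.K, G.ρ (G.xr k) ≤ G.ρ (G.xl k) + 1

/-- The virtual parent: the left foot. -/
def ftL (G : VD J) (s : Vx J) : Vx J := G.xl (G.an s)

/-- The frame with the left feet as parents. -/
abbrev FL (G : VD J) : FD J := G.F (ftL G)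

/-- The static data with the left feet as parents. -/
abbrev XL (G : VD J) : XD J := G.X (ftL G)

theorem SV.fts (h : SV G) : Fts G (ftL G) := h.vf.fts_l

theorem SV.lay (h : SV G) : Lay (FL G) (XL G) G.Pr := h.vf.lay h.fts

theorem switch {P : ℤ → Prop} {m n : ℤ} (l : m ≤ n) (h1 : P m) (h2 : ¬ P n) :
    ∃ i, m ≤ i ∧ i < n ∧ P i ∧ ¬ P (i + 1) := by
  induction n, l using Int.leInduction with
  | base => exact absurd h1 h2
  | succ n l ih =>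
    by_cases c : P n
    · exact ⟨n, l, by omega, c, h2⟩
    · obtain ⟨i, a, b, r⟩ := ih c
      exact ⟨i, a, by omega, r⟩

theorem SV.t_mem (h : SV G) (m : a ∈ G.T b) : a = b := by
  rwa [h.eT b m.2.1] at m

theorem SV.foot (h : SV G) (hk : k ∈ G.K) : (G.xl k ∈ G.L (G.f k - 1) ∧ G.Γ.Adj k (G.xl k)) ∧
    (G.xr k ∈ G.L (G.f k - 1) ∧ G.Γ.Adj k (G.xr k)) ∧
      ∀ z ∈ G.L (G.f k - 1), G.Γ.Adj k z → G.ρ (G.xl k) ≤ G.ρ z ∧ G.ρ z ≤ G.ρ (G.xr k) := by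
  have v := h.eV k hk
  have l := h.vf.vl k v
  have r := h.vf.vr k v
  rw [h.eb] at l r
  exact ⟨l, r, fun z hz e => (h.vf.vx k v k (t_self hk) z hz e).2⟩

/-- a static vertex on the bottom path is a corner -/
theorem SV.bt_k (h : SV G) (ha : a ∈ G.Bt s s') (hk : a ∈ G.K) : a = G.an s ∨ a = G.an s' := by
  rcases ha with e | ⟨-, m | m | m⟩
  exacts [Or.inl e, Or.inl (h.t_mem m), Or.inr (h.t_mem m), absurd hk (h.vf.l_nk m.1)]

theorem bt_ne (ha : a ∈ G.Bt s s') (hb : b ∈ G.Bt s s') (n : a ≠ b) : G.an s ≠ G.an s' := fun e => by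
  rw [bt_single e] at ha hb
  exact n (ha.trans hb.symm)

section

variable (h : SV G) (hs : s ∈ G.L j) (hs' : s' ∈ G.L j)
include h hs hs'

omit hs' in
theorem SV.bt_of (ne : G.an s ≠ G.an s') (hy : y ∈ G.L (j - 1))
    (l1 : G.ρ (G.xr (G.an s)) ≤ G.ρ y) (l2 : G.ρ y ≤ G.ρ (G.xl (G.an s'))) : y ∈ G.Bt s s' :=
  Or.inr ⟨ne, Or.inr (Or.inr ⟨by rwa [h.vf.uw.lf j s hs], l1, l2⟩)⟩

theorem SV.bt_b (l : G.ρ s ≤ G.ρ s') : G.an s' ∈ G.Bt s s' :=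
  (h.vf.bt_pth hs (h.pr s) hs' (h.pr s') l).hb

/-- a stem under the interval is one of the two outer stems -/
theorem SV.kin (hN : G.NoV s s') (ht : t ∈ G.L j) (l1 : G.ρ s ≤ G.ρ t) (l2 : G.ρ t ≤ G.ρ s')
    (hk : G.an t ∈ G.K) : G.an t = G.an s ∨ G.an t = G.an s' := by
  obtain ⟨c1, c2, c3⟩ := h.vf.kc _ hk
  rw [(h.vf.an_v ht (h.pr t) hk).2] at c1
  have c4 := h.t_mem c3
  by_cases a : G.ρ (G.ch (G.an t)) < G.ρ s
  · exact Or.inl ((h.vf.btw c1 c2 hs (h.pr s) ht (h.pr t) a.le l1 c4 (c4.symm ▸ hk)).trans c4).symm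
  by_cases b : G.ρ s' < G.ρ (G.ch (G.an t))
  · exact Or.inr (h.vf.btw ht (h.pr t) hs' (h.pr s') c1 c2 l2 b.le c4.symm hk).symm
  exact (hN _ hk ⟨by rwa [h.vf.uw.lf j s hs], by omega, by omega⟩).imp h.t_mem h.t_mem

/-- the bottom of a part of the interval -/
theorem SV.bt_sub (hN : G.NoV s s') {t' : Vx J} (ht : t ∈ G.L j) (ht' : t' ∈ G.L j)
    (l1 : G.ρ s ≤ G.ρ t) (l : G.ρ t ≤ G.ρ t') (l2 : G.ρ t' ≤ G.ρ s') : G.Bt t t' ⊆ G.Bt s s' := by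
  intro z hz
  by_cases c : z ∈ G.K
  · have : z = G.an s ∨ z = G.an s' := by
      rcases h.bt_k hz c with e | e
      · exact e ▸ h.kin hs hs' hN ht l1 (l.trans l2) (e ▸ c)
      · exact e ▸ h.kin hs hs' hN ht' (l1.trans l) l2 (e ▸ c)
    rcases this with rfl | rfl
    exacts [Or.inl rfl, h.bt_b hs hs' (by omega)]
  obtain ⟨z1, z2, z3⟩ := h.vf.bt_line ht (h.pr t) ht' (h.pr t') l hz c
  have m1 := (h.vf.mono' hs (h.pr s) ht (h.pr t) l1).2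
  have m2 := (h.vf.mono' ht' (h.pr t') hs' (h.pr s') l2).1
  by_cases e : G.an s = G.an s'
  · by_cases g : G.an s ∈ G.K
    · have e1 := h.vf.btw hs (h.pr s) ht (h.pr t) hs' (h.pr s') l1 (l.trans l2) e g
      have e2 := h.vf.btw hs (h.pr s) ht' (h.pr t') hs' (h.pr s') (l1.trans l) l2 e g
      rw [bt_single (e1.trans e2.symm), e1] at hz
      exact Or.inl hz
    · rw [(h.vf.xo _ g).2] at m1
      rw [← e, (h.vf.xo _ g).1] at m2
      exact Or.inl (h.vf.toRows.inj z1 (h.vf.an_l hs (h.pr s) g) (by omega))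
  · exact h.bt_of hs e z1 (by omega) (by omega)

/-- an edge of the row on the bottom lies under one top edge -/
theorem SV.row_ex (hN : G.NoV s s') (lt : G.ρ s < G.ρ s') (h1 : y ∈ G.Bt s s') (hk : y ∉ G.K)
    (h2 : G.nx y ∈ G.Bt s s') : ∃ e ∈ G.L j, G.ρ s ≤ G.ρ e ∧ G.ρ e < G.ρ s' ∧
      y ∈ G.Bt e (G.nx e) ∧ G.nx y ∈ G.Bt e (G.nx e) := by
  have R := h.vf.toRows
  obtain ⟨y1, y2, -⟩ := h.vf.bt_line hs (h.pr s) hs' (h.pr s') lt.le h1 hk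
  obtain ⟨n1, n2, -⟩ := R.nx_mem y1
  obtain ⟨-, -, y3⟩ := h.vf.bt_line hs (h.pr s) hs' (h.pr s') lt.le h2 (h.vf.l_nk n1)
  obtain ⟨i, i1, i2, i3, i4⟩ := switch
    (P := fun i => i < G.ρ s' ∧ G.ρ (G.xr (G.an (G.l j i))) ≤ G.ρ y) lt.le
    ⟨lt, by rwa [R.l_rho hs]⟩ fun c => lt_irrefl _ c.1
  have m := R.l_mem j i
  have m' := R.l_mem j (i + 1)
  have key : G.ρ y + 1 ≤ G.ρ (G.xl (G.an (G.l j (i + 1)))) := by
    by_cases c : i + 1 = G.ρ s'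
    · rw [c, R.l_rho hs']
      omega
    have g : G.ρ y < G.ρ (G.xr (G.an (G.l j (i + 1)))) := by
      by_contra g
      exact i4 ⟨by omega, by omega⟩
    by_cases q : G.an (G.l j (i + 1)) ∈ G.K
    · rcases h.kin hs hs' hN m' (by rw [R.rho]; omega) (by rw [R.rho]; omega) q with r | r
      · rw [r] at g
        omega
      · rw [r]
        omega
    · rw [(h.vf.xo _ q).2] at g
      rw [(h.vf.xo _ q).1]
      omega
  have ne : G.an (G.l j i) ≠ G.an (G.l j (i + 1)) := fun r => by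
    have := (h.vf.feet m (h.pr _)).2.2
    have := i3.2
    rw [← r] at key
    omega
  have := i3.2
  refine ⟨_, m, by rwa [R.rho], by rwa [R.rho], ?_⟩
  rw [R.nx_l]
  exact ⟨h.bt_of m ne y1 this (by omega), h.bt_of m ne n1 (by omega) (by omega)⟩

/-- an edge of the bottom path at a static vertex -/
theorem SV.stem (l : G.ρ s ≤ G.ρ s') (ha : a ∈ G.Bt s s') (hb : b ∈ G.Bt s s') (e : G.Γ.Adj a b)
    (hk : a ∈ G.K) : (a = G.an s ∧ b = G.xr a) ∨ (a = G.an s' ∧ b = G.xl a) := by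
  have nb : b ∉ G.K := fun c => e.ne (h.t_mem ⟨hk, c, h.vf.kn a hk b c e⟩)
  obtain ⟨b1, b2, b3⟩ := h.vf.bt_line hs (h.pr s) hs' (h.pr s') l hb nb
  obtain ⟨f1, f2, f3⟩ := h.foot hk
  rcases h.bt_k ha hk with r | r
  · rw [show G.f a = j from r ▸ (h.vf.an_v hs (h.pr s) (r ▸ hk)).2] at f1 f2 f3
    exact Or.inl ⟨r, h.vf.toRows.inj b1 f2.1 (le_antisymm (f3 b b1 e).2 (r ▸ b2))⟩
  · rw [show G.f a = j from r ▸ (h.vf.an_v hs' (h.pr s') (r ▸ hk)).2] at f1 f2 f3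
    exact Or.inr ⟨r, h.vf.toRows.inj b1 f1.1 (le_antisymm (r ▸ b3) (f3 b b1 e).1)⟩

/-- the two feet lie on the bottom path -/
theorem SV.feet_bt (l : G.ρ s ≤ G.ρ s') (ne : G.an s ≠ G.an s') :
    G.xr (G.an s) ∈ G.Bt s s' ∧ G.xl (G.an s') ∈ G.Bt s s' := by
  have m := (h.vf.mono hs (h.pr s) hs' (h.pr s') l).resolve_left ne
  exact ⟨h.bt_of hs ne (h.vf.feet hs (h.pr s)).2.1 le_rfl m,
    h.bt_of hs ne (h.vf.feet hs' (h.pr s')).1 m le_rfl⟩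

/-- the last child of the left stem and the edge before the first child of the right stem -/
theorem SV.last (l : G.ρ s ≤ G.ρ s') (ne : G.an s ≠ G.an s') :
    (∃ e ∈ G.L j, G.ρ s ≤ G.ρ e ∧ G.ρ e < G.ρ s' ∧ G.an e = G.an s ∧ G.an (G.nx e) ≠ G.an s) ∧
      ∃ e ∈ G.L j, G.ρ s ≤ G.ρ e ∧ G.ρ e < G.ρ s' ∧ G.an e ≠ G.an s' ∧ G.an (G.nx e) = G.an s' := by
  have R := h.vf.toRows
  constructor
  · obtain ⟨i, i1, i2, i3, i4⟩ := switch (P := fun i => G.an (G.l j i) = G.an s) l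
      (by rw [R.l_rho hs]) (by rw [R.l_rho hs']; exact ne.symm)
    exact ⟨_, R.l_mem j i, by rwa [R.rho], by rwa [R.rho], i3, by rwa [R.nx_l]⟩
  · obtain ⟨i, i1, i2, i3, i4⟩ := switch (P := fun i => G.an (G.l j i) ≠ G.an s') l
      (by rwa [R.l_rho hs]) (by rw [R.l_rho hs']; exact fun c => c rfl)
    exact ⟨_, R.l_mem j i, by rwa [R.rho], by rwa [R.rho], i3, by rw [R.nx_l]; exact not_not.1 i4⟩

/-- the rest of a cell lies in the triangle under its left stem -/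
theorem SV.rest (T : TA G.Γ) : G.R (ftL G) s s' = ∅ ∨ (G.an s ∈ G.K ∧ G.an s ≠ G.an s' ∧
    G.xl (G.an s) ≠ G.xr (G.an s) ∧
      Tri G.Γ (G.R (ftL G) s s') (G.an s) (G.xl (G.an s)) (G.xr (G.an s))) := by
  rcases (G.R (ftL G) s s').eq_empty_or_nonempty with c | ⟨v, hv⟩
  · exact Or.inl c
  have sb := fun z (hz : z ∈ G.R (ftL G) s s') =>
    (h.vf.r_sub h.fts hs (h.pr s) hs' (h.pr s') hz).resolve_right fun c => c.2.1 rfl
  obtain ⟨hk, ne, -⟩ := sb v hv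
  have fk := (h.vf.an_v hs (h.pr s) hk).2
  obtain ⟨f1, f2, f3⟩ := h.foot hk
  rw [fk] at f1 f2 f3
  have fin := (h.vf.r_nb hs fk fun z hz => (sb z hz).2.2).1
  have nb := h.vf.r_tri hs (h.eV _ hk) fk (fun z hz => (sb z hz).2.2) (h.sh _ hk)
  rw [h.eb] at nb
  have l1 := (f3 _ f2.1 f2.2).1
  have l2 := h.sh _ hk
  have l3 : G.ρ (G.xl (G.an s)) ≠ G.ρ (G.xr (G.an s)) := fun c =>
    ne (h.vf.toRows.inj f1.1 f2.1 c)
  refine Or.inr ⟨hk, fun e => ?_, ne, h.lay.tri T f1.2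
    ((h.vf.toRows.adj_iff f1.1 f2.1).2 (Or.inl (by omega))) f2.2 fin ?_ nb⟩
  · refine h.vf.nj _ (Set.subset_univ _) fin ⟨v, hv⟩ _ _ (Or.inr f1.2) fun z hz => ?_
    rcases nb hz with m | m | m | m
    exacts [Or.inl m, Or.inr (Or.inl m), Or.inr (Or.inr m), by
      obtain ⟨x, hx, g⟩ := hz
      refine ((hx.1.2 z (cpv_nb g.symm)).2 (Or.inl ⟨?_, ?_⟩)).elim
      · rw [m, h.vf.uw.lf j s hs]
        exact f2.1
      · rw [m, ftL, ← e]
        omega]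
  · refine Set.disjoint_left.2 fun z hz m => ?_
    have u := hz.1.1
    rw [h.vf.uw.lf j s hs] at u
    rcases m with m | m | m
    exacts [u.2 (m ▸ hk), l_not_u' f1.1 (m ▸ u.1.1), l_not_u' f2.1 (m ▸ u.1.1)]

end

end Pool.Agent.P.MP_08fd93_co.FN
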